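import Pool.Agent.EG80.Lie

set_option linter.all false

namespace Pool.Agent.EG80

section

variable {L : Type*} [LieRing L] [LieAlgebra ℂ L]

/-- The relations for all handles: `α i`, `β i` (`i < g`) and `S i` (`i + 1 < g`). -/
structure Pre (g : ℕ) (α β S : ℕ → L) : Prop where
  aa : ∀ i j, i < g → j < g → ⁅α i, α j⁆ = 0
  bb : ∀ i j, i < g → j < g → ⁅β i, β j⁆ = 0
  ab : ∀ i j, i < g → j < g → i ≠ j → ⁅α i, β j⁆ = 0
  SS : ∀ i j, i + 1 < g → j + 1 < g → ⁅S i, S j⁆ = 0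
  Sa : ∀ i j, i + 1 < g → j < g → ⁅S i, α j⁆ = 0
  Sb : ∀ i j, i + 1 < g → j < g → j ≠ i → j ≠ i + 1 → ⁅S i, β j⁆ = 0
  core : ∀ i, i + 1 < g → Core (α i) (β i) (α (i + 1)) (β (i + 1)) (S i)

/-- The simple root vectors. -/
def cE (g : ℕ) (α β S : ℕ → L) (k : ℕ) : L := if k + 1 < g then ⁅β (k + 1), S k⁆ else α k

/-- The opposite root vectors. -/
def cF (g : ℕ) (α β S : ℕ → L) (k : ℕ) : L := if k + 1 < g then ⁅β k, S k⁆ else -β k

/-- The coordinates of the Cartan algebra. -/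
def cH (α β : ℕ → L) (i : ℕ) : L := ⁅β i, α i⁆

/-- The weight of `cE k` under `cH i`. -/
def wt (g i k : ℕ) : ℂ :=
  (if i = k then (if k + 1 < g then 1 else 2) else 0) - (if i = k + 1 then 1 else 0)

/-- A Chevalley system of type `C_g`. -/
structure CS (g : ℕ) (α β S : ℕ → L) : Prop where
  hh : ∀ i j, i < g → j < g → ⁅cH α β i, cH α β j⁆ = 0
  he : ∀ i k, i < g → k < g → ⁅cH α β i, cE g α β S k⁆ = wt g i k • cE g α β S k
  hf : ∀ i k, i < g → k < g → ⁅cH α β i, cF g α β S k⁆ = (-wt g i k) • cF g α β S k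
  ef : ∀ k l, k < g → l < g → k ≠ l → ⁅cE g α β S k, cF g α β S l⁆ = 0
  efk : ∀ k, k + 1 < g → ⁅cE g α β S k, cF g α β S k⁆ = cH α β k - cH α β (k + 1)
  efg : ∀ k, k + 1 = g → ⁅cE g α β S k, cF g α β S k⁆ = cH α β k

variable {g : ℕ} {α β S : ℕ → L}

-- MODULE CV1
omit [LieAlgebra ℂ L] in
private theorem CV1_sw {x y : L} (h : ⁅x, y⁆ = 0) : ⁅y, x⁆ = 0 := by
  rw [← lie_skew, h, neg_zero]

omit [LieAlgebra ℂ L] in
private theorem CV1_c {x y : L} (h : ⁅x, y⁆ = 0) (z : L) : ⁅x, ⁅y, z⁆⁆ = ⁅y, ⁅x, z⁆⁆ := by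
  rw [leibniz_lie, h, zero_lie, zero_add]

omit [LieAlgebra ℂ L] in
private theorem CV1_z {x y z : L} (h : ⁅x, y⁆ = 0) (h' : ⁅x, z⁆ = 0) : ⁅x, ⁅y, z⁆⁆ = 0 := by
  rw [CV1_c h, h', lie_zero]

private theorem CV1_kl (h : Pre g α β S) (hg : 2 ≤ g) (i : ℕ) (hi : i < g) :
    ⁅α i, ⁅α i, β i⁆⁆ = (2 : ℂ) • α i ∧ ⁅β i, ⁅β i, α i⁆⁆ = (2 : ℂ) • β i := by
  by_cases h1 : i + 1 < g
  · exact ⟨(h.core i h1).k1, (h.core i h1).l1⟩
  · obtain ⟨j, rfl⟩ : ∃ j, i = j + 1 := ⟨i - 1, by omega⟩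
    exact ⟨(h.core j hi).k2, (h.core j hi).l2⟩

/-- PROOF. Every i < g is the first or second handle of a pair (2 ≤ g). cH i = ⁅β i, α i⁆ commutes with α j, β j for j ≠ i (Jacobi), so with cH j. -/
theorem Pre.hh (h : Pre g α β S) (i j : ℕ) (hi : i < g) (hj : j < g) :
    ⁅cH α β i, cH α β j⁆ = 0 := by
  rcases eq_or_ne i j with rfl | hij
  · exact lie_self _
  · unfold cH
    refine CV1_z (CV1_sw (CV1_z ?_ ?_)) (CV1_sw (CV1_z ?_ ?_))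
    · exact h.bb j i hj hi
    · exact CV1_sw (h.ab i j hi hj hij)
    · exact h.ab j i hj hi hij.symm
    · exact h.aa j i hj hi

/-- Weights of `β j` and `S k`.
PROOF. ⁅cH i, β j⁆: i ≠ j: 0 by Jacobi; i = j: ⁅⁅β,α⁆,β⁆ = -⁅β,⁅β,α⁆⁆ = -2 β (Core.l1, l2). ⁅cH i, α i⁆ = ⁅⁅β,α⁆,α⁆ = -⁅α,⁅β,α⁆⁆ = ⁅α,⁅α,β⁆⁆ = 2 α. ⁅cH i, S k⁆ = ⁅S k, ⁅α i,β i⁆⁆ (two signs: cH i = -⁅α i,β i⁆) = S k for i = k, k+1 (Core.w1, w2), 0 otherwise (Jacobi, Sa, Sb). -/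
theorem Pre.wts (h : Pre g α β S) (hg : 2 ≤ g) :
    (∀ i j, i < g → j < g → ⁅cH α β i, β j⁆ = (if i = j then (-2 : ℂ) else 0) • β j) ∧
    (∀ i j, i < g → j < g → ⁅cH α β i, α j⁆ = (if i = j then (2 : ℂ) else 0) • α j) ∧
    (∀ i k, i < g → k + 1 < g →
      ⁅cH α β i, S k⁆ = (if i = k ∨ i = k + 1 then (1 : ℂ) else 0) • S k) := by
  refine ⟨?_, ?_, ?_⟩
  · intro i j hi hj
    by_cases hij : i = j
    · subst hij
      rw [if_pos rfl]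
      unfold cH
      rw [← lie_skew, (CV1_kl h hg i hi).2, neg_smul]
    · rw [if_neg hij, zero_smul]
      unfold cH
      exact CV1_sw (CV1_z (h.bb j i hj hi) (CV1_sw (h.ab i j hi hj hij)))
  · intro i j hi hj
    by_cases hij : i = j
    · subst hij
      rw [if_pos rfl]
      unfold cH
      rw [← lie_skew, ← lie_skew (β i) (α i), lie_neg, neg_neg, (CV1_kl h hg i hi).1]
    · rw [if_neg hij, zero_smul]
      unfold cH
      exact CV1_sw (CV1_z (h.ab j i hj hi (Ne.symm hij)) (h.aa j i hj hi))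
  · intro i k hi hk
    by_cases h1 : i = k
    · subst h1
      rw [if_pos (Or.inl rfl), one_smul]
      unfold cH
      rw [← lie_skew, ← lie_skew (β i) (α i), lie_neg, neg_neg, (h.core i hk).w1]
    · by_cases h2 : i = k + 1
      · subst h2
        rw [if_pos (Or.inr rfl), one_smul]
        unfold cH
        rw [← lie_skew, ← lie_skew (β (k + 1)) (α (k + 1)), lie_neg, neg_neg, (h.core k hk).w2]
      · rw [if_neg (by rintro (h3 | h3); exacts [h1 h3, h2 h3]), zero_smul]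
        unfold cH
        exact CV1_sw (CV1_z (h.Sb k i hk hi h1 h2) (h.Sa k i hk hi))
-- END CV1

-- MODULE CV2
/-- PROOF. Pre.wts and Jacobi (ad (cH i) is a derivation): k + 1 < g: weight of ⁅β (k+1), S k⁆ = weight of β (k+1) + weight of S k; k + 1 = g: cE k = α k. Case split i = k, i = k + 1, else; unfold wt. -/
theorem Pre.he (h : Pre g α β S) (hg : 2 ≤ g) (i k : ℕ) (hi : i < g) (hk : k < g) :
    ⁅cH α β i, cE g α β S k⁆ = wt g i k • cE g α β S k := by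
  obtain ⟨wb, wa, ws⟩ := h.wts hg
  by_cases hk1 : k + 1 < g
  · have e1 : cE g α β S k = ⁅β (k + 1), S k⁆ := by
      unfold cE
      rw [if_pos hk1]
    rw [e1, leibniz_lie, wb i (k + 1) hi hk1, ws i k hi hk1, smul_lie, lie_smul, ← add_smul]
    congr 1
    unfold wt
    by_cases h1 : i = k
    · subst h1
      rw [if_neg (by omega), if_pos (Or.inl rfl), if_pos rfl, if_pos hk1, if_neg (by omega)]
      norm_num
    · by_cases h2 : i = k + 1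
      · subst h2
        rw [if_pos rfl, if_pos (Or.inr rfl), if_neg (by omega), if_pos rfl]
        norm_num
      · rw [if_neg h2, if_neg (by rintro (h3 | h3); exacts [h1 h3, h2 h3]), if_neg h1, if_neg h2]
        norm_num
  · have e1 : cE g α β S k = α k := by
      unfold cE
      rw [if_neg hk1]
    rw [e1, wa i k hi hk]
    congr 1
    unfold wt
    rw [if_neg (show ¬ i = k + 1 by omega), if_neg hk1, sub_zero]

/-- PROOF. As Pre.he: weight of β k + weight of S k; k + 1 = g: cF k = -β k. -/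
theorem Pre.hf (h : Pre g α β S) (hg : 2 ≤ g) (i k : ℕ) (hi : i < g) (hk : k < g) :
    ⁅cH α β i, cF g α β S k⁆ = (-wt g i k) • cF g α β S k := by
  obtain ⟨wb, wa, ws⟩ := h.wts hg
  by_cases hk1 : k + 1 < g
  · have e1 : cF g α β S k = ⁅β k, S k⁆ := by
      unfold cF
      rw [if_pos hk1]
    rw [e1, leibniz_lie, wb i k hi hk, ws i k hi hk1, smul_lie, lie_smul, ← add_smul]
    congr 1
    unfold wt
    by_cases h1 : i = k
    · subst h1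
      rw [if_pos rfl, if_pos (Or.inl rfl), if_pos rfl, if_pos hk1, if_neg (by omega)]
      norm_num
    · by_cases h2 : i = k + 1
      · subst h2
        rw [if_neg (by omega), if_pos (Or.inr rfl), if_neg (by omega), if_pos rfl]
        norm_num
      · rw [if_neg h1, if_neg (by rintro (h3 | h3); exacts [h1 h3, h2 h3]), if_neg h1, if_neg h2]
        norm_num
  · have e1 : cF g α β S k = -β k := by
      unfold cF
      rw [if_neg hk1]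
    rw [e1, lie_neg, wb i k hi hk, ← smul_neg]
    congr 1
    unfold wt
    rw [if_neg (show ¬ i = k + 1 by omega), if_neg hk1, sub_zero]
    by_cases h1 : i = k
    · rw [if_pos h1, if_pos h1]
    · rw [if_neg h1, if_neg h1, neg_zero]
-- END CV2

-- MODULE CV3
/-- Apply `ad b` twice to `⁅s, r⁆ = 0`. -/
private theorem CV3_two {b s r : L} (h1 : ⁅b, ⁅b, s⁆⁆ = 0) (h2 : ⁅b, ⁅b, r⁆⁆ = 0)
    (h3 : ⁅s, r⁆ = 0) : ⁅⁅b, s⁆, ⁅b, r⁆⁆ = 0 := by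
  have e1 : ⁅⁅b, s⁆, r⁆ + ⁅s, ⁅b, r⁆⁆ = 0 := by
    rw [← leibniz_lie, h3, lie_zero]
  have e2 : ⁅b, ⁅⁅b, s⁆, r⁆ + ⁅s, ⁅b, r⁆⁆⁆ = 0 := by
    rw [e1, lie_zero]
  rw [lie_add, leibniz_lie b ⁅b, s⁆ r, leibniz_lie b s ⁅b, r⁆, h1, h2, zero_lie, lie_zero,
    zero_add, add_zero] at e2
  have e3 : (2 : ℂ) • ⁅⁅b, s⁆, ⁅b, r⁆⁆ = 0 := by
    rw [two_smul]
    exact e2
  rcases smul_eq_zero.mp e3 with h4 | h4
  · norm_num at h4
  · exact h4

/-- PROOF. Cases. (1) k+1 < g, l+1 < g: e = ⁅β (k+1), S k⁆, f = ⁅β l, S l⁆. If l ≠ k, k+1: β l commutes with S k and β (k+1); S l commutes with β (k+1) unless k+1 = l or k+1 = l+1, both excluded, and with S k: Jacobi. If l = k+1: b = β l, s = S k, r = S l: ad b ^ 2 s = 0 (Core.n2 of the pair k), ad b ^ 2 r = 0 (Core.n1 of the pair l), ⁅s,r⁆ = 0; apply ad b twice to ⁅s,r⁆ = 0: 2 ⁅⁅b,s⁆,⁅b,r⁆⁆ = 0. (2) k+1 < g, l+1 = g: f = -β l: if l ≠ k+1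 Jacobi (l ≠ k); if l = k+1: Core.n2. (3) k+1 = g, l+1 < g: e = α k commutes with β l (l ≠ k) and S l. -/
theorem Pre.ef (h : Pre g α β S) (k l : ℕ) (hk : k < g) (hl : l < g) (hkl : k ≠ l) :
    ⁅cE g α β S k, cF g α β S l⁆ = 0 := by
  by_cases hk1 : k + 1 < g
  · have e1 : cE g α β S k = ⁅β (k + 1), S k⁆ := by
      unfold cE
      rw [if_pos hk1]
    by_cases hl1 : l + 1 < g
    · have e2 : cF g α β S l = ⁅β l, S l⁆ := by
        unfold cF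
        rw [if_pos hl1]
      rw [e1, e2]
      by_cases hlk : l = k + 1
      · subst hlk
        exact CV3_two (h.core k hk1).n2 (h.core (k + 1) hl1).n1 (h.SS k (k + 1) hk1 hl1)
      · refine CV1_z (CV1_sw (CV1_z ?_ ?_)) (CV1_sw (CV1_z ?_ ?_))
        · exact h.bb l (k + 1) hl hk1
        · exact CV1_sw (h.Sb k l hk1 hl (Ne.symm hkl) hlk)
        · exact h.Sb l (k + 1) hl1 hk1 (by omega) (by omega)
        · exact h.SS l k hl1 hk1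
    · have e2 : cF g α β S l = -β l := by
        unfold cF
        rw [if_neg hl1]
      rw [e1, e2, lie_neg, neg_eq_zero]
      by_cases hlk : l = k + 1
      · subst hlk
        exact CV1_sw (h.core k hk1).n2
      · exact CV1_sw (CV1_z (h.bb l (k + 1) hl hk1) (CV1_sw (h.Sb k l hk1 hl (Ne.symm hkl) hlk)))
  · have e1 : cE g α β S k = α k := by
      unfold cE
      rw [if_neg hk1]
    have hl1 : l + 1 < g := by omega
    have e2 : cF g α β S l = ⁅β l, S l⁆ := by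
      unfold cF
      rw [if_pos hl1]
    rw [e1, e2]
    exact CV1_z (h.ab k l hk hl hkl) (CV1_sw (h.Sa l k hl1 hk))
-- END CV3

-- MODULE CV4
/-- PROOF. a1 = α k, b1 = β k, a2 = α (k+1), b2 = β (k+1), S = S k, e = ⁅b2,S⁆, f = ⁅b1,S⁆: ⁅e,f⁆ = ⁅⁅e,b1⁆,S⁆ + ⁅b1,⁅e,S⁆⁆; ⁅e,b1⁆ = -⁅b1,⁅b2,S⁆⁆ = -P; ⁅e,S⁆ = ⁅⁅b2,S⁆,S⁆ = ⁅S,⁅S,b2⁆⁆ = 2 a1 (Core.s1); so ⁅e,f⁆ = -⁅P,S⁆ + 2 ⁅b1,a1⁆ = ⁅S,P⁆ - 2 ⁅a1,b1⁆ = ⁅a2,b2⁆ - ⁅a1,b1⁆ (Core.p) = cH k - cH (k+1). -/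
theorem Pre.efk (h : Pre g α β S) (k : ℕ) (hk : k + 1 < g) :
    ⁅cE g α β S k, cF g α β S k⁆ = cH α β k - cH α β (k + 1) := by
  have c := h.core k hk
  have hk0 : k < g := by omega
  have e1 : cE g α β S k = ⁅β (k + 1), S k⁆ := by
    unfold cE
    rw [if_pos hk]
  have e2 : cF g α β S k = ⁅β k, S k⁆ := by
    unfold cF
    rw [if_pos hk]
  have f1 : ⁅⁅β (k + 1), S k⁆, β k⁆ = -⁅β k, ⁅β (k + 1), S k⁆⁆ := by
    rw [lie_skew]
  have f2 : ⁅⁅β (k + 1), S k⁆, S k⁆ = (2 : ℂ) • α k := by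
    rw [← c.s1, ← lie_skew, ← lie_skew (S k) (β (k + 1)), lie_neg]
  have f3 : ⁅-⁅β k, ⁅β (k + 1), S k⁆⁆, S k⁆ = ⁅α k, β k⁆ + ⁅α (k + 1), β (k + 1)⁆ := by
    rw [neg_lie, lie_skew, c.p]
  rw [e1, e2, leibniz_lie, f1, f2, f3, lie_smul]
  unfold cH
  rw [← lie_skew (α k) (β k), ← lie_skew (α (k + 1)) (β (k + 1))]
  module

/-- PROOF. unfold; ⁅α k, -β k⁆ = ⁅β k, α k⁆. -/
theorem Pre.efg (k : ℕ) (hk : k + 1 = g) : ⁅cE g α β S k, cF g α β S k⁆ = cH α β k := by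
  have e1 : cE g α β S k = α k := by
    unfold cE
    rw [if_neg (by omega)]
  have e2 : cF g α β S k = -β k := by
    unfold cF
    rw [if_neg (by omega)]
  rw [e1, e2]
  unfold cH
  rw [lie_neg, lie_skew]
-- END CV4

/-- The primitive relations give a Chevalley system. -/
theorem Pre.cs (h : Pre g α β S) (hg : 2 ≤ g) : CS g α β S :=
  ⟨h.hh, h.he hg, h.hf hg, h.ef, h.efk, fun k hk => Pre.efg k hk⟩

-- MODULE CV5
private theorem CV5_step (h : Pre g α β S) {i : ℕ} (h1 : i + 1 < g) (K : LieSubalgebra ℂ L)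
    (hE : cE g α β S i ∈ K) (hF : cF g α β S i ∈ K) (ha : α (i + 1) ∈ K) (hb : β (i + 1) ∈ K) :
    S i ∈ K ∧ α i ∈ K ∧ β i ∈ K := by
  have c := h.core i h1
  have hi0 : i < g := by omega
  have e1 : cE g α β S i = ⁅β (i + 1), S i⁆ := by
    unfold cE
    rw [if_pos h1]
  have e2 : cF g α β S i = ⁅β i, S i⁆ := by
    unfold cF
    rw [if_pos h1]
  rw [e1] at hE
  rw [e2] at hF
  have f1 : ⁅α (i + 1), ⁅β (i + 1), S i⁆⁆ = -S i := by
    rw [leibniz_lie, CV1_sw (h.Sa i (i + 1) h1 h1), lie_zero, add_zero, ← lie_skew, c.w2]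
  have hS : S i ∈ K := by
    rw [← neg_neg (S i), ← f1]
    exact neg_mem (K.lie_mem ha hE)
  have f2 : ⁅S i, ⁅β (i + 1), S i⁆⁆ = -((2 : ℂ) • α i) := by
    rw [← c.s1, ← lie_skew (S i) (β (i + 1)), lie_neg, neg_neg]
  have hai : α i ∈ K := by
    have f3 : α i = (-1 / 2 : ℂ) • ⁅S i, ⁅β (i + 1), S i⁆⁆ := by
      rw [f2]
      module
    rw [f3]
    exact K.smul_mem _ (K.lie_mem hS hE)
  have hbb : ⁅β i, β (i + 1)⁆ = 0 := h.bb i (i + 1) hi0 h1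
  have hP : ⁅β i, ⁅β (i + 1), S i⁆⁆ ∈ K := by
    rw [CV1_c hbb]
    exact K.lie_mem hb hF
  have hbP : ⁅β i, ⁅β i, ⁅β (i + 1), S i⁆⁆⁆ = 0 := by
    rw [CV1_c hbb, CV1_c hbb, c.n1, lie_zero]
  have hz : ⁅β i, ⁅α (i + 1), β (i + 1)⁆⁆ = 0 :=
    CV1_z (CV1_sw (h.ab (i + 1) i h1 hi0 (by omega))) hbb
  have f4 : ⁅⁅β i, ⁅β (i + 1), S i⁆⁆, ⁅β i, S i⁆⁆ = (2 : ℂ) • β i := by
    rw [CV1_c (CV1_sw hbP), ← lie_skew _ (S i), c.p, lie_neg, lie_add, hz, add_zero,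
      ← lie_skew (α i) (β i), lie_neg, neg_neg, c.l1]
  have hbi : β i ∈ K := by
    have f5 : β i = (1 / 2 : ℂ) • ⁅⁅β i, ⁅β (i + 1), S i⁆⁆, ⁅β i, S i⁆⁆ := by
      rw [f4]
      module
    rw [f5]
    exact K.smul_mem _ (K.lie_mem hP hF)
  exact ⟨hS, hai, hbi⟩

/-- The root vectors generate.
PROOF. Downward induction on i: α (g-1) = cE (g-1), β (g-1) = -cF (g-1). Step: from α (i+1), β (i+1) in K: S i = -⁅α (i+1), cE i⁆: ⁅a2,⁅b2,S⁆⁆ = ⁅⁅a2,b2⁆,S⁆ (a2, S commute) = -S (Core.w2). 2 α i = -⁅S i, cE i⁆ = ⁅S,⁅S,b2⁆⁆ (Core.s1). P = ⁅β (i+1), cF i⁆ = ⁅b2,⁅b1,S⁆⁆ = ⁅b1,⁅b2,S⁆⁆ in K, and ⁅P, cF i⁆ = ⁅P,⁅b1,S⁆⁆ = ⁅b1,⁅P,S⁆⁆ (P commutes with b1: ⁅b1,⁅b1,⁅b2,S⁆⁆⁆ = ⁅b2,⁅b1,⁅b1,S⁆⁆⁆ = 0, Core.n1) = -⁅b1,⁅a1,b1⁆ + ⁅a2,b2⁆⁆ (Core.p) = -⁅b1,⁅a1,b1⁆⁆ = ⁅b1,⁅b1,a1⁆⁆ = 2 b1 (Core.l1). (i = g - 1 - d, induction on d.) -/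
theorem Pre.gen (h : Pre g α β S) (hg : 2 ≤ g) (K : LieSubalgebra ℂ L)
    (hE : ∀ k, k < g → cE g α β S k ∈ K) (hF : ∀ k, k < g → cF g α β S k ∈ K) :
    (∀ i, i < g → α i ∈ K) ∧ (∀ i, i < g → β i ∈ K) ∧ (∀ i, i + 1 < g → S i ∈ K) := by
  have key : ∀ d i, i + d + 1 = g → α i ∈ K ∧ β i ∈ K := by
    intro d
    induction d with
    | zero =>
      intro i hi
      have h1 : ¬ i + 1 < g := by omega
      have e1 : cE g α β S i = α i := by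
        unfold cE
        rw [if_neg h1]
      have e2 : cF g α β S i = -β i := by
        unfold cF
        rw [if_neg h1]
      refine ⟨?_, ?_⟩
      · rw [← e1]
        exact hE i (by omega)
      · rw [← neg_neg (β i), ← e2]
        exact neg_mem (hF i (by omega))
    | succ d ih =>
      intro i hi
      have h1 : i + 1 < g := by omega
      obtain ⟨ha, hb⟩ := ih (i + 1) (by omega)
      obtain ⟨hS, hai, hbi⟩ := CV5_step h h1 K (hE i (by omega)) (hF i (by omega)) ha hb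
      exact ⟨hai, hbi⟩
  refine ⟨fun i hi => (key (g - 1 - i) i (by omega)).1, fun i hi => (key (g - 1 - i) i (by omega)).2,
    fun i hi => ?_⟩
  obtain ⟨ha, hb⟩ := key (g - 1 - (i + 1)) (i + 1) (by omega)
  exact (CV5_step h hi K (hE i (by omega)) (hF i (by omega)) ha hb).1
-- END CV5

end

end Pool.Agent.EG80
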