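import Pool.Agent.EG80.Pair
import Pool.Agent.EG80.Chev
import Pool.Agent.LJ.Defs

set_option linter.all false

namespace Pool.Agent.EG80

attribute [local instance 100] LieRing.ofAssociativeRing

open Pool.Agent.HG13

/-- The relations of the Humphries generators `A i`, `B i` (`i < g`), `E i` (`i + 1 < g`) which are
used. -/
structure RU {G : Type*} [Group G] (g : ℕ) (A B E : ℕ → G) : Prop where
  q : ∀ i, i + 1 < g → Q5 (A i) (B i) (E i) (B (i + 1)) (A (i + 1))
  AA : ∀ i j, i < g → j < g → Commute (A i) (A j)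
  BB : ∀ i j, i < g → j < g → Commute (B i) (B j)
  AB : ∀ i j, i < g → j < g → i ≠ j → Commute (A i) (B j)
  EE : ∀ i j, i + 1 < g → j + 1 < g → Commute (E i) (E j)
  EA : ∀ i j, i + 1 < g → j < g → Commute (E i) (A j)
  EB : ∀ i j, i + 1 < g → j < g → j ≠ i → j ≠ i + 1 → Commute (E i) (B j)

-- MODULE RU1
/-- PROOF. All from PR: commutations TT, TB, BB; braids TBe (2i < 2i+1), TBs / aa, E_i with B_i: TBs (2i+1 < 2i+3), E_i with B_(i+1): TBe (s = 2i+1 < 2(i+1)+1), A_(i+1) with B_(i+1): TBe. c2: star with k = i, s = 2i, w = 2i+2, aa and T0: (A A A B)^3 = T (2i) (2i+2), then h1. c3: star with k = i, s = 2i, w = 2i+3: (A A E B)^3 = T (2i) (2i) * T (2i+2) (2i+3) * T (2i) (2i+3), T0 and h2. Apply σ (map_mul, map_pow). -/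
theorem ru_of {g n : ℕ} {G G' : Type*} [Group G] [Group G'] (S : Tw g n G) (P : LJ.PR S)
    (σ : G →* G') (h1 : ∀ i, i < g → σ (S.T (2 * i) (2 * i + 2)) = 1)
    (h2 : ∀ i, i + 1 < g → σ (S.T (2 * i) (2 * i + 3)) = σ (S.T (2 * i + 2) (2 * i + 3))) :
    RU g (fun i => σ (S.T (2 * i) (2 * i + 1))) (fun i => σ (S.B i))
      (fun i => σ (S.T (2 * i + 1) (2 * i + 3))) := by
  have C : ∀ {u v : G}, Commute u v → Commute (σ u) (σ v) := fun h => h.map σ
  have Bd : ∀ {u v : G}, Brd u v → σ u * σ v * σ u = σ v * σ u * σ v := by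
    intro u v h
    have h' : u * v * u = v * u * v := h
    rw [← map_mul, ← map_mul, h', map_mul, map_mul]
  have CT : ∀ s t s' t', s < t → t ≤ 2 * g + n → s' < t' → t' ≤ 2 * g + n →
      (t ≤ s' ∨ t' ≤ s ∨ (s ≤ s' ∧ t' ≤ t) ∨ (s' ≤ s ∧ t ≤ t')) →
      Commute (σ (S.T s t)) (σ (S.T s' t')) := by
    intro s t s' t' a1 a2 a3 a4 h
    rcases h with h | h | h | h
    · exact C (P.TT s t s' t' a1 a2 a3 a4 (Or.inl h))
    · exact (C (P.TT s' t' s t a3 a4 a1 a2 (Or.inl h))).symm
    · exact C (P.TT s t s' t' a1 a2 a3 a4 (Or.inr h))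
    · exact (C (P.TT s' t' s t a3 a4 a1 a2 (Or.inr h))).symm
  refine ⟨?_, ?_, ?_, ?_, ?_, ?_, ?_⟩
  · intro i hi
    have e1 : 2 * (i + 1) + 1 = 2 * i + 3 := by ring
    have e2 : 2 * (i + 1) = 2 * i + 2 := by ring
    refine ⟨?_, ?_, ?_, ?_, ?_, ?_, ?_, ?_, ?_, ?_, ?_, ?_⟩
    · exact Bd (P.TBe i (2 * i) (by omega) (by omega))
    · exact (Bd (P.TBs i (2 * i + 3) (by omega) (by omega) (by omega))).symm
    · have h := Bd (P.TBe (i + 1) (2 * i + 1) hi (by omega))
      rw [e1] at h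
      exact h
    · exact (Bd (P.TBe (i + 1) (2 * (i + 1)) hi (by omega))).symm
    · exact CT _ _ _ _ (by omega) (by omega) (by omega) (by omega) (by omega)
    · exact C (P.TB _ _ (i + 1) (by omega) (by omega) hi (by omega))
    · exact CT _ _ _ _ (by omega) (by omega) (by omega) (by omega) (by omega)
    · exact C (P.BB i (i + 1) (by omega) hi)
    · exact (C (P.TB (2 * (i + 1)) (2 * (i + 1) + 1) i (by omega) (by omega) (by omega)
        (by omega))).symm
    · exact CT _ _ _ _ (by omega) (by omega) (by omega) (by omega) (by omega)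
    · have h := congrArg σ (P.star i (2 * i) (2 * i + 3) (by omega) (by omega) (by omega)
        (by omega))
      rw [P.T0, one_mul, map_pow, map_mul, map_mul, map_mul, map_mul, h2 i hi] at h
      show (σ (S.T (2 * i) (2 * i + 1)) * σ (S.T (2 * i) (2 * i + 1)) *
        σ (S.T (2 * i + 1) (2 * i + 3)) * σ (S.B i)) ^ 3 =
        σ (S.T (2 * (i + 1)) (2 * (i + 1) + 1)) ^ 2
      rw [h, e1, e2, pow_two]
    · have h := congrArg σ (P.star i (2 * i) (2 * i + 2) (by omega) (by omega) (by omega)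
        (by omega))
      rw [P.T0, P.T0, one_mul, one_mul, ← P.aa i (by omega), map_pow, map_mul, map_mul, map_mul,
        h1 i (by omega)] at h
      exact h
  · intro i j hi hj
    rcases Nat.lt_trichotomy i j with h | h | h
    · exact CT _ _ _ _ (by omega) (by omega) (by omega) (by omega) (by omega)
    · subst h
      exact Commute.refl _
    · exact CT _ _ _ _ (by omega) (by omega) (by omega) (by omega) (by omega)
  · intro i j hi hj
    exact C (P.BB i j hi hj)
  · intro i j hi hj hij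
    exact C (P.TB _ _ j (by omega) (by omega) hj (by omega))
  · intro i j hi hj
    rcases Nat.lt_trichotomy i j with h | h | h
    · exact CT _ _ _ _ (by omega) (by omega) (by omega) (by omega) (by omega)
    · subst h
      exact Commute.refl _
    · exact CT _ _ _ _ (by omega) (by omega) (by omega) (by omega) (by omega)
  · intro i j hi hj
    exact CT _ _ _ _ (by omega) (by omega) (by omega) (by omega) (by omega)
  · intro i j hi hj h1' h2'
    exact C (P.TB _ _ j (by omega) (by omega) hj (by omega))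
-- END RU1

-- MODULE RU2
/-- PROOF. Commutations: Lg.comm2 (as Commute of units in R: congrArg Units.val), ⁅u,v⁆ = u v - v u = 0; for S i = α i + α (i+1) - ε i expand. core: pair_core. -/
theorem RU.pre {R : Type*} [Ring R] [Algebra ℂ R] {g : ℕ} {A B E : ℕ → Rˣ} (h : RU g A B E)
    (α β ε : ℕ → R) (lA : ∀ i, i < g → Lg (α i) (A i : R)) (lB : ∀ i, i < g → Lg (β i) (B i : R))
    (lE : ∀ i, i + 1 < g → Lg (ε i) (E i : R)) :
    Pre g α β (fun i => α i + α (i + 1) - ε i) := by
  have U : ∀ {a b : R} {u v : Rˣ}, Lg a (u : R) → Lg b (v : R) → Commute u v → Commute a b :=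
    fun h1 h2 hc => h1.comm2 h2 hc.units_val
  have caa : ∀ i j, i < g → j < g → Commute (α i) (α j) := fun i j hi hj =>
    U (lA i hi) (lA j hj) (h.AA i j hi hj)
  have cbb : ∀ i j, i < g → j < g → Commute (β i) (β j) := fun i j hi hj =>
    U (lB i hi) (lB j hj) (h.BB i j hi hj)
  have cab : ∀ i j, i < g → j < g → i ≠ j → Commute (α i) (β j) := fun i j hi hj hij =>
    U (lA i hi) (lB j hj) (h.AB i j hi hj hij)
  have cee : ∀ i j, i + 1 < g → j + 1 < g → Commute (ε i) (ε j) := fun i j hi hj =>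
    U (lE i hi) (lE j hj) (h.EE i j hi hj)
  have cea : ∀ i j, i + 1 < g → j < g → Commute (ε i) (α j) := fun i j hi hj =>
    U (lE i hi) (lA j hj) (h.EA i j hi hj)
  have ceb : ∀ i j, i + 1 < g → j < g → j ≠ i → j ≠ i + 1 → Commute (ε i) (β j) :=
    fun i j hi hj h1 h2 => U (lE i hi) (lB j hj) (h.EB i j hi hj h1 h2)
  have csa : ∀ i j, i + 1 < g → j < g → Commute (α i + α (i + 1) - ε i) (α j) :=
    fun i j hi hj => ((caa i j (by omega) hj).add_left (caa (i + 1) j hi hj)).sub_left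
      (cea i j hi hj)
  refine ⟨?_, ?_, ?_, ?_, ?_, ?_, ?_⟩
  · intro i j hi hj
    exact commute_iff_lie_eq.1 (caa i j hi hj)
  · intro i j hi hj
    exact commute_iff_lie_eq.1 (cbb i j hi hj)
  · intro i j hi hj hij
    exact commute_iff_lie_eq.1 (cab i j hi hj hij)
  · intro i j hi hj
    refine commute_iff_lie_eq.1 ?_
    exact ((csa i j hi (by omega)).add_right (csa i (j + 1) hi hj)).sub_right
      (((cea j i hj (by omega)).symm.add_left (cea j (i + 1) hj hi).symm).sub_left
        (cee i j hi hj))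
  · intro i j hi hj
    exact commute_iff_lie_eq.1 (csa i j hi hj)
  · intro i j hi hj h1 h2
    refine commute_iff_lie_eq.1 ?_
    exact ((cab i j (by omega) hj (fun e => h1 e.symm)).add_left
      (cab (i + 1) j hi hj (fun e => h2 e.symm))).sub_left (ceb i j hi hj h1 h2)
  · intro i hi
    exact pair_core (h.q i hi) (lA i (by omega)) (lB i (by omega)) (lE i hi) (lB (i + 1) hi)
      (lA (i + 1) hi)
-- END RU2

-- MODULE RU3
private theorem RU3_conj {R : Type*} [Ring R] {U U' N : R} (h : U' * U = 1) (h' : U * U' = 1)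
    (hN : IsNilpotent N) : IsNilpotent (U * N * U') := by
  obtain ⟨k, hk⟩ := hN
  refine ⟨k, ?_⟩
  have : ∀ k : ℕ, (U * N * U') ^ k = U * N ^ k * U' := by
    intro k
    induction k with
    | zero => rw [pow_zero, pow_zero, mul_one, h']
    | succ k ih =>
      rw [pow_succ, ih, pow_succ]
      calc U * N ^ k * U' * (U * N * U') = U * N ^ k * (U' * U) * N * U' := by
            simp only [mul_assoc]
        _ = U * (N ^ k * N) * U' := by rw [h, mul_one]; simp only [mul_assoc]
  rw [this, hk, mul_zero, zero_mul]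

private theorem RU3_br {G : Type*} [Group G] {V : Type*} [AddCommGroup V] [Module ℂ V]
    (ρ : G →* Module.End ℂ V) {x y : G} (hxy : Brd x y) (h : IsNilpotent (ρ x - 1)) :
    IsNilpotent (ρ y - 1) := by
  have hb : x * y * x = y * x * y := hxy
  have e : y = (x * y) * x * (x * y)⁻¹ := by
    rw [hb]
    group
  have e1 : ρ (x * y)⁻¹ * ρ (x * y) = 1 := by rw [← map_mul, inv_mul_cancel, map_one]
  have e2 : ρ (x * y) * ρ (x * y)⁻¹ = 1 := by rw [← map_mul, mul_inv_cancel, map_one]
  have e3 : ρ y - 1 = ρ (x * y) * (ρ x - 1) * ρ (x * y)⁻¹ := by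
    rw [mul_sub, sub_mul, mul_one, e2, ← map_mul, ← map_mul, ← e]
  rw [e3]
  exact RU3_conj e1 e2 h

private theorem RU3_br' {G : Type*} [Group G] {V : Type*} [AddCommGroup V] [Module ℂ V]
    (ρ : G →* Module.End ℂ V) {x y : G} (hxy : Brd x y) (h : IsNilpotent (ρ y - 1)) :
    IsNilpotent (ρ x - 1) :=
  RU3_br ρ (x := y) (y := x) (Eq.symm hxy) h

/-- Unipotence spreads along braid relations.
PROOF. Brd x y gives y = (x y) x (x y)⁻¹, so ρ y - 1 = ρ (x y) (ρ x - 1) ρ (x y)⁻¹ is nilpotent if ρ x - 1 is (and conversely, by symmetry). Induction on i along A_0 - B_0 - E_0 - B_1 - A_1 - E_1 ... (E_i braids with B_i and B_(i+1), A_i with B_i): TBe, TBs. -/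
theorem unip_all {g n : ℕ} {G : Type*} [Group G] (S : Tw g n G) (P : LJ.PR S) {V : Type*}
    [AddCommGroup V] [Module ℂ V] (ρ : G →* Module.End ℂ V)
    (h : IsNilpotent (ρ (S.T 0 1) - 1)) :
    (∀ i, i < g → IsNilpotent (ρ (S.T (2 * i) (2 * i + 1)) - 1)) ∧
    (∀ i, i < g → IsNilpotent (ρ (S.B i) - 1)) ∧
    (∀ i, i + 1 < g → IsNilpotent (ρ (S.T (2 * i + 1) (2 * i + 3)) - 1)) := by
  have key : ∀ i, i < g → IsNilpotent (ρ (S.T (2 * i) (2 * i + 1)) - 1) ∧
      IsNilpotent (ρ (S.B i) - 1) := by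
    intro i
    induction i with
    | zero =>
      intro hg
      have h0 : IsNilpotent (ρ (S.T (2 * 0) (2 * 0 + 1)) - 1) := h
      exact ⟨h0, RU3_br ρ (P.TBe 0 (2 * 0) hg (by omega)) h0⟩
    | succ i ih =>
      intro hi
      obtain ⟨h1, h2⟩ := ih (by omega)
      have h3 := RU3_br' ρ (P.TBs i (2 * i + 3) (by omega) (by omega) (by omega)) h2
      have h4 : IsNilpotent (ρ (S.T (2 * i + 1) (2 * (i + 1) + 1)) - 1) := h3
      have h5 := RU3_br ρ (P.TBe (i + 1) (2 * i + 1) hi (by omega)) h4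
      exact ⟨RU3_br' ρ (P.TBe (i + 1) (2 * (i + 1)) hi (by omega)) h5, h5⟩
  refine ⟨fun i hi => (key i hi).1, fun i hi => (key i hi).2, fun i hi => ?_⟩
  exact RU3_br' ρ (P.TBs i (2 * i + 3) (by omega) (by omega) (by omega)) (key i (by omega)).2
-- END RU3

end Pool.Agent.EG80
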