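import Pool.Agent.HG13.Stmt
import Pool.Agent.QR80.Ex

set_option linter.all false

/-!
# Quotients of subspaces of the multilinear forms on the homology of a surface
-/

namespace Pool.Agent.EG80

open Pool.Agent.HG13 Pool.Agent.QR80

variable {g n : ℕ}

/-- The first homology of the closed surface of genus `g`: coordinate `2i` is the coefficient of
`x_i`, coordinate `2i+1` that of `y_i`. -/
abbrev Hg (g : ℕ) : Type := Fin (2 * g) → ℂ

/-- The multilinear forms on `Hg g` with index set `ι`; for `ι = Fin j` the `j`-linear forms. -/
abbrev Fm (g : ℕ) (ι : Type) : Type := MultilinearMap ℂ (fun _ : ι => Hg g) ℂ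

/-- Composition of a form with the endomorphism `M` in all arguments. -/
noncomputable def ac (ι : Type) (M : Module.End ℂ (Hg g)) : Module.End ℂ (Fm g ι) :=
  MultilinearMap.compLinearMapₗ (fun _ => M)

/-- The action of `φ` on the homology of the closed surface: the basis vector number `c` goes to the
vector of the exponent sums (of the letters `x_i, y_i`) of the image of the letter number `c`. -/
noncomputable def hom1 (φ : MulAut (Fr g n)) : Module.End ℂ (Hg g) where
  toFun v := ∑ c : Fin (2 * g), v c • ex (φ (gen (c : ℕ)))
  map_add' v w := by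
    simp [add_smul, Finset.sum_add_distrib]
  map_smul' r v := by
    simp [mul_smul, Finset.smul_sum]

/-- The space of `j`-linear forms on `Hg g`. -/
def FJ (g j : ℕ) : Type := Fm g (Fin j)

noncomputable instance (g j : ℕ) : AddCommGroup (FJ g j) :=
  inferInstanceAs (AddCommGroup (Fm g (Fin j)))

noncomputable instance (g j : ℕ) : Module ℂ (FJ g j) :=
  inferInstanceAs (Module ℂ (Fm g (Fin j)))

/-- The action of `φ` in `Γ` on the `j`-linear forms: composition with the action of `φ⁻¹` in all
arguments. -/
noncomputable def acF (j : ℕ) {Γ : Subgroup (MulAut (Fr g n))} (φ : Γ) :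
    Module.End ℂ (FJ g j) :=
  ac (Fin j) (hom1 ((φ⁻¹ : Γ) : MulAut (Fr g n)))

/-- The subspace `W` of `V` is a quotient, as a representation of `Γ`, of a subrepresentation of the
space of `j`-linear forms on the homology: there are a subspace `E` of the `j`-linear forms and a
linear map `π` to `V` which maps `E` onto `W` such that, for `φ` in `Γ` and `f` in `E`, the form
`φ f` lies in `E` and `π (φ f) = ρ φ (π f)`. -/
def Quo {Γ : Subgroup (MulAut (Fr g n))} {V : Type*} [AddCommGroup V] [Module ℂ V]
    (ρ : Representation ℂ (ModG Γ) V) (j : ℕ) (W : Submodule ℂ V) : Prop :=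
  ∃ (E : Submodule ℂ (FJ g j)) (π : FJ g j →ₗ[ℂ] V), E.map π = W ∧
    ∀ φ : Γ, ∀ f ∈ E, acF j φ f ∈ E ∧ π (acF j φ f) = ρ (incl Γ φ) (π f)

/-- `F` acts trivially, and `V` is the sum of finitely many subspaces which are quotients of
subrepresentations of spaces of multilinear forms on the homology of the closed surface. So `ρ` is a
quotient of a subrepresentation of the direct sum of these spaces of forms. -/
def Geo {Γ : Subgroup (MulAut (Fr g n))} {V : Type*} [AddCommGroup V] [Module ℂ V]
    (ρ : Representation ℂ (ModG Γ) V) : Prop :=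
  TrivF ρ ∧ ∃ (N : ℕ) (j : Fin N → ℕ) (W : Fin N → Submodule ℂ V),
    (∀ i, Quo ρ (j i) (W i)) ∧ ⨆ i, W i = ⊤

end Pool.Agent.EG80
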