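import Pool.Agent.EG80.Hw

set_option linter.all false

namespace Pool.Agent.EG80

attribute [local instance 100] LieRing.ofAssociativeRing

section

variable {g : ℕ} {V : Type*} [AddCommGroup V] [Module ℂ V] {T : Type*} [AddCommGroup T]
  [Module ℂ T]

/-- No proper subspace is stable under the operators. -/
def IrrOps (g : ℕ) (α β S : ℕ → Module.End ℂ V) : Prop :=
  Nontrivial V ∧ ∀ W : Submodule ℂ V, (∀ i, i < g → ∀ w ∈ W, α i w ∈ W) →
    (∀ i, i < g → ∀ w ∈ W, β i w ∈ W) → (∀ i, i + 1 < g → ∀ w ∈ W, S i w ∈ W) → W = ⊥ ∨ W = ⊤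

/-- The operators `X ⊕ X'` on `V × T`. -/
def pm (α : ℕ → Module.End ℂ V) (α' : ℕ → Module.End ℂ T) (i : ℕ) : Module.End ℂ (V × T) :=
  (α i).prodMap (α' i)

variable {α β S : ℕ → Module.End ℂ V} {α' β' S' : ℕ → Module.End ℂ T}

-- MODULE DA4
private theorem DA4_lie (X Y : Module.End ℂ V) (X' Y' : Module.End ℂ T) :
    ⁅(X.prodMap X' : Module.End ℂ (V × T)), Y.prodMap Y'⁆ = (⁅X, Y⁆ : Module.End ℂ V).prodMap
      (⁅X', Y'⁆ : Module.End ℂ T) := by
  refine LinearMap.ext fun d => ?_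
  rw [LieRing.of_associative_ring_bracket, LieRing.of_associative_ring_bracket,
    LieRing.of_associative_ring_bracket]
  rfl

/-- PROOF. ⁅X ⊕ X', Y ⊕ Y'⁆ = ⁅X,Y⁆ ⊕ ⁅X',Y'⁆ (extensionality); -(X ⊕ X') = -X ⊕ -X'; unfold cE, split_ifs. -/
theorem pm_cE (k : ℕ) : cE g (pm α α') (pm β β') (pm S S') k =
    (cE g α β S k).prodMap (cE g α' β' S' k) := by
  unfold cE pm
  split_ifs
  · rw [DA4_lie]
  · rfl

theorem pm_cH (i : ℕ) : cH (pm α α') (pm β β') i = (cH α β i).prodMap (cH α' β' i) := by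
  unfold cH pm
  rw [DA4_lie]
-- END DA4

-- MODULE DA5
/-- PROOF. D = Dw g (pm α α') (pm β β') (pm S S') (v, t), with pm_cE, pm_cH: (v,t) is killed by all cE and has weight μ; Dw_stab. (i) D.comap (LinearMap.inl ℂ V T) = {w | (w, 0) ∈ D} is stable under α, β, S (α' 0 = 0), so ⊥ or ⊤; ⊤ is impossible: x = (v, 0) would be in D, cH x = μ x, so x = c (v, t) by Dw_top (Pre.cs): c t = 0, c = 0, v = 0. (ii) D.map (LinearMap.fst ℂ V T) is stable and contains v ≠ 0 (word []), so it is ⊤. -/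
theorem graph (hg : 2 ≤ g) (hp : Pre g (pm α α') (pm β β') (pm S S')) (hirr : IrrOps g α β S)
    (μ : ℕ → ℂ) (v : V) (hv : v ≠ 0) (hv1 : ∀ i, i < g → cH α β i v = μ i • v)
    (hv2 : ∀ k, k < g → cE g α β S k v = 0) (t : T) (ht : t ≠ 0)
    (ht1 : ∀ i, i < g → cH α' β' i t = μ i • t) (ht2 : ∀ k, k < g → cE g α' β' S' k t = 0) :
    ∃ D : Submodule ℂ (V × T), (∀ i, i < g → ∀ d ∈ D, pm α α' i d ∈ D) ∧
      (∀ i, i < g → ∀ d ∈ D, pm β β' i d ∈ D) ∧ (∀ i, i + 1 < g → ∀ d ∈ D, pm S S' i d ∈ D) ∧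
      (∀ w, (w, (0 : T)) ∈ D → w = 0) ∧ ∀ w, ∃ u, (w, u) ∈ D := by
  have hw : ∀ i, i < g → cH (pm α α') (pm β β') i (v, t) = μ i • (v, t) := by
    intro i hi
    rw [pm_cH, LinearMap.prodMap_apply, hv1 i hi, ht1 i hi]
    rfl
  have he : ∀ k, k < g → cE g (pm α α') (pm β β') (pm S S') k (v, t) = 0 := by
    intro k hk
    rw [pm_cE, LinearMap.prodMap_apply, hv2 k hk, ht2 k hk]
    rfl
  obtain ⟨h1, h2, h3⟩ := Dw_stab hp hg hw he
  have hvt : (v, t) ∈ Dw g (pm α α') (pm β β') (pm S S') (v, t) :=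
    Submodule.subset_span ⟨[], by simp, rfl⟩
  refine ⟨Dw g (pm α α') (pm β β') (pm S S') (v, t), h1, h2, h3, ?_, ?_⟩
  · have hW := hirr.2 ((Dw g (pm α α') (pm β β') (pm S S') (v, t)).comap (LinearMap.inl ℂ V T))
      (fun i hi w hw' => by
        have h := h1 i hi _ (Submodule.mem_comap.1 hw')
        rw [Submodule.mem_comap]
        simpa [pm] using h)
      (fun i hi w hw' => by
        have h := h2 i hi _ (Submodule.mem_comap.1 hw')
        rw [Submodule.mem_comap]
        simpa [pm] using h)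
      (fun i hi w hw' => by
        have h := h3 i hi _ (Submodule.mem_comap.1 hw')
        rw [Submodule.mem_comap]
        simpa [pm] using h)
    rcases hW with hW | hW
    · intro w hw'
      have h : w ∈ (Dw g (pm α α') (pm β β') (pm S S') (v, t)).comap (LinearMap.inl ℂ V T) := by
        rw [Submodule.mem_comap]
        exact hw'
      rw [hW] at h
      exact (Submodule.mem_bot ℂ).1 h
    · exfalso
      have h : v ∈ (Dw g (pm α α') (pm β β') (pm S S') (v, t)).comap (LinearMap.inl ℂ V T) := by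
        rw [hW]
        exact Submodule.mem_top
      have h' : (v, (0 : T)) ∈ Dw g (pm α α') (pm β β') (pm S S') (v, t) :=
        Submodule.mem_comap.1 h
      have hx' : ∀ i, i < g → cH (pm α α') (pm β β') i (v, (0 : T)) = μ i • (v, (0 : T)) := by
        intro i hi
        rw [pm_cH, LinearMap.prodMap_apply, hv1 i hi, map_zero, Prod.smul_mk, smul_zero]
      obtain ⟨c, hc⟩ := Dw_top (hp.cs hg) hw h' hx'
      have e1 : v = c • v := congrArg Prod.fst hc
      have e2 : (0 : T) = c • t := congrArg Prod.snd hc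
      have hc0 : c = 0 := by
        rcases smul_eq_zero.1 e2.symm with h0 | h0
        · exact h0
        · exact absurd h0 ht
      rw [hc0, zero_smul] at e1
      exact hv e1
  · have hW := hirr.2 ((Dw g (pm α α') (pm β β') (pm S S') (v, t)).map (LinearMap.fst ℂ V T))
      (fun i hi w hw' => by
        obtain ⟨d, hd, rfl⟩ := Submodule.mem_map.1 hw'
        exact Submodule.mem_map.2 ⟨_, h1 i hi d hd, rfl⟩)
      (fun i hi w hw' => by
        obtain ⟨d, hd, rfl⟩ := Submodule.mem_map.1 hw'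
        exact Submodule.mem_map.2 ⟨_, h2 i hi d hd, rfl⟩)
      (fun i hi w hw' => by
        obtain ⟨d, hd, rfl⟩ := Submodule.mem_map.1 hw'
        exact Submodule.mem_map.2 ⟨_, h3 i hi d hd, rfl⟩)
    have hv' : v ∈ (Dw g (pm α α') (pm β β') (pm S S') (v, t)).map (LinearMap.fst ℂ V T) :=
      Submodule.mem_map.2 ⟨_, hvt, rfl⟩
    rcases hW with hW | hW
    · exfalso
      rw [hW] at hv'
      exact hv ((Submodule.mem_bot ℂ).1 hv')
    · intro w
      have h : w ∈ (Dw g (pm α α') (pm β β') (pm S S') (v, t)).map (LinearMap.fst ℂ V T) := by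
        rw [hW]
        exact Submodule.mem_top
      obtain ⟨d, hd, hdw⟩ := Submodule.mem_map.1 h
      refine ⟨d.2, ?_⟩
      have : (w, d.2) = d := by rw [← hdw]; rfl
      rw [this]
      exact hd
-- END DA5

end

end Pool.Agent.EG80
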