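import Pool.Agent.EG80.Forms
import Pool.Agent.QR80.Hm

set_option linter.all false

namespace Pool.Agent.EG80

open Pool.Agent.HG13 Pool.Agent.QR80

variable {g n : ℕ}

-- MODULE HM1
/-- PROOF. ex is a homomorphism to the additive group (as in QR80.ex_sum: ex (w w') = ex w + ex w', ex w⁻¹ = -ex w). -/
theorem ex_mul (w w' : Fr g n) : ex (w * w') = ex w + ex w' := by
  unfold ex
  rw [map_mul]
  rfl

theorem ex_inv (w : Fr g n) : ex w⁻¹ = -ex w := by
  unfold ex
  rw [map_inv]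
  rfl

private theorem HM1_one : ex (1 : Fr g n) = 0 := by
  unfold ex
  rw [map_one]
  rfl

/-- PROOF. ex of a letter: Pi.single. -/
theorem ex_gen' (c : ℕ) :
    (ex (gen c : Fr g n)) = fun d : Fin (2 * g) => if (d : ℕ) = c then (1 : ℂ) else 0 := by
  by_cases hc : c < 2 * g + n
  · rw [gen_lt hc]
    unfold ex
    rw [FreeGroup.lift_apply_of]
    rfl
  · rw [gen_ge (by omega), HM1_one]
    funext d
    rw [if_neg (by have := d.2; omega), Pi.zero_apply]

private theorem HM1_ev (c : ℕ) (d : Fin (2 * g)) :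
    ex (gen c : Fr g n) d = if (d : ℕ) = c then (1 : ℂ) else 0 := by
  rw [ex_gen']

private theorem HM1_apply (φ : MulAut (Fr g n)) (v : Hg g) :
    hom1 φ v = ∑ c : Fin (2 * g), v c • ex (φ (gen (c : ℕ))) := rfl

private theorem HM1_hg (f : ℕ → Hg g) (c : ℕ) :
    ∑ d : Fin (2 * g), (ex (gen c : Fr g n)) d • f (d : ℕ) = if c < 2 * g then f c else 0 := by
  by_cases hc : c < 2 * g
  · rw [if_pos hc, Finset.sum_eq_single (⟨c, hc⟩ : Fin (2 * g))]
    · rw [HM1_ev, if_pos rfl, one_smul]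
    · intro d _ hd
      rw [HM1_ev, if_neg (fun h => hd (Fin.ext h)), zero_smul]
    · intro h
      exact absurd (Finset.mem_univ _) h
  · rw [if_neg hc]
    apply Finset.sum_eq_zero
    intro d _
    rw [HM1_ev, if_neg (by have := d.2; omega), zero_smul]

/-- PROOF. Both sides are additive in w (ex_mul, linearity of hom1); on letters c < 2g: the definition; c ≥ 2g: hφ and ex (gen c) = 0. FreeGroup.induction_on. -/
theorem hom1_ex (φ : MulAut (Fr g n))
    (hφ : ∀ c, 2 * g ≤ c → ex (φ (gen c : Fr g n)) = 0) (w : Fr g n) :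
    ex (φ w) = hom1 φ (ex w) := by
  induction w using FreeGroup.induction_on with
  | C1 => rw [map_one, HM1_one, map_zero]
  | of c =>
    have h1 : (FreeGroup.of c : Fr g n) = gen (c : ℕ) := by
      rw [gen_lt c.2]
    change ex (φ (FreeGroup.of c)) = hom1 φ (ex (FreeGroup.of c))
    rw [h1, HM1_apply, HM1_hg (fun d => ex (φ (gen d : Fr g n)))]
    by_cases hc : (c : ℕ) < 2 * g
    · rw [if_pos hc]
    · rw [if_neg hc, hφ _ (by omega)]
  | inv_of c hc => rw [map_inv, ex_inv, ex_inv, map_neg, hc]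
  | mul x y hx hy => rw [map_mul, ex_mul, ex_mul, map_add, hx, hy]
-- END HM1

-- MODULE HM2
private theorem HM2_zero (c : ℕ) (hc : 2 * g ≤ c) : ex (gen c : Fr g n) = 0 := by
  funext d
  rw [HM1_ev, if_neg (by have := d.2; omega), Pi.zero_apply]

private theorem HM2_cj (u : ℕ → Fr g n) (c : ℕ) (hc : 2 * g ≤ c) :
    ex (cj u (gen c) : Fr g n) = 0 := by
  rw [cj_gen u (by omega), ex_mul, ex_mul, ex_inv, HM2_zero c hc]
  abel

/-- PROOF. Subgroup.closure_induction for: ∀ c ≥ 2g, ex (φ (gen c)) = 0 and the same for φ⁻¹. TP s t (gen c) and its inverse are conjugates of gen c for c ≥ 2g (TP_apply, cj_gen; the inverse is cj (ind s t (Alp s t)⁻¹): MulEquiv symm of toMulEquiv), Bt i fixes gen c (bt_gen_ne; the inverse is bt i 1). Products: ex (φ ψ (gen c)) = hom1 φ (ex (ψ (gen c))) = 0 (hom1_ex). -/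
theorem ex_z (φ : MulAut (Fr g n)) (hφ : φ ∈ Subgroup.closure (twists g n)) :
    ∀ c, 2 * g ≤ c → ex (φ (gen c : Fr g n)) = 0 := by
  have key : (∀ c, 2 * g ≤ c → ex (φ (gen c : Fr g n)) = 0) ∧
      (∀ c, 2 * g ≤ c → ex (φ⁻¹ (gen c : Fr g n)) = 0) := by
    induction hφ using Subgroup.closure_induction with
    | mem x hx =>
      rcases hx with ⟨i, hi, rfl⟩ | ⟨s, t, h1, h2, rfl⟩
      · refine ⟨fun c hc => ?_, fun c hc => ?_⟩
        · rw [Bt_ne i c (by omega), HM2_zero c hc]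
        · have h3 : (Bt i : MulAut (Fr g n))⁻¹ (gen c) = bt i 1 (gen c) := rfl
          rw [h3, bt_gen_ne i 1 c (by omega), HM2_zero c hc]
      · refine ⟨fun c hc => ?_, fun c hc => ?_⟩
        · rw [TP_apply]
          exact HM2_cj _ c hc
        · have h3 : (TP s t : MulAut (Fr g n))⁻¹ (gen c) = cj (ind s t (Alp s t)⁻¹) (gen c) := rfl
          rw [h3]
          exact HM2_cj _ c hc
    | one =>
      refine ⟨fun c hc => ?_, fun c hc => ?_⟩
      · rw [MulAut.one_apply, HM2_zero c hc]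
      · rw [inv_one, MulAut.one_apply, HM2_zero c hc]
    | mul x y hx hy ihx ihy =>
      refine ⟨fun c hc => ?_, fun c hc => ?_⟩
      · rw [MulAut.mul_apply, hom1_ex x ihx.1, ihy.1 c hc, map_zero]
      · rw [mul_inv_rev, MulAut.mul_apply, hom1_ex y⁻¹ ihy.2, ihx.2 c hc, map_zero]
    | inv x hx ih =>
      refine ⟨ih.2, ?_⟩
      rw [inv_inv]
      exact ih.1
  exact key.1

/-- PROOF. Extensionality on v = Σ v c • ex (gen c); hom1 (φ ψ) (ex (gen c)) = ex (φ (ψ (gen c))) = hom1 φ (hom1 ψ (ex (gen c))) by hom1_ex and ex_z. -/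
theorem hom1_mul (φ ψ : MulAut (Fr g n)) (hφ : φ ∈ Subgroup.closure (twists g n)) :
    hom1 (φ * ψ) = hom1 φ * hom1 ψ := by
  refine LinearMap.ext fun v => ?_
  rw [Module.End.mul_apply, HM1_apply (φ * ψ), HM1_apply ψ, map_sum]
  refine Finset.sum_congr rfl fun c _ => ?_
  rw [map_smul, MulAut.mul_apply, hom1_ex φ (ex_z φ hφ)]

theorem hom1_one : (hom1 (1 : MulAut (Fr g n))) = 1 := by
  refine LinearMap.ext fun v => ?_
  rw [HM1_apply, Module.End.one_apply]
  funext d
  rw [Finset.sum_apply, Finset.sum_eq_single d]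
  · rw [MulAut.one_apply, Pi.smul_apply, HM1_ev, if_pos rfl, smul_eq_mul, mul_one]
  · intro c _ hc
    rw [MulAut.one_apply, Pi.smul_apply, HM1_ev, if_neg (fun h => hc (Fin.ext h).symm), smul_zero]
  · intro h
    exact absurd (Finset.mem_univ _) h
-- END HM2

-- MODULE HM3
private theorem HM3_even (i : ℕ) : ex (alp (2 * i) : Fr g n) = ex (gen (2 * i) : Fr g n) := by
  rw [alp_even _ (by omega)]

private theorem HM3_odd (i : ℕ) (hi : i < g) :
    ex (alp (2 * i + 1) : Fr g n) = -ex (gen (2 * i) : Fr g n) := by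
  rw [alp_odd i hi, ex_mul, ex_mul, ex_inv, ex_inv]
  abel

/-- The class of the loop around the feet `s, ..., t-1` when it is a multiple of one `x_j` or zero.
PROOF. alp (2i) = gen (2i), alp (2i+1) has class -x_i (alp_odd; ex_mul, ex_inv), alp c = gen c has class 0 for c ≥ 2g; Alp_cons, Alp_one. Induction on k for the last. -/
theorem ex_Alp :
    (∀ i, i < g → ex (Alp (2 * i) (2 * i + 1) : Fr g n) = ex (gen (2 * i) : Fr g n)) ∧
    (∀ i, i + 1 < g → ex (Alp (2 * i + 1) (2 * i + 3) : Fr g n) =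
      ex (gen (2 * (i + 1)) : Fr g n) - ex (gen (2 * i) : Fr g n)) ∧
    (∀ i, i < g → ex (Alp (2 * i) (2 * i + 2) : Fr g n) = 0) ∧
    (∀ i, i + 1 < g → ex (Alp (2 * i) (2 * i + 3) : Fr g n) = ex (gen (2 * (i + 1)) : Fr g n)) ∧
    (∀ k, 0 < g → k ≤ n → ex (Alp (2 * g - 1) (2 * g + k) : Fr g n) =
      -ex (gen (2 * (g - 1)) : Fr g n)) := by
  have h2 : ∀ i, i + 1 < g → ex (Alp (2 * i + 1) (2 * i + 3) : Fr g n) =
      ex (gen (2 * (i + 1)) : Fr g n) - ex (gen (2 * i) : Fr g n) := by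
    intro i hi
    have h1 : (Alp (2 * i + 1 + 1) (2 * i + 3) : Fr g n) = alp (2 * (i + 1)) := Alp_one _
    rw [Alp_cons _ _ (by omega), ex_mul, HM3_odd i (by omega), h1, HM3_even]
    abel
  refine ⟨fun i hi => ?_, h2, fun i hi => ?_, fun i hi => ?_, fun k hg hk => ?_⟩
  · rw [Alp_one, HM3_even]
  · have h1 : (Alp (2 * i + 1) (2 * i + 2) : Fr g n) = alp (2 * i + 1) := Alp_one _
    rw [Alp_cons _ _ (by omega), ex_mul, HM3_even, h1, HM3_odd i hi]
    abel
  · rw [Alp_cons _ _ (by omega), ex_mul, HM3_even, h2 i hi]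
    abel
  · induction k with
    | zero =>
      have h3 : (Alp (2 * g - 1) (2 * g + 0) : Fr g n) = alp (2 * (g - 1) + 1) := by
        have h1 : 2 * g - 1 = 2 * (g - 1) + 1 := by omega
        have h2 : 2 * g + 0 = 2 * (g - 1) + 1 + 1 := by omega
        rw [h1, h2, Alp_one]
      rw [h3, HM3_odd (g - 1) (by omega)]
    | succ k ih =>
      rw [← add_assoc, Alp_snoc _ _ (by omega), ex_mul, ih (by omega),
        alp_even _ (by omega), HM2_zero (2 * g + k) (by omega), add_zero]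
-- END HM3

-- MODULE HM4
private theorem HM4_eq (φ : MulAut (Fr g n)) (M : Module.End ℂ (Hg g))
    (h : ∀ c, c < 2 * g → ex (φ (gen c : Fr g n)) = M (ex (gen c : Fr g n))) : hom1 φ = M := by
  refine LinearMap.ext fun v => ?_
  have h1 : v = ∑ c : Fin (2 * g), v c • ex (gen (c : ℕ) : Fr g n) := by
    have h2 := congrArg (fun A : Module.End ℂ (Hg g) => A v) (hom1_one (g := g) (n := n))
    exact h2.symm
  rw [HM1_apply]
  conv_rhs => rw [h1, map_sum]
  refine Finset.sum_congr rfl fun c _ => ?_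
  rw [map_smul, h c c.2]

private theorem HM4_ind (s t c : ℕ) (w : Fr g n) :
    ex (ind s t w c) = if s ≤ c ∧ c < t then ex w else 0 := by
  unfold ind
  by_cases h : s ≤ c ∧ c < t
  · rw [if_pos h, if_pos h]
  · rw [if_neg h, if_neg h, HM1_one]

private theorem HM4_even (s t c : ℕ) (hc : c % 2 = 0) :
    ex (TP s t (gen c : Fr g n)) = ex (gen c : Fr g n) := by
  rw [TP_apply, cj_gen _ (by omega), ex_mul, ex_mul, ex_inv]
  abel

private theorem HM4_odd (s t c : ℕ) (hc : c < 2 * g) (h : c % 2 = 1) :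
    ex (TP s t (gen c : Fr g n)) = ex (gen c : Fr g n) +
      ((if s ≤ c - 1 ∧ c - 1 < t then ex (Alp s t : Fr g n) else 0) -
        (if s ≤ c ∧ c < t then ex (Alp s t : Fr g n) else 0)) := by
  rw [TP_apply, cj_gen_odd _ hc h, ex_mul, ex_mul, ex_inv, HM4_ind, HM4_ind]
  abel

private theorem HM4_aH (i c : ℕ) (hi : i < g) :
    aH g i (ex (gen c : Fr g n)) = if c = 2 * i + 1 then ex (gen (2 * i) : Fr g n) else 0 := by
  have h1 : aH g i (ex (gen c : Fr g n)) = fun d : Fin (2 * g) =>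
    if (d : ℕ) = 2 * i then (if h : 2 * i + 1 < 2 * g then
      (ex (gen c : Fr g n)) ⟨2 * i + 1, h⟩ else 0) else 0 := rfl
  rw [h1]
  funext d
  rw [dif_pos (by omega), HM1_ev]
  change (if (d : ℕ) = 2 * i then (if 2 * i + 1 = c then (1 : ℂ) else 0) else 0) = _
  by_cases h : c = 2 * i + 1
  · rw [if_pos h, HM1_ev, if_pos h.symm]
  · rw [if_neg h, if_neg (fun h' => h h'.symm : ¬ 2 * i + 1 = c), ite_self, Pi.zero_apply]

private theorem HM4_sH (i c : ℕ) (hi : i + 1 < g) :
    sH g i (ex (gen c : Fr g n)) = (if c = 2 * i + 1 then ex (gen (2 * (i + 1)) : Fr g n) else 0)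
      + (if c = 2 * (i + 1) + 1 then ex (gen (2 * i) : Fr g n) else 0) := by
  have h1 : sH g i (ex (gen c : Fr g n)) = fun d : Fin (2 * g) =>
    if (d : ℕ) = 2 * i + 2 then (if h : 2 * i + 1 < 2 * g then
      (ex (gen c : Fr g n)) ⟨2 * i + 1, h⟩ else 0)
    else if (d : ℕ) = 2 * i then (if h : 2 * i + 3 < 2 * g then
      (ex (gen c : Fr g n)) ⟨2 * i + 3, h⟩ else 0) else 0 := rfl
  rw [h1]
  funext d
  rw [dif_pos (by omega), dif_pos (by omega), HM1_ev, HM1_ev]
  change (if (d : ℕ) = 2 * i + 2 then (if 2 * i + 1 = c then (1 : ℂ) else 0) else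
    if (d : ℕ) = 2 * i then (if 2 * i + 3 = c then (1 : ℂ) else 0) else 0) = _
  rw [Pi.add_apply]
  by_cases h : c = 2 * i + 1
  · rw [if_pos h, if_neg (by omega : ¬ c = 2 * (i + 1) + 1), HM1_ev, if_pos h.symm,
      if_neg (by omega : ¬ 2 * i + 3 = c), ite_self, Pi.zero_apply, add_zero]
    rfl
  · rw [if_neg h, if_neg (fun h' => h h'.symm : ¬ 2 * i + 1 = c), Pi.zero_apply, zero_add]
    by_cases h' : c = 2 * (i + 1) + 1
    · rw [if_pos h', HM1_ev, if_pos (by omega : 2 * i + 3 = c)]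
      by_cases hd : (d : ℕ) = 2 * i
      · rw [if_pos hd, if_neg (by omega)]
      · rw [if_neg hd, ite_self]
    · rw [if_neg h', if_neg (by omega : ¬ 2 * i + 3 = c), ite_self, ite_self, Pi.zero_apply]

/-- PROOF. LinearMap.pi_ext' / basis vectors c: c even or c = 2j+1 with both or no foot of j in [s,t): hom1 fixes the class (TP_apply, cj_gen_odd: ex (u y u'⁻¹) = ex y + ex u - ex u'); the crossed handle: ex_Alp. Explicitly: TP (2i) (2i+1): y_i ↦ y_i + x_i. TP (2i+1) (2i+3): y_i ↦ y_i - (x_(i+1) - x_i), y_(i+1) ↦ y_(i+1) + x_(i+1) - x_i. TP (2i) (2i+2): trivial. TP (2i) (2i+3): y_(i+1) ↦ y_(i+1) + x_(i+1). TP (2g-1) (2g+k): y_(g-1) ↦ y_(g-1) + x_(g-1). -/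
theorem hom1_TP :
    (∀ i, i < g → hom1 (TP (2 * i) (2 * i + 1) : MulAut (Fr g n)) = 1 + aH g i) ∧
    (∀ i, i + 1 < g → hom1 (TP (2 * i + 1) (2 * i + 3) : MulAut (Fr g n)) =
      1 + (aH g i + aH g (i + 1) - sH g i)) ∧
    (∀ i, i < g → hom1 (TP (2 * i) (2 * i + 2) : MulAut (Fr g n)) = 1) ∧
    (∀ i, i + 1 < g → hom1 (TP (2 * i) (2 * i + 3) : MulAut (Fr g n)) = 1 + aH g (i + 1)) ∧
    (∀ k, 0 < g → k ≤ n → hom1 (TP (2 * g - 1) (2 * g + k) : MulAut (Fr g n)) =
      1 + aH g (g - 1)) := by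
  obtain ⟨q1, q2, q3, q4, q5⟩ := ex_Alp (g := g) (n := n)
  refine ⟨fun i hi => HM4_eq _ _ fun c hc => ?_, fun i hi => HM4_eq _ _ fun c hc => ?_,
    fun i hi => HM4_eq _ _ fun c hc => ?_, fun i hi => HM4_eq _ _ fun c hc => ?_,
    fun k hg hk => HM4_eq _ _ fun c hc => ?_⟩
  · rw [LinearMap.add_apply, Module.End.one_apply, HM4_aH i c hi]
    rcases Nat.mod_two_eq_zero_or_one c with h | h
    · rw [HM4_even _ _ _ h, if_neg (by omega), add_zero]
    · rw [HM4_odd _ _ _ hc h, q1 i hi]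
      by_cases h' : c = 2 * i + 1
      · rw [if_pos h', if_pos (by omega), if_neg (by omega), sub_zero]
      · rw [if_neg h', if_neg (by omega), if_neg (by omega), sub_zero]
  · rw [LinearMap.add_apply, LinearMap.sub_apply, LinearMap.add_apply, Module.End.one_apply,
      HM4_aH i c (by omega), HM4_aH (i + 1) c hi, HM4_sH i c hi]
    rcases Nat.mod_two_eq_zero_or_one c with h | h
    · rw [HM4_even _ _ _ h, if_neg (by omega), if_neg (by omega), if_neg (by omega),
        if_neg (by omega)]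
      abel
    · rw [HM4_odd _ _ _ hc h, q2 i hi]
      by_cases h' : c = 2 * i + 1
      · rw [if_neg (by omega), if_pos (by omega), if_pos h', if_neg (by omega), if_pos h',
          if_neg (by omega)]
        abel
      · by_cases h'' : c = 2 * (i + 1) + 1
        · rw [if_pos (by omega), if_neg (by omega), if_neg h', if_pos h'', if_neg h', if_pos h'']
          abel
        · rw [if_neg h', if_neg h'', if_neg h', if_neg h'', if_neg (by omega), if_neg (by omega)]
          abel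
  · rw [Module.End.one_apply]
    rcases Nat.mod_two_eq_zero_or_one c with h | h
    · rw [HM4_even _ _ _ h]
    · rw [HM4_odd _ _ _ hc h, q3 i hi, ite_self, ite_self, sub_zero, add_zero]
  · rw [LinearMap.add_apply, Module.End.one_apply, HM4_aH (i + 1) c hi]
    rcases Nat.mod_two_eq_zero_or_one c with h | h
    · rw [HM4_even _ _ _ h, if_neg (by omega), add_zero]
    · rw [HM4_odd _ _ _ hc h, q4 i hi]
      by_cases h' : c = 2 * (i + 1) + 1
      · rw [if_pos h', if_pos (by omega), if_neg (by omega), sub_zero]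
      · rw [if_neg h']
        by_cases h'' : c = 2 * i + 1
        · rw [if_pos (by omega), if_pos (by omega), sub_self]
        · rw [if_neg (by omega), if_neg (by omega), sub_self]
  · rw [LinearMap.add_apply, Module.End.one_apply, HM4_aH (g - 1) c (by omega)]
    rcases Nat.mod_two_eq_zero_or_one c with h | h
    · rw [HM4_even _ _ _ h, if_neg (by omega), add_zero]
    · rw [HM4_odd _ _ _ hc h, q5 k hg hk]
      by_cases h' : c = 2 * (g - 1) + 1
      · rw [if_pos h', if_neg (by omega), if_pos (by omega), zero_sub, neg_neg]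
      · rw [if_neg h', if_neg (by omega), if_neg (by omega), sub_zero]
-- END HM4

-- MODULE HM5
private theorem HM5_bH (i c : ℕ) (hi : i < g) :
    bH g i (ex (gen c : Fr g n)) = if c = 2 * i then -ex (gen (2 * i + 1) : Fr g n) else 0 := by
  have h1 : bH g i (ex (gen c : Fr g n)) = fun d : Fin (2 * g) =>
    if (d : ℕ) = 2 * i + 1 then (if h : 2 * i < 2 * g then
      -(ex (gen c : Fr g n)) ⟨2 * i, h⟩ else 0) else 0 := rfl
  rw [h1]
  funext d
  rw [dif_pos (by omega), HM1_ev]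
  change (if (d : ℕ) = 2 * i + 1 then -(if 2 * i = c then (1 : ℂ) else 0) else 0) = _
  by_cases h : c = 2 * i
  · rw [if_pos h, Pi.neg_apply, HM1_ev, if_pos h.symm]
    by_cases hd : (d : ℕ) = 2 * i + 1
    · rw [if_pos hd, if_pos hd]
    · rw [if_neg hd, if_neg hd, neg_zero]
  · rw [if_neg h, if_neg (fun h' => h h'.symm : ¬ 2 * i = c), neg_zero, ite_self, Pi.zero_apply]

/-- PROOF. Bt i: x_i ↦ x_i y_i⁻¹: class x_i - y_i; the other letters are fixed (Bt_x, Bt_ne). -/
theorem hom1_Bt (i : ℕ) (hi : i < g) : hom1 (Bt i : MulAut (Fr g n)) = 1 + bH g i := by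
  refine HM4_eq _ _ fun c hc => ?_
  rw [LinearMap.add_apply, Module.End.one_apply, HM5_bH i c hi]
  by_cases h : c = 2 * i
  · subst h
    rw [Bt_x i hi, ex_mul, ex_inv, if_pos rfl]
  · rw [Bt_ne i c h, if_neg h, add_zero]
-- END HM5

end Pool.Agent.EG80
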