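import Pool.Agent.EG80.All
import Pool.Agent.EG80.Graph
import Pool.Agent.EG80.HomRep
import Pool.Agent.QR80.Dec

set_option linter.all false

namespace Pool.Agent.EG80

attribute [local instance 100] LieRing.ofAssociativeRing

open Pool.Agent.HG13 Pool.Agent.QR80

universe u

variable {g n : ℕ}

/-- The action on the forms with index set `ι`: `F` acts trivially, `φ ∈ Γ` by composition with the
inverse of its action on homology. -/
noncomputable def rF (ι : Type) (Γ : Subgroup (MulAut (Fr g n))) (x : MG g n Γ) :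
    Module.End ℂ (Fm g ι) :=
  ac ι (hom1 ((x.right⁻¹ : Γ) : MulAut (Fr g n)))

-- MODULE FN1
/-- PROOF. (x y).right = x.right y.right; (x.right y.right)⁻¹ = y.right⁻¹ x.right⁻¹; hom1_mul, ac_mul (both reverse the order). rF 1 = 1: hom1_one, ac_one. -/
theorem rF_mul (ι : Type) (Γ : Subgroup (MulAut (Fr g n)))
    (hΓ : Γ = Subgroup.closure (twists g n)) (x y : MG g n Γ) :
    rF ι Γ (x * y) = rF ι Γ x * rF ι Γ y := by
  classical
  unfold rF
  rw [← ac_mul, ← hom1_mul _ _ (by rw [← hΓ]; exact (y.right⁻¹).2)]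
  congr 2

theorem rF_one (ι : Type) (Γ : Subgroup (MulAut (Fr g n))) : rF ι Γ 1 = 1 := by
  classical
  unfold rF
  have e : (((1 : MG g n Γ).right⁻¹ : Γ) : MulAut (Fr g n)) = 1 := by
    rw [SemidirectProduct.one_right, inv_one]
    rfl
  rw [e, hom1_one, ac_one]
-- END FN1

/-- The representation on the forms. -/
noncomputable def RF (ι : Type) (Γ : Subgroup (MulAut (Fr g n)))
    (hΓ : Γ = Subgroup.closure (twists g n)) : MG g n Γ →* Module.End ℂ (Fm g ι) where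
  toFun := rF ι Γ
  map_one' := rF_one ι Γ
  map_mul' := rF_mul ι Γ hΓ

/-- The direct sum of two representations. -/
noncomputable def RS {G V T : Type*} [Group G] [AddCommGroup V] [Module ℂ V] [AddCommGroup T]
    [Module ℂ T] (ρ : G →* Module.End ℂ V) (τ : G →* Module.End ℂ T) :
    G →* Module.End ℂ (V × T) where
  toFun x := (ρ x).prodMap (τ x)
  map_one' := by rw [map_one, map_one]; rfl
  map_mul' x y := by rw [map_mul, map_mul]; rfl

-- MODULE FN2
private theorem FN2_inv {φ : MulAut (Fr g n)} (hφ : φ ∈ Subgroup.closure (twists g n)) :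
    hom1 φ⁻¹ * hom1 φ = 1 ∧ hom1 φ * hom1 φ⁻¹ = 1 := by
  constructor
  · rw [← hom1_mul _ _ (Subgroup.inv_mem _ hφ), inv_mul_cancel, hom1_one]
  · rw [← hom1_mul _ _ hφ, mul_inv_cancel, hom1_one]

private theorem FN2_val {φ : MulAut (Fr g n)} (hφ : φ ∈ Subgroup.closure (twists g n))
    {X : Module.End ℂ (Hg g)} (hX : X * X = 0) (h : hom1 φ = 1 + X) : hom1 φ⁻¹ = 1 - X := by
  have h1 := (FN2_inv hφ).1
  have h2 : (1 + X) * (1 - X) = 1 := by
    rw [mul_sub, mul_one, add_mul, one_mul, hX, add_zero, add_sub_cancel_right]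
  calc hom1 φ⁻¹ = hom1 φ⁻¹ * ((1 + X) * (1 - X)) := by rw [h2, mul_one]
    _ = (hom1 φ⁻¹ * hom1 φ) * (1 - X) := by rw [← h, mul_assoc]
    _ = 1 - X := by rw [h1, one_mul]

private theorem FN2_eq {φ ψ : MulAut (Fr g n)} (hφ : φ ∈ Subgroup.closure (twists g n))
    (hψ : ψ ∈ Subgroup.closure (twists g n)) (h : hom1 φ = hom1 ψ) : hom1 φ⁻¹ = hom1 ψ⁻¹ := by
  calc hom1 φ⁻¹ = hom1 φ⁻¹ * (hom1 ψ * hom1 ψ⁻¹) := by rw [(FN2_inv hψ).2, mul_one]
    _ = (hom1 φ⁻¹ * hom1 φ) * hom1 ψ⁻¹ := by rw [h, mul_assoc]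
    _ = hom1 ψ⁻¹ := by rw [(FN2_inv hφ).1, one_mul]

private theorem FN2_T (ι : Type) (Γ : Subgroup (MulAut (Fr g n)))
    (hΓ : Γ = Subgroup.closure (twists g n)) {s t : ℕ} (hs : s < t) (ht : t ≤ 2 * g + n) :
    RF ι Γ hΓ ((sys g n Γ).T s t) = ac ι (hom1 (TP s t : MulAut (Fr g n))⁻¹) := by
  have hm : (TP s t : MulAut (Fr g n)) ∈ Γ := by
    rw [hΓ]; exact Subgroup.subset_closure (Or.inr ⟨s, t, hs, ht, rfl⟩)
  have e : (sys g n Γ).T s t = SemidirectProduct.inr ⟨TP s t, hm⟩ := dif_pos hm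
  rw [e]
  rfl

private theorem FN2_B (ι : Type) (Γ : Subgroup (MulAut (Fr g n)))
    (hΓ : Γ = Subgroup.closure (twists g n)) {i : ℕ} (hi : i < g) :
    RF ι Γ hΓ ((sys g n Γ).B i) = ac ι (hom1 (Bt i : MulAut (Fr g n))⁻¹) := by
  have hm : (Bt i : MulAut (Fr g n)) ∈ Γ := by
    rw [hΓ]; exact Subgroup.subset_closure (Or.inl ⟨i, hi, rfl⟩)
  have e : (sys g n Γ).B i = SemidirectProduct.inr ⟨Bt i, hm⟩ := dif_pos hm
  rw [e]
  rfl

private theorem FN2_mT {s t : ℕ} (hs : s < t) (ht : t ≤ 2 * g + n) :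
    (TP s t : MulAut (Fr g n)) ∈ Subgroup.closure (twists g n) :=
  Subgroup.subset_closure (Or.inr ⟨s, t, hs, ht, rfl⟩)

/-- PROOF. The twists are inr of TP, Bt (dif_pos, as in QR80.Hm); RF x = ac (hom1 φ⁻¹); hom1 φ = 1 + X, X X = 0, hom1 φ⁻¹ * hom1 φ = hom1 1 = 1 (hom1_mul), so hom1 φ⁻¹ = 1 - X. Lg_der (aH_sq, bH_sq, eH_sq). -/
theorem RF_Lg (ι : Type) [Fintype ι] [DecidableEq ι] (Γ : Subgroup (MulAut (Fr g n)))
    (hΓ : Γ = Subgroup.closure (twists g n)) :
    (∀ i, i < g → Lg (der ι (aH g i)) (RF ι Γ hΓ ((sys g n Γ).T (2 * i) (2 * i + 1)))) ∧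
    (∀ i, i < g → Lg (der ι (bH g i)) (RF ι Γ hΓ ((sys g n Γ).B i))) ∧
    (∀ i, i + 1 < g → Lg (der ι (aH g i + aH g (i + 1) - sH g i))
      (RF ι Γ hΓ ((sys g n Γ).T (2 * i + 1) (2 * i + 3)))) := by
  obtain ⟨h1, h2, -, -, -⟩ := hom1_TP (g := g) (n := n)
  refine ⟨fun i hi => ?_, fun i hi => ?_, fun i hi => ?_⟩
  · rw [FN2_T ι Γ hΓ (by omega) (by omega), FN2_val (FN2_mT (by omega) (by omega)) (aH_sq i)
      (h1 i hi)]
    exact Lg_der _ (aH_sq i)
  · rw [FN2_B ι Γ hΓ hi, FN2_val (Subgroup.subset_closure (Or.inl ⟨i, hi, rfl⟩)) (bH_sq i)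
      (hom1_Bt i hi)]
    exact Lg_der _ (bH_sq i)
  · rw [FN2_T ι Γ hΓ (by omega) (by omega), FN2_val (FN2_mT (by omega) (by omega)) (eH_sq i)
      (h2 i hi)]
    exact Lg_der _ (eH_sq i)

/-- PROOF. The same: hom1 of the twists agree (hom1_TP), so hom1 of their inverses (hom1 φ⁻¹ is the inverse of hom1 φ). -/
theorem RF_rel (ι : Type) (Γ : Subgroup (MulAut (Fr g n)))
    (hΓ : Γ = Subgroup.closure (twists g n)) :
    (∀ i, i < g → RF ι Γ hΓ ((sys g n Γ).T (2 * i) (2 * i + 2)) = 1) ∧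
    (∀ i, i + 1 < g → RF ι Γ hΓ ((sys g n Γ).T (2 * i) (2 * i + 3)) =
      RF ι Γ hΓ ((sys g n Γ).T (2 * i + 2) (2 * i + 3))) ∧
    (∀ k, 0 < g → k ≤ n → RF ι Γ hΓ ((sys g n Γ).T (2 * g - 1) (2 * g + k)) =
      RF ι Γ hΓ ((sys g n Γ).T (2 * (g - 1)) (2 * (g - 1) + 1))) ∧
    (∀ w : Fr g n, RF ι Γ hΓ (SemidirectProduct.inl w) = 1) := by
  obtain ⟨h1, -, h3, h4, h5⟩ := hom1_TP (g := g) (n := n)
  classical
  refine ⟨fun i hi => ?_, fun i hi => ?_, fun k hg hk => ?_, fun w => ?_⟩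
  · have e := FN2_eq (ψ := 1) (FN2_mT (g := g) (n := n) (s := 2 * i) (t := 2 * i + 2) (by omega)
      (by omega)) (Subgroup.one_mem _) (by rw [h3 i hi, hom1_one])
    rw [FN2_T ι Γ hΓ (by omega) (by omega), e, inv_one, hom1_one, ac_one]
  · have e := FN2_eq (FN2_mT (g := g) (n := n) (s := 2 * i) (t := 2 * i + 3) (by omega)
      (by omega)) (FN2_mT (g := g) (n := n) (s := 2 * i + 2) (t := 2 * i + 3) (by omega)
      (by omega)) (by
        rw [h4 i hi]
        exact (h1 (i + 1) hi).symm)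
    rw [FN2_T ι Γ hΓ (by omega) (by omega), FN2_T ι Γ hΓ (by omega) (by omega), e]
  · have e := FN2_eq (FN2_mT (g := g) (n := n) (s := 2 * g - 1) (t := 2 * g + k) (by omega)
      (by omega)) (FN2_mT (g := g) (n := n) (s := 2 * (g - 1)) (t := 2 * (g - 1) + 1) (by omega)
      (by omega)) (by
        rw [h5 k hg hk, h1 (g - 1) (by omega)])
    rw [FN2_T ι Γ hΓ (by omega) (by omega), FN2_T ι Γ hΓ (by omega) (by omega), e]
  · exact rF_one ι Γ
-- END FN2

/-- The hypotheses of the end game: `F` acts trivially, the twist `T 0 1` unipotently, and three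
families of relations hold. -/
structure EH {Γ : Subgroup (MulAut (Fr g n))} {V : Type*} [AddCommGroup V] [Module ℂ V]
    (ρ : MG g n Γ →* Module.End ℂ V) : Prop where
  F : ∀ w : Fr g n, ρ (SemidirectProduct.inl w) = 1
  u : IsNilpotent (ρ ((sys g n Γ).T 0 1) - 1)
  s : ∀ i, i < g → ρ ((sys g n Γ).T (2 * i) (2 * i + 2)) = 1
  b : ∀ i, i + 1 < g →
    ρ ((sys g n Γ).T (2 * i) (2 * i + 3)) = ρ ((sys g n Γ).T (2 * i + 2) (2 * i + 3))
  p : ∀ k, k ≤ n → ρ ((sys g n Γ).T (2 * g - 1) (2 * g + k)) =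
    ρ ((sys g n Γ).T (2 * (g - 1)) (2 * (g - 1) + 1))

/-- `D` is the graph of a surjective equivariant map from a stable subspace of the forms to `V`. -/
structure Gr {Γ : Subgroup (MulAut (Fr g n))} {V : Type*} [AddCommGroup V] [Module ℂ V]
    (hΓ : Γ = Subgroup.closure (twists g n)) (ρ : MG g n Γ →* Module.End ℂ V) (ι : Type)
    (D : Submodule ℂ (V × Fm g ι)) : Prop where
  st : ∀ x, ∀ d ∈ D, RS ρ (RF ι Γ hΓ) x d ∈ D
  inj : ∀ w : V, (w, (0 : Fm g ι)) ∈ D → w = 0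
  sur : ∀ w : V, ∃ f, (w, f) ∈ D

-- MODULE FN3
/-- THE END GAME for an irreducible representation.
PROOF. P = pr_sys (planar relations). unip_all: logarithms α i, β i, ε i of ρ of A_i, B_i, E_i (exists_lg; U = 1 + (U - 1); choice, 0 outside the range). ru_of for σ = ρ.toHomUnits and h1, h2 from EH; RU.pre: Pre g α β S on V, S i = α i + α (i+1) - ε i. Irreducibility: IrrOps g α β S: a subspace stable under α, β, S is stable under ε i and under the generators B_i, a_i, e_i (Lg.stab) and f_k = a_(g-1) (EH.p; Lk g n s t is one of the three cases), so by stab_all under everything: hirr.2. exists_part (Pre.cs): p, v. T = Fm g (Ix g p), t = tf g p, operators der (aH i), der (bH i), der (sH i): cE, cH of these are der of cE, cH (der_lie, der_neg), so cEH, cHH, tf_ne. On V × T: ru_of for (RS ρ (RF ..)).toHomUnits (EH and RF_rel), logarithms pm α (der aH), pm β (der bH), and (ε i) ⊕ der (..) (Lg.prodMap, RF_Lg); RU.pre: Pre for pm α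 .., pm β .., and S = sum = pm S (der sH) (der_add, der_neg). graph: D stable under pm α, pm β, pm S, so under the twists A_i, B_i, E_i (Lg.stab; ε = α i + α (i+1) - S i), f_k = A_(g-1) (EH.p, RF_rel), so under all x by stab_all for RS ρ (RF ..) (F acts trivially). -/
theorem end_irr (hg : 2 ≤ g) (Γ : Subgroup (MulAut (Fr g n)))
    (hΓ : Γ = Subgroup.closure (twists g n)) (hP : LJ.PR (sys g n Γ)) {V : Type u}
    [AddCommGroup V] [Module ℂ V] [FiniteDimensional ℂ V] (ρ : MG g n Γ →* Module.End ℂ V)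
    (hirr : Irr ρ) (h : EH ρ) :
    ∃ (p : ℕ → ℕ) (D : Submodule ℂ (V × Fm g (Ix g p))), Gr hΓ ρ (Ix g p) D := by
  obtain ⟨uA, uB, uE⟩ := unip_all (sys g n Γ) hP ρ h.u
  have hlog : ∀ U : Module.End ℂ V, IsNilpotent (U - 1) → ∃ a, Lg a U := by
    intro U hU
    obtain ⟨a, -, ha⟩ := exists_lg (U - 1) hU
    exact ⟨a, by rwa [add_sub_cancel] at ha⟩
  choose! lg hlg using hlog
  obtain ⟨α, hα⟩ : ∃ α : ℕ → Module.End ℂ V,
      α = fun i => lg (ρ ((sys g n Γ).T (2 * i) (2 * i + 1))) := ⟨_, rfl⟩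
  obtain ⟨β, hβ⟩ : ∃ β : ℕ → Module.End ℂ V, β = fun i => lg (ρ ((sys g n Γ).B i)) := ⟨_, rfl⟩
  obtain ⟨ε, hε⟩ : ∃ ε : ℕ → Module.End ℂ V,
      ε = fun i => lg (ρ ((sys g n Γ).T (2 * i + 1) (2 * i + 3))) := ⟨_, rfl⟩
  have lA : ∀ i, i < g → Lg (α i) (ρ ((sys g n Γ).T (2 * i) (2 * i + 1))) := by
    intro i hi; rw [hα]; exact hlg _ (uA i hi)
  have lB : ∀ i, i < g → Lg (β i) (ρ ((sys g n Γ).B i)) := by
    intro i hi; rw [hβ]; exact hlg _ (uB i hi)
  have lE : ∀ i, i + 1 < g → Lg (ε i) (ρ ((sys g n Γ).T (2 * i + 1) (2 * i + 3))) := by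
    intro i hi; rw [hε]; exact hlg _ (uE i hi)
  -- the system on V
  have hru := ru_of (sys g n Γ) hP ρ.toHomUnits
    (fun i hi => Units.ext (by rw [MonoidHom.coe_toHomUnits, h.s i hi, Units.val_one]))
    (fun i hi => Units.ext (by rw [MonoidHom.coe_toHomUnits, MonoidHom.coe_toHomUnits, h.b i hi]))
  have hpre := hru.pre α β ε
    (fun i hi => by rw [MonoidHom.coe_toHomUnits]; exact lA i hi)
    (fun i hi => by rw [MonoidHom.coe_toHomUnits]; exact lB i hi)
    (fun i hi => by rw [MonoidHom.coe_toHomUnits]; exact lE i hi)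
  have hirr' : IrrOps g α β (fun i => α i + α (i + 1) - ε i) := by
    refine ⟨hirr.1, fun W ha hb hs => hirr.2 W (stab_all (by omega) Γ hΓ ρ h.F W ?_ ?_)⟩
    · intro i hi
      exact (lB i hi).stab W (hb i hi)
    · intro s t hst
      rcases hst with ⟨j, hj, rfl, rfl⟩ | ⟨j, hj, rfl, rfl⟩ | ⟨k, hk, rfl, rfl⟩
      · exact (lA j hj).stab W (ha j hj)
      · refine (lE j hj).stab W fun w hw => ?_
        have e : ε j w = α j w + α (j + 1) w - (α j + α (j + 1) - ε j) w := by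
          simp only [LinearMap.sub_apply, LinearMap.add_apply]
          abel
        rw [e]
        exact W.sub_mem (W.add_mem (ha j (by omega) w hw) (ha (j + 1) hj w hw)) (hs j hj w hw)
      · rw [h.p k hk]
        exact (lA (g - 1) (by omega)).stab W (ha (g - 1) (by omega))
  haveI : Nontrivial V := hirr.1
  obtain ⟨p, v, hv, hv1, hv2⟩ := exists_part (hpre.cs hg)
  -- the system on the forms
  obtain ⟨fA, fB, fE⟩ := RF_Lg (Ix g p) Γ hΓ
  obtain ⟨r1, r2, r3, r4⟩ := RF_rel (Ix g p) Γ hΓ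
  obtain ⟨τ, hτ⟩ : ∃ τ : MG g n Γ →* Module.End ℂ (V × Fm g (Ix g p)),
      τ = RS ρ (RF (Ix g p) Γ hΓ) := ⟨_, rfl⟩
  have τa : ∀ x, τ x = (ρ x).prodMap (RF (Ix g p) Γ hΓ x) := by
    intro x; rw [hτ]; rfl
  have hru' := ru_of (sys g n Γ) hP τ.toHomUnits
    (fun i hi => Units.ext (by
      rw [MonoidHom.coe_toHomUnits, τa, h.s i hi, r1 i hi, Units.val_one]; rfl))
    (fun i hi => Units.ext (by
      rw [MonoidHom.coe_toHomUnits, MonoidHom.coe_toHomUnits, τa, τa, h.b i hi, r2 i hi]))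
  have mA : ∀ i, i < g → Lg (pm α (fun i => der (Ix g p) (aH g i)) i)
      (τ ((sys g n Γ).T (2 * i) (2 * i + 1))) := by
    intro i hi; rw [τa]; exact (lA i hi).prodMap (fA i hi)
  have mB : ∀ i, i < g → Lg (pm β (fun i => der (Ix g p) (bH g i)) i) (τ ((sys g n Γ).B i)) := by
    intro i hi; rw [τa]; exact (lB i hi).prodMap (fB i hi)
  have mE : ∀ i, i + 1 < g →
      Lg (pm ε (fun i => der (Ix g p) (aH g i + aH g (i + 1) - sH g i)) i)
      (τ ((sys g n Γ).T (2 * i + 1) (2 * i + 3))) := by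
    intro i hi; rw [τa]; exact (lE i hi).prodMap (fE i hi)
  have hpre' := hru'.pre (pm α (fun i => der (Ix g p) (aH g i)))
    (pm β (fun i => der (Ix g p) (bH g i)))
    (pm ε (fun i => der (Ix g p) (aH g i + aH g (i + 1) - sH g i)))
    (fun i hi => by rw [MonoidHom.coe_toHomUnits]; exact mA i hi)
    (fun i hi => by rw [MonoidHom.coe_toHomUnits]; exact mB i hi)
    (fun i hi => by rw [MonoidHom.coe_toHomUnits]; exact mE i hi)
  have hS : (fun i => pm α (fun i => der (Ix g p) (aH g i)) i +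
      pm α (fun i => der (Ix g p) (aH g i)) (i + 1) -
      pm ε (fun i => der (Ix g p) (aH g i + aH g (i + 1) - sH g i)) i) =
      pm (fun i => α i + α (i + 1) - ε i) (fun i => der (Ix g p) (sH g i)) := by
    funext i
    have e : der (Ix g p) (sH g i) = der (Ix g p) (aH g i) + der (Ix g p) (aH g (i + 1)) -
        der (Ix g p) (aH g i + aH g (i + 1) - sH g i) := by
      rw [sub_eq_add_neg (aH g i + aH g (i + 1)), der_add, der_add, der_neg]
      abel
    simp only [pm]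
    rw [e]
    rfl
  rw [hS] at hpre'
  have hcE : ∀ k, cE g (fun i => der (Ix g p) (aH g i)) (fun i => der (Ix g p) (bH g i))
      (fun i => der (Ix g p) (sH g i)) k = der (Ix g p) (cE g (aH g) (bH g) (sH g) k) := by
    intro k
    unfold cE
    split_ifs
    · rw [der_lie]
    · rfl
  have hcH : ∀ i, cH (fun i => der (Ix g p) (aH g i)) (fun i => der (Ix g p) (bH g i)) i =
      der (Ix g p) (cH (aH g) (bH g) i) := by
    intro i
    unfold cH
    rw [der_lie]
  obtain ⟨D, dA, dB, dS, hinj, hsur⟩ := graph hg hpre' hirr'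
    (fun i => ∑ k ∈ Finset.Ico i g, (p k : ℂ)) v hv hv1 hv2 (tf g p) (tf_ne p)
    (fun i hi => by rw [hcH]; exact cHH p i hi) (fun k hk => by rw [hcE]; exact cEH p k hk)
  refine ⟨p, D, ?_, hinj, hsur⟩
  rw [← hτ]
  refine stab_all (by omega) Γ hΓ τ (fun w => by rw [τa, h.F, r4]; rfl) D ?_ ?_
  · intro i hi
    exact (mB i hi).stab D (dB i hi)
  · intro s t hst
    rcases hst with ⟨j, hj, rfl, rfl⟩ | ⟨j, hj, rfl, rfl⟩ | ⟨k, hk, rfl, rfl⟩
    · exact (mA j hj).stab D (dA j hj)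
    · refine (mE j hj).stab D fun w hw => ?_
      have e := congrFun hS j
      have e2 : pm ε (fun i => der (Ix g p) (aH g i + aH g (i + 1) - sH g i)) j w =
          pm α (fun i => der (Ix g p) (aH g i)) j w +
          pm α (fun i => der (Ix g p) (aH g i)) (j + 1) w -
          pm (fun i => α i + α (i + 1) - ε i) (fun i => der (Ix g p) (sH g i)) j w := by
        rw [← e]
        simp only [LinearMap.sub_apply, LinearMap.add_apply]
        abel
      rw [e2]
      exact D.sub_mem (D.add_mem (dA j (by omega) w hw) (dA (j + 1) hj w hw)) (dS j hj w hw)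
    · have e : τ ((sys g n Γ).T (2 * g - 1) (2 * g + k)) =
          τ ((sys g n Γ).T (2 * (g - 1)) (2 * (g - 1) + 1)) := by
        rw [τa, τa, h.p k hk, r3 k (by omega) hk]
      rw [e]
      exact (mA (g - 1) (by omega)).stab D (dA (g - 1) (by omega))
-- END FN3

-- MODULE FN4
/-- Change of the index set.
PROOF. e = Fintype.equivFin ι; D' = the image of D under (w, f) ↦ (w, f.domDomCongr e) (MultilinearMap.domDomCongrLinearEquiv); RF commutes with domDomCongr (ac_apply). -/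
theorem Gr.fin {Γ : Subgroup (MulAut (Fr g n))} {V : Type*} [AddCommGroup V] [Module ℂ V]
    {hΓ : Γ = Subgroup.closure (twists g n)} {ρ : MG g n Γ →* Module.End ℂ V} {ι : Type}
    [Fintype ι] {D : Submodule ℂ (V × Fm g ι)} (h : Gr hΓ ρ ι D) :
    ∃ (j : ℕ) (D' : Submodule ℂ (V × Fm g (Fin j))), Gr hΓ ρ (Fin j) D' := by
  classical
  let e := Fintype.equivFin ι
  let L : Fm g ι ≃ₗ[ℂ] Fm g (Fin (Fintype.card ι)) :=
    MultilinearMap.domDomCongrLinearEquiv ℂ ℂ (Hg g) ℂ e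
  have hL : ∀ x f, RF (Fin (Fintype.card ι)) Γ hΓ x (L f) = L (RF ι Γ hΓ x f) := fun x f => rfl
  refine ⟨Fintype.card ι, D.map (LinearMap.prodMap LinearMap.id (L : Fm g ι →ₗ[ℂ] _)),
    ?_, ?_, ?_⟩
  · rintro x _ ⟨⟨w, f⟩, hd, rfl⟩
    refine ⟨RS ρ (RF ι Γ hΓ) x (w, f), h.st x _ hd, ?_⟩
    rfl
  · rintro w ⟨⟨w', f⟩, hd, he⟩
    have h1 : w' = w := congrArg Prod.fst he
    have h2 : L f = 0 := congrArg Prod.snd he
    have h3 : f = 0 := by
      rw [← L.map_zero] at h2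
      exact L.injective h2
    subst h1
    subst h3
    exact h.inj _ hd
  · intro w
    obtain ⟨f, hf⟩ := h.sur w
    exact ⟨L f, ⟨(w, f), hf, rfl⟩⟩
-- END FN4

/-- The same as `Quo` with `π` defined on `E` only: there are a subspace `E` of the `j`-linear forms and a
linear map `π` from `E` to `V` with range `W` such that, for `φ` in `Γ` and `f` in `E`, the form
`φ f` (that is, `f` composed with the action of `φ⁻¹` in all arguments) lies in `E` and is mapped
by `π` to `ρ φ (π f)`. -/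
def QuoE {Γ : Subgroup (MulAut (Fr g n))} {V : Type*} [AddCommGroup V] [Module ℂ V]
    (ρ : Representation ℂ (ModG Γ) V) (j : ℕ) (W : Submodule ℂ V) : Prop :=
  ∃ (E : Submodule ℂ (Fm g (Fin j))) (π : E →ₗ[ℂ] V), LinearMap.range π = W ∧
    ∀ (φ : Γ) (f : E), ∃ f' : E,
      (f' : Fm g (Fin j)) = ac (Fin j) (hom1 (((φ⁻¹ : Γ) : MulAut (Fr g n)))) f ∧
      π f' = ρ (incl Γ φ) (π f)

/-- The sum of finitely many quotients of subrepresentations of spaces of forms. -/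
def Sums {Γ : Subgroup (MulAut (Fr g n))} {V : Type*} [AddCommGroup V] [Module ℂ V]
    (ρ : Representation ℂ (ModG Γ) V) : Prop :=
  ∃ (N : ℕ) (j : Fin N → ℕ) (W : Fin N → Submodule ℂ V),
    (∀ i, QuoE ρ (j i) (W i)) ∧ ⨆ i, W i = ⊤

-- MODULE FN5
/-- PROOF. E = D.map snd (LinearMap.snd), π f = the unique w with (w, f) ∈ D (Gr.inj: differences), linear; range ⊤ by Gr.sur. For φ: Gr.st for inr φ. -/
theorem Gr.quo {Γ : Subgroup (MulAut (Fr g n))} {V : Type*} [AddCommGroup V] [Module ℂ V]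
    {hΓ : Γ = Subgroup.closure (twists g n)} {ρ : MG g n Γ →* Module.End ℂ V} {j : ℕ}
    {D : Submodule ℂ (V × Fm g (Fin j))} (h : Gr hΓ ρ (Fin j) D) :
    QuoE (Γ := Γ) (V := V) ρ j ⊤ := by
  have huniq : ∀ {w w' : V} {f : Fm g (Fin j)}, (w, f) ∈ D → (w', f) ∈ D → w = w' := by
    intro w w' f h1 h2
    have h3 := D.sub_mem h1 h2
    rw [Prod.mk_sub_mk, sub_self] at h3
    exact sub_eq_zero.1 (h.inj _ h3)
  have hex : ∀ f : (D.map (LinearMap.snd ℂ V (Fm g (Fin j)))), ∃ w : V, (w, (f : Fm g (Fin j))) ∈ D := by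
    rintro ⟨_, ⟨⟨w, f⟩, hd, rfl⟩⟩
    exact ⟨w, hd⟩
  choose π hπ using hex
  refine ⟨D.map (LinearMap.snd ℂ V (Fm g (Fin j))),
    { toFun := π
      map_add' := fun f f' => huniq (hπ (f + f')) (D.add_mem (hπ f) (hπ f'))
      map_smul' := fun c f => huniq (hπ (c • f)) (D.smul_mem c (hπ f)) }, ?_, ?_⟩
  · rw [LinearMap.range_eq_top]
    intro w
    obtain ⟨f, hf⟩ := h.sur w
    exact ⟨⟨f, ⟨(w, f), hf, rfl⟩⟩, huniq (hπ _) hf⟩
  · intro φ f
    have h1 := h.st (SemidirectProduct.inr φ) _ (hπ f)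
    refine ⟨⟨ac (Fin j) (hom1 (((φ⁻¹ : Γ) : MulAut (Fr g n)))) f, ⟨_, h1, rfl⟩⟩, rfl, ?_⟩
    exact huniq (hπ _) h1
-- END FN5

-- MODULE FN6
private theorem FN6_aux (Γ : Subgroup (MulAut (Fr g n))) {V : Type u} [AddCommGroup V]
    [Module ℂ V] (ρ : MG g n Γ →* Module.End ℂ V) (W : Submodule ℂ V)
    (hW : ∀ x, ∀ w ∈ W, ρ x w ∈ W) (j : ℕ) (U : Submodule ℂ W)
    (h : QuoE (Γ := Γ) (V := W) (resR ρ W hW) j U) :
    QuoE (Γ := Γ) (V := V) ρ j (U.map W.subtype) := by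
  obtain ⟨E, π, h1, h2⟩ := h
  refine ⟨E, W.subtype ∘ₗ π, ?_, fun φ f => ?_⟩
  · rw [LinearMap.range_comp, h1]
  · obtain ⟨f', hf, hf'⟩ := h2 φ f
    refine ⟨f', hf, ?_⟩
    rw [LinearMap.comp_apply, hf']
    rfl

private theorem FN6_all (Γ : Subgroup (MulAut (Fr g n))) (d : ℕ)
    (hirr : ∀ {V : Type u} [AddCommGroup V] [Module ℂ V] [FiniteDimensional ℂ V]
      (ρ : MG g n Γ →* Module.End ℂ V), Irr ρ → Module.finrank ℂ V < d →
      ∃ j, QuoE (Γ := Γ) (V := V) ρ j ⊤) (k : ℕ) :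
    ∀ {V : Type u} [AddCommGroup V] [Module ℂ V] [FiniteDimensional ℂ V]
    (ρ : MG g n Γ →* Module.End ℂ V), Module.finrank ℂ V = k →
    (∀ W : Submodule ℂ V, (∀ x, ∀ w ∈ W, ρ x w ∈ W) →
      ∃ W' : Submodule ℂ V, (∀ x, ∀ w ∈ W', ρ x w ∈ W') ∧ IsCompl W W') →
    Module.finrank ℂ V < d → Sums (Γ := Γ) (V := V) ρ := by
  induction k using Nat.strong_induction_on with
  | _ k ih =>
  intro V _ _ _ ρ hk hs hd
  rcases subsingleton_or_nontrivial V with hV | hV
  · exact ⟨0, Fin.elim0, Fin.elim0, fun i => i.elim0, Subsingleton.elim _ _⟩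
  obtain ⟨W, hW, hI⟩ := exists_irr ρ
  obtain ⟨W', hW', hc⟩ := hs W hW
  haveI : Nontrivial W := hI.1
  have hdim : Module.finrank ℂ W + Module.finrank ℂ W' = Module.finrank ℂ V :=
    Submodule.finrank_add_eq_of_isCompl hc
  have hWpos : 0 < Module.finrank ℂ W := Module.finrank_pos
  obtain ⟨j0, hj0⟩ := hirr (resR ρ W hW) hI (by omega)
  obtain ⟨N, j, U, hU, hsup⟩ := ih (Module.finrank ℂ W') (by omega) (resR ρ W' hW') rfl
    (semis_res ρ hs W' hW') (by omega)
  refine ⟨N + 1, Fin.cons j0 j, Fin.cons W (fun i => (U i).map W'.subtype), ?_, ?_⟩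
  · intro i
    refine Fin.cases ?_ (fun i => ?_) i
    · have := FN6_aux Γ ρ W hW j0 ⊤ hj0
      rw [Submodule.map_top, Submodule.range_subtype] at this
      exact this
    · exact FN6_aux Γ ρ W' hW' (j i) (U i) (hU i)
  · rw [eq_top_iff, ← hc.sup_eq_top]
    refine sup_le ?_ ?_
    · exact le_iSup (Fin.cons W (fun i => (U i).map W'.subtype) : Fin (N + 1) → Submodule ℂ V) 0
    · have h1 : (⨆ i, U i).map W'.subtype = W' := by
        rw [hsup, Submodule.map_top, Submodule.range_subtype]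
      refine h1.symm.le.trans ?_
      rw [Submodule.map_iSup]
      refine iSup_le fun i => ?_
      exact le_iSup (Fin.cons W (fun i => (U i).map W'.subtype) : Fin (N + 1) → Submodule ℂ V)
        i.succ

/-- Semisimple representations, if all irreducible ones of smaller dimension are known.
PROOF. Strong induction on finrank V, for all V : Type u. V = 0: N = 0. Otherwise exists_irr: W irreducible, complement W' stable (hs). hirr for resR ρ W (Irr, finrank W ≤ finrank V < d): QuoE (resR ρ W) j ⊤, so QuoE ρ j W (compose π with W.subtype). Induction for resR ρ W' (semis_res, finrank W' < finrank V): Sums, with submodules W_i of W'; QuoE ρ (j i) (W_i.map W'.subtype). N + 1 with Fin.cons; the supremum is W ⊔ W' = ⊤ (iSup_fin_succ or Fin.cases, Submodule.map_iSup). (Γ := Γ: MG g n Γ and ModG Γ are definitionally equal, as in QR80.Dec.) -/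
theorem geo_of_irr (Γ : Subgroup (MulAut (Fr g n))) (d : ℕ)
    (hirr : ∀ {V : Type u} [AddCommGroup V] [Module ℂ V] [FiniteDimensional ℂ V]
      (ρ : MG g n Γ →* Module.End ℂ V), Irr ρ → Module.finrank ℂ V < d →
      ∃ j, QuoE (Γ := Γ) (V := V) ρ j ⊤)
    {V : Type u} [AddCommGroup V] [Module ℂ V] [FiniteDimensional ℂ V]
    (ρ : Representation ℂ (ModG Γ) V) (hs : Semis ρ) (hd : Module.finrank ℂ V < d) : Sums ρ :=
  FN6_all Γ d hirr _ (V := V) ρ rfl hs hd
-- END FN6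

end Pool.Agent.EG80
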