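import Pool.Agent.EG80.Log
import Pool.Agent.EG80.Chev
import Pool.Agent.EG80.Defs

set_option linter.all false

namespace Pool.Agent.EG80

attribute [local instance 100] LieRing.ofAssociativeRing

section

variable {g : ℕ} {ι : Type}

theorem ac_apply (M : Module.End ℂ (Hg g)) (f : Fm g ι) (x : ι → Hg g) :
    ac ι M f x = f fun i => M (x i) := rfl

variable [DecidableEq ι]

/-- Composition with `X` in the argument `s` only. -/
noncomputable def sl (s : ι) (X : Module.End ℂ (Hg g)) : Module.End ℂ (Fm g ι) :=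
  MultilinearMap.compLinearMapₗ
    (Function.update (fun _ => (LinearMap.id : Hg g →ₗ[ℂ] Hg g)) s X)

/-- The derivation `- Σ_s X_s`. -/
noncomputable def der (ι : Type) [DecidableEq ι] [Fintype ι] (X : Module.End ℂ (Hg g)) :
    Module.End ℂ (Fm g ι) :=
  -∑ s : ι, sl s X

-- MODULE FM1
/-- PROOF. Unfold; funext, Function.update cases. -/
theorem sl_apply (s : ι) (X : Module.End ℂ (Hg g)) (f : Fm g ι) (x : ι → Hg g) :
    sl s X f x = f (Function.update x s (X (x s))) := by
  show f (fun i => (Function.update (fun _ => (LinearMap.id : Hg g →ₗ[ℂ] Hg g)) s X i) (x i)) = _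
  congr 1
  funext i
  by_cases h : i = s
  · subst h
    rw [Function.update_self, Function.update_self]
  · rw [Function.update_of_ne h, Function.update_of_ne h]
    rfl

/-- PROOF. sl_apply, MultilinearMap.neg_apply, sum_apply. -/
theorem der_apply [Fintype ι] (X : Module.End ℂ (Hg g)) (f : Fm g ι) (x : ι → Hg g) :
    der ι X f x = -∑ s : ι, f (Function.update x s (X (x s))) := by
  unfold der
  rw [LinearMap.neg_apply, MultilinearMap.neg_apply, LinearMap.sum_apply,
    MultilinearMap.sum_apply]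
  refine congrArg _ (Finset.sum_congr rfl fun s _ => sl_apply s X f x)

/-- PROOF. ext; ac_apply. -/
theorem ac_mul (M N : Module.End ℂ (Hg g)) : ac ι (M * N) = ac ι N * ac ι M := by
  refine LinearMap.ext fun f => MultilinearMap.ext fun x => ?_
  rfl

theorem ac_one : ac ι (1 : Module.End ℂ (Hg g)) = 1 := by
  refine LinearMap.ext fun f => MultilinearMap.ext fun x => ?_
  rfl
-- END FM1

-- MODULE FM2
private theorem FM2_add (s : ι) (X Y : Module.End ℂ (Hg g)) :
    sl s (X + Y) = sl s X + sl s Y := by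
  refine LinearMap.ext fun f => MultilinearMap.ext fun x => ?_
  rw [LinearMap.add_apply, MultilinearMap.add_apply, sl_apply, sl_apply, sl_apply,
    LinearMap.add_apply, f.map_update_add]

private theorem FM2_neg (s : ι) (X : Module.End ℂ (Hg g)) :
    sl s (-X) = -sl s X := by
  refine LinearMap.ext fun f => MultilinearMap.ext fun x => ?_
  rw [LinearMap.neg_apply, MultilinearMap.neg_apply, sl_apply, sl_apply,
    LinearMap.neg_apply, f.map_update_neg]

private theorem FM2_sub (s : ι) (X Y : Module.End ℂ (Hg g)) :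
    sl s (X - Y) = sl s X - sl s Y := by
  rw [sub_eq_add_neg, FM2_add, FM2_neg, ← sub_eq_add_neg]

private theorem FM2_mul (s : ι) (X Y : Module.End ℂ (Hg g)) :
    sl s X * sl s Y = sl s (Y * X) := by
  refine LinearMap.ext fun f => MultilinearMap.ext fun x => ?_
  show sl s X (sl s Y f) x = _
  rw [sl_apply, sl_apply, sl_apply, Function.update_self, Function.update_idem]
  rfl

private theorem FM2_comm (s t : ι) (h : s ≠ t) (X Y : Module.End ℂ (Hg g)) :
    sl s X * sl t Y = sl t Y * sl s X := by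
  refine LinearMap.ext fun f => MultilinearMap.ext fun x => ?_
  show sl s X (sl t Y f) x = sl t Y (sl s X f) x
  rw [sl_apply, sl_apply, sl_apply, sl_apply, Function.update_of_ne h,
    Function.update_of_ne h.symm, Function.update_comm h]

/-- PROOF. ext, sl_apply: X ↦ sl s X is linear (f.map_update_add, map_update_smul). -/
theorem der_add [Fintype ι] (X Y : Module.End ℂ (Hg g)) :
    der ι (X + Y) = der ι X + der ι Y := by
  unfold der
  rw [← neg_add, ← Finset.sum_add_distrib]
  refine congrArg _ (Finset.sum_congr rfl fun s _ => FM2_add s X Y)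

theorem der_neg [Fintype ι] (X : Module.End ℂ (Hg g)) :
    der ι (-X) = -der ι X := by
  have h1 : ∀ s : ι, sl s (-X) = -sl s X := fun s => FM2_neg s X
  show -∑ s : ι, sl s (-X) = - -∑ s : ι, sl s X
  rw [Finset.sum_congr rfl fun s _ => h1 s, Finset.sum_neg_distrib]

/-- PROOF. sl s X and sl t Y commute for s ≠ t (Function.update_comm), sl s X * sl s Y = sl s (Y * X) (order reversed): ⁅der X, der Y⁆ = Σ_(s,t) (X_s Y_t - Y_t X_s) = Σ_s (sl s (Y X) - sl s (X Y)) = -Σ_s sl s ⁅X,Y⁆ = der ⁅X,Y⁆ (linearity of sl s). -/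
theorem der_lie [Fintype ι] (X Y : Module.End ℂ (Hg g)) :
    der ι ⁅X, Y⁆ = ⁅der ι X, der ι Y⁆ := by
  rw [LieRing.of_associative_ring_bracket, LieRing.of_associative_ring_bracket]
  unfold der
  have hn : ∀ A B : Module.End ℂ (Fm g ι), -A * -B = A * B := fun A B => neg_mul_neg A B
  rw [hn, hn, Finset.sum_mul_sum, Finset.sum_mul_sum,
    Finset.sum_comm (f := fun s t : ι => sl s Y * sl t X), ← Finset.sum_sub_distrib,
    ← Finset.sum_neg_distrib]
  refine Finset.sum_congr rfl fun s _ => ?_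
  rw [← Finset.sum_sub_distrib, Finset.sum_eq_single s, FM2_mul, FM2_mul, FM2_sub, neg_sub]
  · intro t _ hts
    rw [FM2_comm s t hts.symm X Y, sub_self]
  · intro h
    exact absurd (Finset.mem_univ s) h
-- END FM2

-- MODULE FM3
private noncomputable def FM3_C (A : Finset ι) (X : Module.End ℂ (Hg g)) :
    Module.End ℂ (Fm g ι) :=
  MultilinearMap.compLinearMapₗ
    (fun i => if i ∈ A then (1 - X : Hg g →ₗ[ℂ] Hg g) else (LinearMap.id : Hg g →ₗ[ℂ] Hg g))

private theorem FM3_Ca (A : Finset ι) (X : Module.End ℂ (Hg g)) (f : Fm g ι) (x : ι → Hg g) :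
    FM3_C A X f x = f fun i => if i ∈ A then x i - X (x i) else x i := by
  show f (fun i => (if i ∈ A then (1 - X : Hg g →ₗ[ℂ] Hg g) else LinearMap.id) (x i)) = _
  congr 1
  funext i
  split_ifs
  · rfl
  · rfl

private theorem FM3_one (A : Finset ι) (s : ι) (hs : s ∉ A) (X : Module.End ℂ (Hg g)) :
    FM3_C (insert s A) X = FM3_C A X * (1 + -sl s X) := by
  refine LinearMap.ext fun f => MultilinearMap.ext fun x => ?_
  show _ = FM3_C A X ((1 + -sl s X : Module.End ℂ (Fm g ι)) f) x
  rw [FM3_Ca, FM3_Ca]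
  show _ = (f + -(sl s X f)) _
  rw [MultilinearMap.add_apply, MultilinearMap.neg_apply, sl_apply]
  set y : ι → Hg g := fun i => if i ∈ A then x i - X (x i) else x i with hy
  have hys : y s = x s := by
    rw [hy]
    exact if_neg hs
  have h1 : (fun i => if i ∈ insert s A then x i - X (x i) else x i) =
      Function.update y s (x s - X (x s)) := by
    funext i
    by_cases h : i = s
    · subst h
      rw [Function.update_self, if_pos (Finset.mem_insert_self _ _)]
    · rw [Function.update_of_ne h, hy]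
      simp only [Finset.mem_insert, h, false_or]
  have h2 : f y = f (Function.update y s (x s)) := by
    rw [← hys, Function.update_eq_self]
  rw [h1, f.map_update_sub, h2, if_neg hs, sub_eq_add_neg]

private theorem FM3_cm [Fintype ι] (A : Finset ι) (s : ι) (hs : s ∉ A)
    (X : Module.End ℂ (Hg g)) : Commute (-∑ t ∈ A, sl t X) (-sl s X) := by
  have hn : ∀ A B : Module.End ℂ (Fm g ι), Commute A B → Commute (-A) (-B) :=
    fun A B h => h.neg_left.neg_right
  refine hn _ _ ?_
  refine Commute.sum_left _ _ _ fun t ht => ?_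
  have hts : t ≠ s := by
    rintro rfl
    exact hs ht
  exact FM2_comm t s hts X X

private theorem FM3_main [Fintype ι] (X : Module.End ℂ (Hg g)) (hX : X * X = 0)
    (A : Finset ι) : Lg (-∑ t ∈ A, sl t X) (FM3_C A X) := by
  induction A using Finset.induction_on with
  | empty =>
    have h1 : FM3_C (∅ : Finset ι) X = 1 := by
      refine LinearMap.ext fun f => MultilinearMap.ext fun x => ?_
      rw [FM3_Ca]
      rfl
    rw [h1, Finset.sum_empty, neg_zero]
    exact Lg.zero
  | insert s A hs ih =>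
    have hn : ∀ A B : Module.End ℂ (Fm g ι), -A * -B = A * B := fun A B => neg_mul_neg A B
    have h2 : -sl s X * -sl s X = 0 := by
      rw [hn, FM2_mul, hX]
      have h3 := FM2_sub s (0 : Module.End ℂ (Hg g)) 0
      rwa [sub_zero, sub_self] at h3
    have h4 := Lg.add (FM3_cm A s hs X) ih (Lg.sq h2)
    rw [← FM3_one A s hs X] at h4
    have h5 : -∑ t ∈ insert s A, sl t X = -∑ t ∈ A, sl t X + -sl s X := by
      rw [Finset.sum_insert hs, neg_add, add_comm]
    rw [h5]
    exact h4

/-- PROOF. For a finset A put C A = compLinearMapₗ (fun i => if i ∈ A then 1 - X else 1), so C ∅ = 1, C univ = ac (1 - X), C (insert s A) = C A * sl s (1 - X) for s ∉ A. Claim: Lg (-Σ_(s ∈ A) sl s X) (C A), by Finset.induction_on: sl s X * sl s X = sl s (X * X) = 0, so Lg (-sl s X) (1 - sl s X) (Lg.sq) and 1 - sl s X = sl s (1 - X) (sl s linear, sl s 1 = 1); Lg.add: -Σ_A sl t X commutes with -sl s X (s ∉ A; Function.update_comm). A = univ. -/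
theorem Lg_der [Fintype ι] (X : Module.End ℂ (Hg g)) (hX : X * X = 0) :
    Lg (der ι X) (ac ι (1 - X)) := by
  have h := FM3_main X hX (Finset.univ : Finset ι)
  have h1 : FM3_C (Finset.univ : Finset ι) X = ac ι (1 - X) := by
    refine LinearMap.ext fun f => MultilinearMap.ext fun x => ?_
    rw [FM3_Ca, ac_apply]
    congr 1
    funext i
    rw [if_pos (Finset.mem_univ i)]
    rfl
  rw [h1] at h
  exact h
-- END FM3

end

section

variable {g : ℕ}

/-- `a_i`: `y_i ↦ x_i`. -/
noncomputable def aH (g i : ℕ) : Module.End ℂ (Hg g) where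
  toFun v := fun c => if (c : ℕ) = 2 * i then (if h : 2 * i + 1 < 2 * g then v ⟨2 * i + 1, h⟩ else 0) else 0
  map_add' v w := by
    ext c
    simp only [Pi.add_apply]
    split_ifs <;> simp
  map_smul' r v := by
    ext c
    simp only [Pi.smul_apply, RingHom.id_apply]
    split_ifs <;> simp

/-- `b_i`: `x_i ↦ -y_i`. -/
noncomputable def bH (g i : ℕ) : Module.End ℂ (Hg g) where
  toFun v := fun c => if (c : ℕ) = 2 * i + 1 then (if h : 2 * i < 2 * g then -v ⟨2 * i, h⟩ else 0) else 0
  map_add' v w := by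
    ext c
    simp only [Pi.add_apply]
    split_ifs <;> simp [add_comm]
  map_smul' r v := by
    ext c
    simp only [Pi.smul_apply, RingHom.id_apply]
    split_ifs <;> simp

/-- `S_i`: `y_i ↦ x_(i+1)`, `y_(i+1) ↦ x_i`. -/
noncomputable def sH (g i : ℕ) : Module.End ℂ (Hg g) where
  toFun v := fun c =>
    if (c : ℕ) = 2 * i + 2 then (if h : 2 * i + 1 < 2 * g then v ⟨2 * i + 1, h⟩ else 0)
    else if (c : ℕ) = 2 * i then (if h : 2 * i + 3 < 2 * g then v ⟨2 * i + 3, h⟩ else 0) else 0
  map_add' v w := by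
    ext c
    simp only [Pi.add_apply]
    split_ifs <;> simp
  map_smul' r v := by
    ext c
    simp only [Pi.smul_apply, RingHom.id_apply]
    split_ifs <;> simp

-- MODULE FM4
private theorem FM4_a (i : ℕ) (v : Hg g) (c : Fin (2 * g)) : aH g i v c =
    if (c : ℕ) = 2 * i then (if h : 2 * i + 1 < 2 * g then v ⟨2 * i + 1, h⟩ else 0) else 0 := rfl

private theorem FM4_b (i : ℕ) (v : Hg g) (c : Fin (2 * g)) : bH g i v c =
    if (c : ℕ) = 2 * i + 1 then (if h : 2 * i < 2 * g then -v ⟨2 * i, h⟩ else 0) else 0 := rfl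

private theorem FM4_s (i : ℕ) (v : Hg g) (c : Fin (2 * g)) : sH g i v c =
    if (c : ℕ) = 2 * i + 2 then (if h : 2 * i + 1 < 2 * g then v ⟨2 * i + 1, h⟩ else 0)
    else if (c : ℕ) = 2 * i then (if h : 2 * i + 3 < 2 * g then v ⟨2 * i + 3, h⟩ else 0)
      else 0 := rfl

private theorem FM4_ae (i k : ℕ) (v : Hg g) (h : 2 * k + 1 < 2 * g) :
    aH g i v ⟨2 * k + 1, h⟩ = 0 := by
  rw [FM4_a, if_neg]
  show ¬ 2 * k + 1 = 2 * i
  omega

private theorem FM4_se (i k : ℕ) (v : Hg g) (h : 2 * k + 1 < 2 * g) :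
    sH g i v ⟨2 * k + 1, h⟩ = 0 := by
  rw [FM4_s, if_neg, if_neg]
  · show ¬ 2 * k + 1 = 2 * i
    omega
  · show ¬ 2 * k + 1 = 2 * i + 2
    omega

private theorem FM4_be (i k : ℕ) (v : Hg g) (h : 2 * k < 2 * g) :
    bH g i v ⟨2 * k, h⟩ = 0 := by
  rw [FM4_b, if_neg]
  show ¬ 2 * k = 2 * i + 1
  omega

private theorem FM4_az (i : ℕ) (v : Hg g) (h : ∀ k (h : 2 * k + 1 < 2 * g), v ⟨2 * k + 1, h⟩ = 0) :
    aH g i v = 0 := by
  funext c
  rw [FM4_a]
  show _ = (0 : ℂ)
  split_ifs with h1 h2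
  · exact h i h2
  · rfl
  · rfl

private theorem FM4_sz (i : ℕ) (v : Hg g) (h : ∀ k (h : 2 * k + 1 < 2 * g), v ⟨2 * k + 1, h⟩ = 0) :
    sH g i v = 0 := by
  funext c
  rw [FM4_s]
  show _ = (0 : ℂ)
  split_ifs with h1 h2 h3 h4
  · exact h i h2
  · rfl
  · exact h (i + 1) h4
  · rfl
  · rfl

private theorem FM4_bz (i : ℕ) (v : Hg g) (h : ∀ k (h : 2 * k < 2 * g), v ⟨2 * k, h⟩ = 0) :
    bH g i v = 0 := by
  funext c
  rw [FM4_b]
  show _ = (0 : ℂ)
  split_ifs with h1 h2
  · rw [h i h2, neg_zero]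
  · rfl
  · rfl

/-- PROOF. Pointwise: (aH (aH v)) c is 0 or (aH v) (2i+1) = 0, etc.; e = a_i + a_(i+1) - S_i: e v = (v(2i+1) - v(2i+3)) (x_i - x_(i+1)), and e v has no y coordinates, so e (e v) = 0. -/
theorem aH_sq (i : ℕ) : aH g i * aH g i = 0 := by
  refine LinearMap.ext fun v => ?_
  show aH g i (aH g i v) = 0
  exact FM4_az i _ fun k h => FM4_ae i k v h

theorem bH_sq (i : ℕ) : bH g i * bH g i = 0 := by
  refine LinearMap.ext fun v => ?_
  show bH g i (bH g i v) = 0
  exact FM4_bz i _ fun k h => FM4_be i k v h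

theorem eH_sq (i : ℕ) : (aH g i + aH g (i + 1) - sH g i) * (aH g i + aH g (i + 1) - sH g i) = 0 := by
  refine LinearMap.ext fun v => ?_
  show aH g i (aH g i v + aH g (i + 1) v - sH g i v) +
    aH g (i + 1) (aH g i v + aH g (i + 1) v - sH g i v) -
    sH g i (aH g i v + aH g (i + 1) v - sH g i v) = 0
  have h : ∀ k (h : 2 * k + 1 < 2 * g),
      (aH g i v + aH g (i + 1) v - sH g i v) ⟨2 * k + 1, h⟩ = 0 := by
    intro k h
    rw [Pi.sub_apply, Pi.add_apply, FM4_ae, FM4_ae, FM4_se, add_zero, sub_zero]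
  rw [FM4_az i _ h, FM4_az (i + 1) _ h, FM4_sz i _ h, add_zero, sub_zero]
-- END FM4

/-- The blocks: for each `k < g`, `p k` blocks of size `k + 1`. -/
abbrev Bk (g : ℕ) (p : ℕ → ℕ) : Type := Σ k : Fin g, Fin (p k)

/-- The arguments of the form: position `q ≤ k` in a block of size `k + 1`. -/
abbrev Ix (g : ℕ) (p : ℕ → ℕ) : Type := Σ b : Bk g p, Fin ((b.1 : ℕ) + 1)

/-- The matrix of the `y` coordinates of the arguments in the block `b`. -/
def ym {g : ℕ} {p : ℕ → ℕ} (x : Ix g p → Hg g) (b : Bk g p) :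
    Matrix (Fin ((b.1 : ℕ) + 1)) (Fin ((b.1 : ℕ) + 1)) ℂ :=
  Matrix.of fun r q => x ⟨b, q⟩ ⟨2 * (r : ℕ) + 1, by have := b.1.2; have := r.2; omega⟩

-- MODULE FM5
/-- PROOF. b ≠ s.1: nothing changes. b = s.1: the column s.2 is replaced by the y coordinates of w (Matrix.updateCol). -/
theorem ym_update_ne {p : ℕ → ℕ} (x : Ix g p → Hg g) (s : Ix g p) (w : Hg g) (b : Bk g p)
    (hb : b ≠ s.1) : ym (Function.update x s w) b = ym x b := by
  refine Matrix.ext fun r q => ?_
  show Function.update x s w ⟨b, q⟩ _ = x ⟨b, q⟩ _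
  rw [Function.update_of_ne]
  rintro rfl
  exact hb rfl

theorem ym_update {p : ℕ → ℕ} (x : Ix g p → Hg g) (b : Bk g p) (q : Fin ((b.1 : ℕ) + 1))
    (w : Hg g) : ym (Function.update x ⟨b, q⟩ w) b = (ym x b).updateCol q
      (fun r => w ⟨2 * (r : ℕ) + 1, by have := b.1.2; have := r.2; omega⟩) := by
  refine Matrix.ext fun r q' => ?_
  rw [Matrix.updateCol_apply]
  show Function.update x ⟨b, q⟩ w ⟨b, q'⟩ _ = _
  by_cases h : q' = q
  · subst h
    rw [if_pos rfl, Function.update_self]
  · rw [if_neg h, Function.update_of_ne]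
    · rfl
    · intro h'
      apply h
      injection h' with h1 h2

private theorem FM5_prod {p : ℕ → ℕ} (x : Ix g p → Hg g) (b : Bk g p)
    (q : Fin ((b.1 : ℕ) + 1)) (w : Hg g) :
    ∏ b' : Bk g p, (ym (Function.update x ⟨b, q⟩ w) b').det =
      ((ym x b).updateCol q
        (fun r => w ⟨2 * (r : ℕ) + 1, by have := b.1.2; have := r.2; omega⟩)).det *
      ∏ b' ∈ Finset.univ.erase b, (ym x b').det := by
  rw [← Finset.mul_prod_erase Finset.univ _ (Finset.mem_univ b), ym_update]
  congr 1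
  refine Finset.prod_congr rfl fun b' hb' => ?_
  rw [ym_update_ne x ⟨b, q⟩ w b' (Finset.ne_of_mem_erase hb')]

/-- The product of the determinants of the blocks, as a multilinear form.
PROOF. MultilinearMap.mk' (or the structure) with value ∏ b, (ym x b).det; for the argument s = ⟨b0, q⟩: Finset.prod over b: split off b0 (Fintype.prod_eq_mul_prod_compl or Finset.mul_prod_erase); ym_update_ne for the others, ym_update and Matrix.det_updateCol_add, det_updateCol_smul for b0. -/
theorem exists_tf (g : ℕ) (p : ℕ → ℕ) :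
    ∃ t : Fm g (Ix g p), ∀ x, t x = ∏ b : Bk g p, (ym x b).det := by
  refine ⟨MultilinearMap.mk' (fun x => ∏ b : Bk g p, (ym x b).det) ?_ ?_, fun x => rfl⟩
  · rintro x ⟨b, q⟩ v w
    rw [FM5_prod, FM5_prod, FM5_prod, ← add_mul]
    congr 1
    rw [← Matrix.det_updateCol_add]
    rfl
  · rintro x ⟨b, q⟩ c w
    rw [FM5_prod, FM5_prod, smul_eq_mul, ← mul_assoc]
    congr 1
    rw [← Matrix.det_updateCol_smul]
    rfl
-- END FM5

/-- The product of determinants. -/
noncomputable def tf (g : ℕ) (p : ℕ → ℕ) : Fm g (Ix g p) := (exists_tf g p).choose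

theorem tf_apply (p : ℕ → ℕ) (x : Ix g p → Hg g) : tf g p x = ∏ b : Bk g p, (ym x b).det :=
  (exists_tf g p).choose_spec x

-- MODULE FM6
/-- PROOF. x ⟨b, q⟩ = the basis vector y_q (coordinate 2q+1): all matrices are 1, the value is 1. -/
theorem tf_ne (p : ℕ → ℕ) : tf g p ≠ 0 := by
  intro h0
  have h1 := tf_apply (g := g) p (fun s => Pi.single ⟨2 * (s.2 : ℕ) + 1, by
    have := s.1.1.2; have := s.2.2; omega⟩ (1 : ℂ))
  rw [h0, Finset.prod_eq_one] at h1
  · exact zero_ne_one h1
  · intro b _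
    have h2 : ym (p := p) (fun s : Ix g p => (Pi.single ⟨2 * (s.2 : ℕ) + 1, by
        have := s.1.1.2; have := s.2.2; omega⟩ (1 : ℂ) : Hg g)) b = 1 := by
      refine Matrix.ext fun r q => ?_
      show (Pi.single _ (1 : ℂ) : Hg g) _ = _
      rw [Pi.single_apply, Matrix.one_apply]
      congr 1
      refine propext ⟨fun h => ?_, fun h => ?_⟩
      · have h3 := congrArg Fin.val h
        refine Fin.ext ?_
        have h4 : 2 * (r : ℕ) + 1 = 2 * (q : ℕ) + 1 := h3
        omega
      · subst h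
        rfl
    rw [h2, Matrix.det_one]
-- END FM6

-- MODULE FM7
/-- PROOF. Matrix.cramer: det (M.updateCol q v) = (adjugate M * v) q (Matrix.cramer_apply, Matrix.cramer_eq_adjugate_mulVec): the sum is trace (adjugate M * (C * M)) = trace (C * M * adjugate M) = trace C * det M (Matrix.mul_adjugate, trace_mul_comm, trace_smul). -/
theorem sum_det {m : ℕ} (M C : Matrix (Fin m) (Fin m) ℂ) :
    ∑ q, (M.updateCol q (fun r => (C * M) r q)).det = C.trace * M.det := by
  have h1 : ∀ q, (M.updateCol q (fun r => (C * M) r q)).det = (M.adjugate * (C * M)) q q := by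
    intro q
    rw [← Matrix.cramer_apply, Matrix.cramer_eq_adjugate_mulVec]
    rfl
  have h2 : ∑ q, (M.adjugate * (C * M)) q q = (M.adjugate * (C * M)).trace := rfl
  rw [Finset.sum_congr rfl fun q _ => h1 q, h2, Matrix.trace_mul_comm, Matrix.mul_assoc,
    Matrix.mul_adjugate, Matrix.mul_smul, Matrix.mul_one, Matrix.trace_smul, smul_eq_mul, mul_comm]
-- END FM7

-- MODULE FM8
/-- If `X` acts on the `y` coordinates of every block by a matrix, `der X` multiplies the form by minus the sum of the traces.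
PROOF. ext x; der_apply, tf_apply; the sum over s = ⟨b, q⟩ (Fintype.sum_sigma): for s = ⟨b, q⟩ the product over b' is (∏_(b' ≠ b) det) * det ((ym x b).updateCol q (C b * ym x b) q) by ym_update_ne, ym_update and hC; sum over q by sum_det; so the total is -Σ_b trace (C b) * ∏ det. -/
theorem der_tf (p : ℕ → ℕ) (X : Module.End ℂ (Hg g))
    (C : (b : Bk g p) → Matrix (Fin ((b.1 : ℕ) + 1)) (Fin ((b.1 : ℕ) + 1)) ℂ)
    (hC : ∀ (b : Bk g p) (v : Hg g) (r : Fin ((b.1 : ℕ) + 1)),
      X v ⟨2 * (r : ℕ) + 1, by have := b.1.2; have := r.2; omega⟩ =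
      ∑ r' : Fin ((b.1 : ℕ) + 1), C b r r' *
        v ⟨2 * (r' : ℕ) + 1, by have := b.1.2; have := r'.2; omega⟩) :
    der (Ix g p) X (tf g p) = (-∑ b : Bk g p, (C b).trace) • tf g p := by
  refine MultilinearMap.ext fun x => ?_
  rw [der_apply, MultilinearMap.smul_apply, tf_apply, smul_eq_mul, neg_mul, Fintype.sum_sigma,
    Finset.sum_mul]
  congr 1
  refine Finset.sum_congr rfl fun b _ => ?_
  have h1 : ∀ q : Fin ((b.1 : ℕ) + 1), tf g p (Function.update x ⟨b, q⟩ (X (x ⟨b, q⟩))) =
      ((ym x b).updateCol q (fun r => (C b * ym x b) r q)).det *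
      ∏ b' ∈ Finset.univ.erase b, (ym x b').det := by
    intro q
    rw [tf_apply, FM5_prod]
    congr 3
    funext r
    rw [hC b, Matrix.mul_apply]
    rfl
  rw [Finset.sum_congr rfl fun q _ => h1 q, ← Finset.sum_mul, sum_det, mul_assoc,
    Finset.mul_prod_erase Finset.univ (fun b' => (ym x b').det) (Finset.mem_univ b)]
-- END FM8

-- MODULE FM9
private theorem FM9_d (p : ℕ → ℕ) (X : Module.End ℂ (Hg g)) (i : ℕ)
    (hX : ∀ (v : Hg g) (r : ℕ) (hr : 2 * r + 1 < 2 * g), X v ⟨2 * r + 1, hr⟩ =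
      if r = i then -v ⟨2 * r + 1, hr⟩ else 0) :
    der (Ix g p) X (tf g p) = (∑ b : Bk g p, if i ≤ (b.1 : ℕ) then (1 : ℂ) else 0) • tf g p := by
  rw [der_tf p X (fun b => Matrix.diagonal fun r => if (r : ℕ) = i then (-1 : ℂ) else 0)]
  · congr 1
    rw [← Finset.sum_neg_distrib]
    refine Finset.sum_congr rfl fun b _ => ?_
    rw [Matrix.trace_diagonal]
    split_ifs with h
    · rw [Finset.sum_eq_single (⟨i, Nat.lt_succ_of_le h⟩ : Fin ((b.1 : ℕ) + 1)), if_pos rfl,
        neg_neg]
      · intro r _ hr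
        rw [if_neg]
        intro h1
        exact hr (Fin.ext h1)
      · intro h1
        exact absurd (Finset.mem_univ _) h1
    · rw [Finset.sum_eq_zero, neg_zero]
      intro r _
      rw [if_neg]
      have := r.2
      omega
  · intro b v r
    rw [hX, Finset.sum_eq_single r, Matrix.diagonal_apply_eq]
    · split_ifs with h
      · rw [neg_one_mul]
      · rw [zero_mul]
    · intro r' _ hr'
      rw [Matrix.diagonal_apply_ne _ hr'.symm, zero_mul]
    · intro h1
      exact absurd (Finset.mem_univ _) h1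

private theorem FM9_e (p : ℕ → ℕ) (X : Module.End ℂ (Hg g)) (k : ℕ)
    (hX : ∀ (v : Hg g) (r : ℕ) (hr : 2 * r + 1 < 2 * g), X v ⟨2 * r + 1, hr⟩ =
      if r = k + 1 then (if h : 2 * k + 1 < 2 * g then -v ⟨2 * k + 1, h⟩ else 0) else 0) :
    der (Ix g p) X (tf g p) = 0 := by
  rw [der_tf p X (fun b => Matrix.of fun r r' =>
    if (r : ℕ) = k + 1 ∧ (r' : ℕ) = k then (-1 : ℂ) else 0)]
  · rw [Finset.sum_eq_zero, neg_zero, zero_smul]
    intro b _
    refine Finset.sum_eq_zero fun r _ => ?_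
    show (if (r : ℕ) = k + 1 ∧ (r : ℕ) = k then (-1 : ℂ) else 0) = 0
    rw [if_neg]
    omega
  · intro b v r
    rw [hX]
    split_ifs with h h1
    · have hr := r.2
      rw [Finset.sum_eq_single (⟨k, by omega⟩ : Fin ((b.1 : ℕ) + 1))]
      · show _ = (if (r : ℕ) = k + 1 ∧ k = k then (-1 : ℂ) else 0) * _
        rw [if_pos ⟨h, rfl⟩, neg_one_mul]
      · intro r' _ hr'
        show (if (r : ℕ) = k + 1 ∧ (r' : ℕ) = k then (-1 : ℂ) else 0) * _ = 0
        rw [if_neg, zero_mul]
        rintro ⟨_, h2⟩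
        exact hr' (Fin.ext h2)
      · intro h1
        exact absurd (Finset.mem_univ _) h1
    · exfalso
      have := r.2
      have := b.1.2
      omega
    · symm
      refine Finset.sum_eq_zero fun r' _ => ?_
      show (if (r : ℕ) = k + 1 ∧ (r' : ℕ) = k then (-1 : ℂ) else 0) * _ = 0
      rw [if_neg, zero_mul]
      rintro ⟨h1, _⟩
      exact h h1

/-- PROOF. cE g aH bH sH k for k + 1 < g is ⁅bH (k+1), sH k⁆: v ↦ -v(2k+1) y_(k+1) + v(2k+2) x_k; its y coordinate r is -v(2k+1) if r = k + 1, else 0: C b r r' = if r = k+1 and r' = k then -1 else 0, trace 0 (if r = k + 1 ≤ size then r' = k is an index too). k + 1 = g: aH k has no y coordinates: C = 0. -/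
theorem cEH (p : ℕ → ℕ) (k : ℕ) (hk : k < g) :
    der (Ix g p) (cE g (aH g) (bH g) (sH g) k) (tf g p) = 0 := by
  unfold cE
  split_ifs with h
  · refine FM9_e p _ k ?_
    intro v r hr
    rw [LieRing.of_associative_ring_bracket]
    show bH g (k + 1) (sH g k v) ⟨2 * r + 1, hr⟩ - sH g k (bH g (k + 1) v) ⟨2 * r + 1, hr⟩ = _
    rw [FM4_se, sub_zero, FM4_b]
    by_cases h1 : r = k + 1
    · subst h1
      rw [if_pos rfl, if_pos rfl, dif_pos (show 2 * (k + 1) < 2 * g by omega), FM4_s,
        if_pos (show 2 * (k + 1) = 2 * k + 2 by ring)]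
      split_ifs with h2
      · rfl
      · rw [neg_zero]
    · rw [if_neg h1, if_neg]
      show ¬ 2 * r + 1 = 2 * (k + 1) + 1
      omega
  · refine FM9_e p _ k ?_
    intro v r hr
    rw [FM4_ae, if_neg]
    omega

/-- PROOF. cH i = ⁅bH i, aH i⁆: v ↦ -v(2i+1) y_i + v(2i) x_i; y coordinate r: -v(2i+1) if r = i, else 0: C b = -(diagonal unit at i), trace -1 if i ≤ b.1, else 0. The sum over the blocks b = ⟨k, _⟩ of [i ≤ k] is Σ over k in [i, g) of p k (Fintype.sum_sigma, Finset.sum_const, card of Fin (p k)). -/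
theorem cHH (p : ℕ → ℕ) (i : ℕ) (hi : i < g) :
    der (Ix g p) (cH (aH g) (bH g) i) (tf g p) = (∑ k ∈ Finset.Ico i g, (p k : ℂ)) • tf g p := by
  rw [FM9_d p _ i]
  · congr 1
    rw [Fintype.sum_sigma]
    have h1 : ∀ k : Fin g, (∑ _y : Fin (p k), if i ≤ (k : ℕ) then (1 : ℂ) else 0) =
        if i ≤ (k : ℕ) then (p k : ℂ) else 0 := by
      intro k
      rw [Finset.sum_const, Finset.card_univ, Fintype.card_fin]
      split_ifs
      · rw [nsmul_eq_mul, mul_one]
      · rw [smul_zero]
    rw [Finset.sum_congr rfl fun k _ => h1 k,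
      Fin.sum_univ_eq_sum_range (fun k => if i ≤ k then (p k : ℂ) else 0) g,
      ← Finset.sum_filter]
    refine Finset.sum_congr ?_ fun _ _ => rfl
    ext k
    rw [Finset.mem_filter, Finset.mem_range, Finset.mem_Ico]
    tauto
  · intro v r hr
    unfold cH
    rw [LieRing.of_associative_ring_bracket]
    show bH g i (aH g i v) ⟨2 * r + 1, hr⟩ - aH g i (bH g i v) ⟨2 * r + 1, hr⟩ = _
    rw [FM4_ae, sub_zero, FM4_b]
    by_cases h1 : r = i
    · subst h1
      rw [if_pos rfl, if_pos rfl, dif_pos (show 2 * r < 2 * g by omega), FM4_a, if_pos rfl,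
        dif_pos hr]
    · rw [if_neg h1, if_neg]
      show ¬ 2 * r + 1 = 2 * i + 1
      omega
-- END FM9

end

end Pool.Agent.EG80
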