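import Pool.Agent.HG13.Sys

set_option linter.all false

namespace Pool.Agent.EG80

open Pool.Agent.HG13

/-- A chain `x - y - z - b - a` (neighbours satisfy the braid relation, the others commute) with
`(x x z y)³ = a²` and `(x x x y)³ = 1`. -/
structure Q5 {G : Type*} [Group G] (x y z b a : G) : Prop where
  xy : x * y * x = y * x * y
  yz : y * z * y = z * y * z
  zb : z * b * z = b * z * b
  ba : b * a * b = a * b * a
  xz : x * z = z * x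
  xb : x * b = b * x
  xa : x * a = a * x
  yb : y * b = b * y
  ya : y * a = a * y
  za : z * a = a * z
  c3 : (x * x * z * y) ^ 3 = a ^ 2
  c2 : (x * x * x * y) ^ 3 = 1

/-- The element `s = (x y z y⁻¹ x⁻¹) a⁻¹ y⁻¹`. -/
def sg {G : Type*} [Group G] (x y z a : G) : G := x * y * z * y⁻¹ * x⁻¹ * a⁻¹ * y⁻¹

section

variable {G : Type*} [Group G] {x y z b a : G}

-- MODULE QG1
/-- `D = (x y)³` satisfies `D = x² (y x² y)`, commutes with `x` and `y`, and `D² = (x³ y)³`.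
PROOF. e = x y x = y x y: x e = e y, y e = e x, D = e ^ 2, so D commutes with x, y; D = (x y x)(x y x) = x (y x x y) x, conjugate by x: D = x x (y x x y) (D commutes with x). x ^ 3 y = x ^ 2 e x⁻¹ (x y = e x⁻¹), so (x ^ 3 y)^3 = x ^ 2 e x e x e x⁻¹ = x ^ 2 y e e x e x⁻¹ (e x = y e) = D x (x y x) e x⁻¹ = D x D x⁻¹ = D ^ 2. -/
theorem full (h : x * y * x = y * x * y) :
    (x * y) ^ 3 = x * x * (y * x * x * y) ∧ Commute ((x * y) ^ 3) x ∧ Commute ((x * y) ^ 3) y ∧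
    (x * x * x * y) ^ 3 = (x * y) ^ 3 * (x * y) ^ 3 := by
  have hx : x * (x * y * x) = x * y * x * y := by
    conv_lhs => rw [h]
    group
  have hy : y * (x * y * x) = x * y * x * x := by
    calc y * (x * y * x) = y * x * y * x := by group
      _ = x * y * x * x := by rw [← h]
  have hD : (x * y) ^ 3 = (x * y * x) * (x * y * x) := by
    calc (x * y) ^ 3 = (x * y * x) * (y * x * y) := by rw [pow_three]; group
      _ = _ := by rw [← h]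
  have hDx : (x * y) ^ 3 * x = x * (x * y) ^ 3 := by
    rw [hD]
    calc (x * y * x) * (x * y * x) * x = (x * y * x) * ((x * y * x) * x) := by group
      _ = (x * y * x) * (y * (x * y * x)) := by rw [← hy]
      _ = ((x * y * x) * y) * (x * y * x) := by group
      _ = (x * (x * y * x)) * (x * y * x) := by rw [← hx]
      _ = _ := by group
  have hDy : (x * y) ^ 3 * y = y * (x * y) ^ 3 := by
    rw [hD]
    calc (x * y * x) * (x * y * x) * y = (x * y * x) * ((x * y * x) * y) := by group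
      _ = (x * y * x) * (x * (x * y * x)) := by rw [← hx]
      _ = ((x * y * x) * x) * (x * y * x) := by group
      _ = (y * (x * y * x)) * (x * y * x) := by rw [← hy]
      _ = _ := by group
  refine ⟨?_, hDx, hDy, ?_⟩
  · have h1 : (x * y) ^ 3 = x * (x * y) ^ 3 * x⁻¹ := by rw [← hDx]; group
    rw [h1, hD]
    group
  · have h2 : (x * y) ^ 3 * (x * y) ^ 3 = x * ((x * y) ^ 3 * (x * y) ^ 3) * x⁻¹ := by
      calc (x * y) ^ 3 * (x * y) ^ 3 = (x * y) ^ 3 * ((x * y) ^ 3 * x) * x⁻¹ := by group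
        _ = (x * y) ^ 3 * (x * (x * y) ^ 3) * x⁻¹ := by rw [hDx]
        _ = ((x * y) ^ 3 * x) * (x * y) ^ 3 * x⁻¹ := by group
        _ = (x * (x * y) ^ 3) * (x * y) ^ 3 * x⁻¹ := by rw [hDx]
        _ = _ := by group
    rw [h2, hD]
    calc (x * x * x * y) ^ 3 =
        x * x * (((x * y * x) * x) * (x * y * x)) * (x * (x * y * x)) * x⁻¹ := by
          rw [pow_three]; group
      _ = x * x * ((y * (x * y * x)) * (x * y * x)) * (x * (x * y * x)) * x⁻¹ := by rw [← hy]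
      _ = x * x * y * ((x * y * x) * ((x * y * x) * x)) * (x * y * x) * x⁻¹ := by group
      _ = x * x * y * ((x * y * x) * (y * (x * y * x))) * (x * y * x) * x⁻¹ := by rw [← hy]
      _ = x * x * y * (((x * y * x) * y) * (x * y * x)) * (x * y * x) * x⁻¹ := by group
      _ = x * x * y * ((x * (x * y * x)) * (x * y * x)) * (x * y * x) * x⁻¹ := by rw [← hx]
      _ = _ := by group
-- END QG1

-- MODULE QG2
/-- `(D z D⁻¹) z = a² x²`, `D = (x y)³`.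
PROOF. full: y x x y = x⁻² D. (x x z y)^3 = x x z (y x x y) (y⁻¹ z y) x x z y = x x z x⁻² D (z y z⁻¹) x x z y (y⁻¹ z y = z y z⁻¹) = z D z y x x y (x commutes with z) = z D z x⁻² D = x⁻² z D z D. So z D z D = x ^ 2 a ^ 2 (c3), conjugate by D (commutes with x, a): D z D z = a ^ 2 x ^ 2; D D = 1 (c2 and full), so D z D = D z D⁻¹. -/
theorem Q5.pl (h : Q5 x y z b a) :
    ((x * y) ^ 3 * z * ((x * y) ^ 3)⁻¹) * z = a ^ 2 * x ^ 2 := by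
  obtain ⟨f1, f2, f3, f4⟩ := full h.xy
  have hDD : (x * y) ^ 3 * (x * y) ^ 3 = 1 := by rw [← f4, h.c2]
  have hyx : y * x * x * y = x⁻¹ * x⁻¹ * (x * y) ^ 3 := by rw [f1]; group
  have hz : y⁻¹ * z * y = z * y * z⁻¹ := by
    rw [eq_mul_inv_iff_mul_eq]
    calc y⁻¹ * z * y * z = y⁻¹ * (z * y * z) := by group
      _ = y⁻¹ * (y * z * y) := by rw [h.yz]
      _ = z * y := by group
  have hzx : z * (x⁻¹ * x⁻¹) = x⁻¹ * x⁻¹ * z := by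
    have e : Commute z x := h.xz.symm
    exact (e.inv_right.mul_right e.inv_right).eq
  have hzx' : z⁻¹ * (x * x) = x * x * z⁻¹ := by
    have e : Commute z x := h.xz.symm
    exact (e.mul_right e).inv_left.eq
  have hDx : (x * y) ^ 3 * (x⁻¹ * x⁻¹) = x⁻¹ * x⁻¹ * (x * y) ^ 3 :=
    (f2.inv_right.mul_right f2.inv_right).eq
  have h3 := h.c3
  have h4 : (x * x * z * y) ^ 3 = z * (x * y) ^ 3 * z * (x * y) ^ 3 * (x⁻¹ * x⁻¹) := by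
    calc (x * x * z * y) ^ 3 =
        x * x * z * (y * x * x * y) * (y⁻¹ * z * y) * (x * x) * (z * y) := by
          rw [pow_three]; group
      _ = x * x * z * (x⁻¹ * x⁻¹ * (x * y) ^ 3) * (z * y * z⁻¹) * (x * x) * (z * y) := by
        rw [hyx, hz]
      _ = x * x * (z * (x⁻¹ * x⁻¹)) * (x * y) ^ 3 * (z * y) * (z⁻¹ * (x * x)) * (z * y) := by
        group
      _ = x * x * (x⁻¹ * x⁻¹ * z) * (x * y) ^ 3 * (z * y) * (x * x * z⁻¹) * (z * y) := by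
        rw [hzx, hzx']
      _ = z * (x * y) ^ 3 * z * (y * x * x * y) := by group
      _ = z * (x * y) ^ 3 * z * (x⁻¹ * x⁻¹ * (x * y) ^ 3) := by rw [hyx]
      _ = z * (x * y) ^ 3 * z * ((x * y) ^ 3 * (x⁻¹ * x⁻¹)) := by rw [hDx]
      _ = _ := by group
  rw [h4] at h3
  have h5 : z * (x * y) ^ 3 * z * (x * y) ^ 3 = a ^ 2 * x ^ 2 := by
    rw [← h3]
    group
  have hinv : ((x * y) ^ 3)⁻¹ = (x * y) ^ 3 := inv_eq_of_mul_eq_one_left hDD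
  have hDa : Commute ((x * y) ^ 3) (a ^ 2 * x ^ 2) := by
    have e1 : Commute x a := h.xa
    have e2 : Commute y a := h.ya
    exact (((e1.mul_left e2).pow_left 3).pow_right 2).mul_right (f2.pow_right 2)
  calc (x * y) ^ 3 * z * ((x * y) ^ 3)⁻¹ * z = (x * y) ^ 3 * z * (x * y) ^ 3 * z := by rw [hinv]
    _ = (x * y) ^ 3 * (z * (x * y) ^ 3 * z * (x * y) ^ 3) * ((x * y) ^ 3)⁻¹ := by group
    _ = (x * y) ^ 3 * (a ^ 2 * x ^ 2) * ((x * y) ^ 3)⁻¹ := by rw [h5]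
    _ = (a ^ 2 * x ^ 2) * (x * y) ^ 3 * ((x * y) ^ 3)⁻¹ := by rw [hDa.eq]
    _ = a ^ 2 * x ^ 2 := by group
-- END QG2

-- MODULE QG3
private theorem QG3_ca (h : Q5 x y z b a) : Commute (x * y * z * y⁻¹ * x⁻¹) a := by
  have e1 : Commute x a := h.xa
  have e2 : Commute y a := h.ya
  have e3 : Commute z a := h.za
  exact (((e1.mul_left e2).mul_left e3).mul_left e2.inv_left).mul_left e1.inv_left

private theorem QG3_cy (h : Q5 x y z b a) : Commute (x * y * z * y⁻¹ * x⁻¹) y := by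
  have h1 : y * (x * y) = (x * y) * x := by
    calc y * (x * y) = y * x * y := by group
      _ = x * y * x := by rw [← h.xy]
  have h2 : x⁻¹ * (x * y)⁻¹ = (x * y)⁻¹ * y⁻¹ := by
    rw [← mul_inv_rev, ← mul_inv_rev, h1]
  have h3 : y⁻¹ * x⁻¹ * y = x * (y⁻¹ * x⁻¹) := by
    calc y⁻¹ * x⁻¹ * y = x * (x⁻¹ * (x * y)⁻¹) * y := by group
      _ = x * ((x * y)⁻¹ * y⁻¹) * y := by rw [h2]
      _ = x * (y⁻¹ * x⁻¹) := by group
  show x * y * z * y⁻¹ * x⁻¹ * y = y * (x * y * z * y⁻¹ * x⁻¹)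
  calc x * y * z * y⁻¹ * x⁻¹ * y = x * y * z * (y⁻¹ * x⁻¹ * y) := by group
    _ = x * y * z * (x * (y⁻¹ * x⁻¹)) := by rw [h3]
    _ = x * y * (z * x) * (y⁻¹ * x⁻¹) := by group
    _ = x * y * (x * z) * (y⁻¹ * x⁻¹) := by rw [h.xz]
    _ = (x * y) * x * z * (y⁻¹ * x⁻¹) := by group
    _ = y * (x * y) * z * (y⁻¹ * x⁻¹) := by rw [h1]
    _ = _ := by group

private theorem QG3_sg (x y z a : G) : sg x y z a = (x * y * z * y⁻¹ * x⁻¹) * a⁻¹ * y⁻¹ := rfl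

/-- PROOF. c = (x y) z (x y)⁻¹; a commutes with x, y, z, so with c, and with y. -/
theorem Q5.sa (h : Q5 x y z b a) : Commute (sg x y z a) a := by
  have e2 : Commute y a := h.ya
  exact ((QG3_ca h).mul_left ((Commute.refl a).inv_left)).mul_left e2.inv_left

/-- PROOF. (x y)⁻¹ y (x y) = x (braid relation), and x commutes with z, so y commutes with c = (x y) z (x y)⁻¹; y commutes with a. -/
theorem Q5.sy (h : Q5 x y z b a) : Commute (sg x y z a) y := by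
  have e2 : Commute a y := (h.ya).symm
  exact ((QG3_cy h).mul_left e2.inv_left).mul_left ((Commute.refl y).inv_left)

private theorem QG3_b1 {u v : G} (h : u * v * u = v * u * v) : v⁻¹ * u * v = u * v * u⁻¹ := by
  rw [eq_mul_inv_iff_mul_eq]
  calc v⁻¹ * u * v * u = v⁻¹ * (u * v * u) := by group
    _ = v⁻¹ * (v * u * v) := by rw [h]
    _ = u * v := by group

/-- PROOF. y⁻¹ x y = x y x⁻¹, a commutes with x, y: s x s⁻¹ = c (x y x⁻¹) c⁻¹ = (x y) z (x y)⁻¹ (x y x⁻¹) (x y) z⁻¹ (x y)⁻¹ = (x y) z y z⁻¹ (x y)⁻¹ ((x y)⁻¹ (x y x⁻¹) (x y) = y) = (x y) y⁻¹ z y (x y)⁻¹ = x z x⁻¹ = z. -/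
theorem Q5.sx (h : Q5 x y z b a) : sg x y z a * x * (sg x y z a)⁻¹ = z := by
  have ha : Commute (y⁻¹ * x * y) a := by
    have e1 : Commute x a := h.xa
    have e2 : Commute y a := h.ya
    exact (e2.inv_left.mul_left e1).mul_left e2
  calc sg x y z a * x * (sg x y z a)⁻¹
      = (x * y * z * y⁻¹ * x⁻¹) * (a⁻¹ * ((y⁻¹ * x * y) * a)) * (x * y * z * y⁻¹ * x⁻¹)⁻¹ := by
        unfold sg; group
    _ = (x * y * z * y⁻¹ * x⁻¹) * (a⁻¹ * (a * (y⁻¹ * x * y))) * (x * y * z * y⁻¹ * x⁻¹)⁻¹ := by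
        rw [ha.eq]
    _ = (x * y * z * y⁻¹ * x⁻¹) * (y⁻¹ * x * y) * (x * y * z * y⁻¹ * x⁻¹)⁻¹ := by group
    _ = (x * y * z * y⁻¹ * x⁻¹) * (x * y * x⁻¹) * (x * y * z * y⁻¹ * x⁻¹)⁻¹ := by
        rw [QG3_b1 h.xy]
    _ = x * y * (z * y * z⁻¹) * (x * y)⁻¹ := by group
    _ = x * y * (y⁻¹ * z * y) * (x * y)⁻¹ := by rw [← QG3_b1 h.yz.symm]
    _ = x * z * x⁻¹ := by group
    _ = z := by rw [h.xz]; group

/-- PROOF. s⁻¹ x s = y a c⁻¹ x c a⁻¹ y⁻¹ = y (c⁻¹ x c) y⁻¹ (a commutes with x, y, c). c⁻¹ x c = (x y) z⁻¹ ((x y)⁻¹ x (x y)) z (x y)⁻¹, (x y)⁻¹ x (x y) = x y x⁻¹, z commutes with x: z⁻¹ x y x⁻¹ z = x (z⁻¹ y z) x⁻¹ = x (y z y⁻¹) x⁻¹. So s⁻¹ x s = w z w⁻¹, w = y (x y) x y = y x y x y = x⁻¹ D, D = (x y)^3: = x⁻¹ D z D⁻¹ x = D x⁻¹ z x D⁻¹ = D z D⁻¹ (D commutes with x by full, x with z). With Q5.pl. -/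
theorem Q5.sx' (h : Q5 x y z b a) :
    ((sg x y z a)⁻¹ * x * sg x y z a) * z = a ^ 2 * x ^ 2 := by
  obtain ⟨f1, f2, f3, f4⟩ := full h.xy
  have ha : Commute ((x * y * z * y⁻¹ * x⁻¹)⁻¹ * x * (x * y * z * y⁻¹ * x⁻¹)) a := by
    have e1 : Commute x a := h.xa
    exact ((QG3_ca h).inv_left.mul_left e1).mul_left (QG3_ca h)
  have hzx : z⁻¹ * x = x * z⁻¹ := by
    have e : Commute z x := h.xz.symm
    exact e.inv_left.eq
  have hxz : x⁻¹ * z = z * x⁻¹ := by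
    have e : Commute x z := h.xz
    exact e.inv_left.eq
  have hw : y * (x * y) * x * y = (x * y) ^ 3 * x⁻¹ := by
    rw [(f2.inv_right).eq, pow_three]
    group
  have hb : z⁻¹ * y * z = y * z * y⁻¹ := QG3_b1 h.yz
  have key : (sg x y z a)⁻¹ * x * sg x y z a = (x * y) ^ 3 * z * ((x * y) ^ 3)⁻¹ := by
    calc (sg x y z a)⁻¹ * x * sg x y z a
        = y * (a * ((x * y * z * y⁻¹ * x⁻¹)⁻¹ * x * (x * y * z * y⁻¹ * x⁻¹))) * a⁻¹ * y⁻¹ := by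
          unfold sg; group
      _ = y * (((x * y * z * y⁻¹ * x⁻¹)⁻¹ * x * (x * y * z * y⁻¹ * x⁻¹)) * a) * a⁻¹ * y⁻¹ := by
          rw [ha.eq]
      _ = y * (x * y) * z⁻¹ * (y⁻¹ * x * y) * z * (x * y)⁻¹ * y⁻¹ := by group
      _ = y * (x * y) * z⁻¹ * (x * y * x⁻¹) * z * (x * y)⁻¹ * y⁻¹ := by rw [QG3_b1 h.xy]
      _ = y * (x * y) * (z⁻¹ * x) * y * (x⁻¹ * z) * (x * y)⁻¹ * y⁻¹ := by group
      _ = y * (x * y) * (x * z⁻¹) * y * (z * x⁻¹) * (x * y)⁻¹ * y⁻¹ := by rw [hzx, hxz]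
      _ = y * (x * y) * x * (z⁻¹ * y * z) * x⁻¹ * (x * y)⁻¹ * y⁻¹ := by group
      _ = y * (x * y) * x * (y * z * y⁻¹) * x⁻¹ * (x * y)⁻¹ * y⁻¹ := by rw [hb]
      _ = (y * (x * y) * x * y) * z * (y * (x * y) * x * y)⁻¹ := by group
      _ = ((x * y) ^ 3 * x⁻¹) * z * ((x * y) ^ 3 * x⁻¹)⁻¹ := by rw [hw]
      _ = (x * y) ^ 3 * (x⁻¹ * z) * x * ((x * y) ^ 3)⁻¹ := by rw [mul_inv_rev]; group
      _ = (x * y) ^ 3 * (z * x⁻¹) * x * ((x * y) ^ 3)⁻¹ := by rw [hxz]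
      _ = (x * y) ^ 3 * z * ((x * y) ^ 3)⁻¹ := by group
  rw [key]
  exact h.pl
-- END QG3

-- MODULE QG4
private theorem QG4_xy (h : x * y * x = y * x * y) : (x * y) * x * (x * y)⁻¹ = y := by
  calc (x * y) * x * (x * y)⁻¹ = (x * y * x) * (x * y)⁻¹ := by group
    _ = (y * x * y) * (x * y)⁻¹ := by rw [h]
    _ = y := by group

private theorem QG4_pl (h : Q5 x y z b a) :
    (x * y) ^ 3 * (x * y * z * y⁻¹ * x⁻¹) * ((x * y) ^ 3)⁻¹ * (x * y * z * y⁻¹ * x⁻¹) =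
      a ^ 2 * y ^ 2 := by
  obtain ⟨f1, f2, f3, f4⟩ := full h.xy
  have e0 : Commute ((x * y) ^ 3) (x * y) := f2.mul_right f3
  have e1 : Commute x a := h.xa
  have e2 : Commute y a := h.ya
  have e3 : Commute (x * y) (a ^ 2) := (e1.mul_left e2).pow_right 2
  have e4 : ((x * y) ^ 3)⁻¹ * (x * y) = (x * y) * ((x * y) ^ 3)⁻¹ := e0.inv_left.eq
  have hp := h.pl
  clear f1 f2 f3 f4
  generalize (x * y) ^ 3 = D at *
  calc D * (x * y * z * y⁻¹ * x⁻¹) * (D)⁻¹ * (x * y * z * y⁻¹ * x⁻¹)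
      = (D * (x * y)) * z * (x * y)⁻¹ * ((D)⁻¹ * (x * y)) * z * (x * y)⁻¹ := by
        group
    _ = ((x * y) * D) * z * (x * y)⁻¹ * ((x * y) * (D)⁻¹) * z *
        (x * y)⁻¹ := by rw [e0.eq, e4]
    _ = (x * y) * (D * z * (D)⁻¹ * z) * (x * y)⁻¹ := by group
    _ = (x * y) * (a ^ 2 * x ^ 2) * (x * y)⁻¹ := by rw [hp]
    _ = ((x * y) * a ^ 2) * x ^ 2 * (x * y)⁻¹ := by group
    _ = (a ^ 2 * (x * y)) * x ^ 2 * (x * y)⁻¹ := by rw [e3.eq]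
    _ = a ^ 2 * ((x * y) * x * (x * y)⁻¹) ^ 2 := by rw [pow_two x, pow_two ((x * y) * x * _)]; group
    _ = a ^ 2 * y ^ 2 := by rw [QG4_xy h.xy]

/-- PROOF. Conjugate Q5.pl by x y: (x y) x (x y)⁻¹ = y, D = (x y)^3 commutes with x y, a commutes with x, y: (D c D⁻¹) c = a ^ 2 y ^ 2, c = (x y) z (x y)⁻¹. s = c a⁻¹ y⁻¹, D commutes with y, a (full): D s D⁻¹ = (D c D⁻¹) a⁻¹ y⁻¹ = a ^ 2 y ^ 2 c⁻¹ a⁻¹ y⁻¹ = c⁻¹ a y (c commutes with a and y: as in Q5.sa, Q5.sy) = (c a⁻¹ y⁻¹)⁻¹ = s⁻¹. -/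
theorem Q5.sD (h : Q5 x y z b a) :
    (x * y) ^ 3 * sg x y z a * ((x * y) ^ 3)⁻¹ = (sg x y z a)⁻¹ := by
  obtain ⟨f1, f2, f3, f4⟩ := full h.xy
  have e1 : Commute x a := h.xa
  have e2 : Commute y a := h.ya
  have eD : Commute ((x * y) ^ 3) (a⁻¹ * y⁻¹) :=
    ((e1.mul_left e2).pow_left 3).inv_right.mul_right f3.inv_right
  have eC : Commute (x * y * z * y⁻¹ * x⁻¹)⁻¹ (a⁻¹ * y⁻¹) :=
    ((QG3_ca h).inv_inv).mul_right ((QG3_cy h).inv_inv)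
  have hc : (x * y) ^ 3 * (x * y * z * y⁻¹ * x⁻¹) * ((x * y) ^ 3)⁻¹ =
      a ^ 2 * y ^ 2 * (x * y * z * y⁻¹ * x⁻¹)⁻¹ := by
    rw [eq_mul_inv_iff_mul_eq]
    exact QG4_pl h
  have hya : y ^ 2 * a⁻¹ = a⁻¹ * y ^ 2 := (e2.pow_left 2).inv_right.eq
  calc (x * y) ^ 3 * sg x y z a * ((x * y) ^ 3)⁻¹
      = (x * y) ^ 3 * (x * y * z * y⁻¹ * x⁻¹) * ((a⁻¹ * y⁻¹) * ((x * y) ^ 3)⁻¹) := by
        unfold sg; group
    _ = (x * y) ^ 3 * (x * y * z * y⁻¹ * x⁻¹) * (((x * y) ^ 3)⁻¹ * (a⁻¹ * y⁻¹)) := by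
        rw [← eD.inv_left.eq]
    _ = ((x * y) ^ 3 * (x * y * z * y⁻¹ * x⁻¹) * ((x * y) ^ 3)⁻¹) * (a⁻¹ * y⁻¹) := by group
    _ = a ^ 2 * y ^ 2 * (x * y * z * y⁻¹ * x⁻¹)⁻¹ * (a⁻¹ * y⁻¹) := by rw [hc]
    _ = a ^ 2 * y ^ 2 * ((x * y * z * y⁻¹ * x⁻¹)⁻¹ * (a⁻¹ * y⁻¹)) := by group
    _ = a ^ 2 * y ^ 2 * ((a⁻¹ * y⁻¹) * (x * y * z * y⁻¹ * x⁻¹)⁻¹) := by rw [eC.eq]
    _ = a ^ 2 * (y ^ 2 * a⁻¹) * y⁻¹ * (x * y * z * y⁻¹ * x⁻¹)⁻¹ := by group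
    _ = a ^ 2 * (a⁻¹ * y ^ 2) * y⁻¹ * (x * y * z * y⁻¹ * x⁻¹)⁻¹ := by rw [hya]
    _ = (a * y) * (x * y * z * y⁻¹ * x⁻¹)⁻¹ := by group
    _ = (y * a) * (x * y * z * y⁻¹ * x⁻¹)⁻¹ := by rw [h.ya]
    _ = (sg x y z a)⁻¹ := by unfold sg; group
-- END QG4

-- MODULE QG5
private theorem QG5_xyc (h : Q5 x y z b a) {u : G} (hx : Commute x u) (hy : Commute y u) :
    (x * y)⁻¹ * u = u * (x * y)⁻¹ := (hx.mul_left hy).inv_left.eq

private theorem QG5_Zx (h : Q5 x y z b a) :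
    (x * y * a⁻¹ * b⁻¹) * x * (x * y * a⁻¹ * b⁻¹)⁻¹ = y := by
  have e1 : Commute (a⁻¹ * b⁻¹) x := by
    have e1 : Commute a x := h.xa.symm
    have e2 : Commute b x := h.xb.symm
    exact e1.inv_left.mul_left e2.inv_left
  calc (x * y * a⁻¹ * b⁻¹) * x * (x * y * a⁻¹ * b⁻¹)⁻¹
      = (x * y) * ((a⁻¹ * b⁻¹) * x) * (a⁻¹ * b⁻¹)⁻¹ * (x * y)⁻¹ := by group
    _ = (x * y) * (x * (a⁻¹ * b⁻¹)) * (a⁻¹ * b⁻¹)⁻¹ * (x * y)⁻¹ := by rw [e1.eq]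
    _ = (x * y) * x * (x * y)⁻¹ := by group
    _ = y := QG4_xy h.xy

private theorem QG5_Za (h : Q5 x y z b a) :
    (x * y * a⁻¹ * b⁻¹) * a * (x * y * a⁻¹ * b⁻¹)⁻¹ = b := by
  have e1 : Commute (x * y) b := by
    have e1 : Commute x b := h.xb
    have e2 : Commute y b := h.yb
    exact e1.mul_left e2
  calc (x * y * a⁻¹ * b⁻¹) * a * (x * y * a⁻¹ * b⁻¹)⁻¹
      = (x * y) * (a⁻¹ * (b⁻¹ * a * b) * a) * (x * y)⁻¹ := by group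
    _ = (x * y) * (a⁻¹ * (a * b * a⁻¹) * a) * (x * y)⁻¹ := by rw [QG3_b1 h.ba.symm]
    _ = ((x * y) * b) * (x * y)⁻¹ := by group
    _ = (b * (x * y)) * (x * y)⁻¹ := by rw [e1.eq]
    _ = b := by group

/-- PROOF. Z = x y a⁻¹ b⁻¹. Z z Z⁻¹ = x y a⁻¹ (b⁻¹ z b) a (x y)⁻¹ = x y a⁻¹ (z b z⁻¹) a (x y)⁻¹ (braid z, b) = x y z (a⁻¹ b a) z⁻¹ (x y)⁻¹ = (x y z) (b a b⁻¹) (x y z)⁻¹. s b s⁻¹ = c a⁻¹ y⁻¹ b y a c⁻¹ = c (a⁻¹ b a) c⁻¹ = c (b a b⁻¹) c⁻¹, c = x y z (x y)⁻¹ and x, y commute with a, b: = (x y z) (b a b⁻¹) (x y z)⁻¹. -/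
theorem Q5.sb (h : Q5 x y z b a) : sg x y z a * b * (sg x y z a)⁻¹ =
    (x * y * a⁻¹ * b⁻¹) * z * (x * y * a⁻¹ * b⁻¹)⁻¹ := by
  have xa : Commute x a := h.xa
  have xb : Commute x b := h.xb
  have ya : Commute y a := h.ya
  have yb : Commute y b := h.yb
  have za : Commute z a := h.za
  have e1 : Commute (x * y)⁻¹ (b * a * b⁻¹) :=
    ((xb.mul_left yb).mul_right (xa.mul_left ya)).mul_right (xb.mul_left yb).inv_right |>.inv_left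
  have hab : a⁻¹ * b * a = b * a * b⁻¹ := QG3_b1 h.ba
  have hzb : b⁻¹ * z * b = z * b * z⁻¹ := QG3_b1 h.zb
  have hyb : y⁻¹ * b = b * y⁻¹ := yb.inv_left.eq
  have haz : a⁻¹ * z = z * a⁻¹ := za.symm.inv_left.eq
  have hza : z⁻¹ * a = a * z⁻¹ := za.inv_left.eq
  have L : sg x y z a * b * (sg x y z a)⁻¹ = (x * y * z) * (b * a * b⁻¹) * (x * y * z)⁻¹ := by
    calc sg x y z a * b * (sg x y z a)⁻¹
        = (x * y * z) * (x * y)⁻¹ * a⁻¹ * (y⁻¹ * b) * y * a * (x * y) * (x * y * z)⁻¹ := by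
          unfold sg; group
      _ = (x * y * z) * (x * y)⁻¹ * a⁻¹ * (b * y⁻¹) * y * a * (x * y) * (x * y * z)⁻¹ := by
          rw [hyb]
      _ = (x * y * z) * (x * y)⁻¹ * (a⁻¹ * b * a) * (x * y) * (x * y * z)⁻¹ := by group
      _ = (x * y * z) * (x * y)⁻¹ * (b * a * b⁻¹) * (x * y) * (x * y * z)⁻¹ := by rw [hab]
      _ = (x * y * z) * ((x * y)⁻¹ * (b * a * b⁻¹)) * (x * y) * (x * y * z)⁻¹ := by group
      _ = (x * y * z) * ((b * a * b⁻¹) * (x * y)⁻¹) * (x * y) * (x * y * z)⁻¹ := by rw [e1.eq]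
      _ = _ := by group
  rw [L]
  symm
  calc (x * y * a⁻¹ * b⁻¹) * z * (x * y * a⁻¹ * b⁻¹)⁻¹
      = (x * y) * a⁻¹ * (b⁻¹ * z * b) * a * (x * y)⁻¹ := by group
    _ = (x * y) * a⁻¹ * (z * b * z⁻¹) * a * (x * y)⁻¹ := by rw [hzb]
    _ = (x * y) * (a⁻¹ * z) * b * (z⁻¹ * a) * (x * y)⁻¹ := by group
    _ = (x * y) * (z * a⁻¹) * b * (a * z⁻¹) * (x * y)⁻¹ := by rw [haz, hza]
    _ = (x * y * z) * (a⁻¹ * b * a) * (x * y * z)⁻¹ := by group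
    _ = (x * y * z) * (b * a * b⁻¹) * (x * y * z)⁻¹ := by rw [hab]

/-- PROOF. Z = x y a⁻¹ b⁻¹: Z x Z⁻¹ = (x y) x (x y)⁻¹ = y, and z commutes with x; Q5.sb. -/
theorem Q5.sby (h : Q5 x y z b a) : Commute (sg x y z a * b * (sg x y z a)⁻¹) y := by
  rw [h.sb]
  have e : Commute z x := h.xz.symm
  have e2 := e.map (MulAut.conj (x * y * a⁻¹ * b⁻¹)).toMonoidHom
  simp only [MulEquiv.coe_toMonoidHom, MulEquiv.toMonoidHom_eq_coe, MonoidHom.coe_coe,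
    MulAut.conj_apply] at e2
  rw [QG5_Zx h] at e2
  exact e2

/-- PROOF. Z a Z⁻¹ = a⁻¹ b⁻¹ a b a (x, y commute with a, b); b⁻¹ a b = a b a⁻¹ (braid), so Z a Z⁻¹ = a⁻¹ (a b a⁻¹) a = b, and z commutes with a; Q5.sb. -/
theorem Q5.sbb (h : Q5 x y z b a) : Commute (sg x y z a * b * (sg x y z a)⁻¹) b := by
  rw [h.sb]
  have e : Commute z a := h.za
  have e2 := e.map (MulAut.conj (x * y * a⁻¹ * b⁻¹)).toMonoidHom
  simp only [MulEquiv.coe_toMonoidHom, MulEquiv.toMonoidHom_eq_coe, MonoidHom.coe_coe,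
    MulAut.conj_apply] at e2
  rw [QG5_Za h] at e2
  exact e2

/-- PROOF. D = (x y)^3 commutes with x, y (full), a, b. s⁻¹ b s = (D s D⁻¹) b (D s D⁻¹)⁻¹ (Q5.sD) = D (s b s⁻¹) D⁻¹ = D (Z z Z⁻¹) D⁻¹ = Z (D z D⁻¹) Z⁻¹. So (s⁻¹ b s)(s b s⁻¹) = Z (D z D⁻¹ z) Z⁻¹ = Z a ^ 2 x ^ 2 Z⁻¹ = b ^ 2 y ^ 2 (Q5.pl, Z a Z⁻¹ = b, Z x Z⁻¹ = y). -/
theorem Q5.sb' (h : Q5 x y z b a) :
    ((sg x y z a)⁻¹ * b * sg x y z a) * (sg x y z a * b * (sg x y z a)⁻¹) = b ^ 2 * y ^ 2 := by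
  obtain ⟨f1, f2, f3, f4⟩ := full h.xy
  have xa : Commute x a := h.xa
  have xb : Commute x b := h.xb
  have ya : Commute y a := h.ya
  have yb : Commute y b := h.yb
  have Da : Commute ((x * y) ^ 3) a := (xa.mul_left ya).pow_left 3
  have Db : Commute ((x * y) ^ 3) b := (xb.mul_left yb).pow_left 3
  have DZ : Commute ((x * y) ^ 3) (x * y * a⁻¹ * b⁻¹) :=
    ((f2.mul_right f3).mul_right Da.inv_right).mul_right Db.inv_right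
  have h1 : (sg x y z a)⁻¹ * b * sg x y z a =
      (x * y) ^ 3 * (sg x y z a * b * (sg x y z a)⁻¹) * ((x * y) ^ 3)⁻¹ := by
    have e := h.sD
    have e2 : sg x y z a = (x * y) ^ 3 * (sg x y z a)⁻¹ * ((x * y) ^ 3)⁻¹ := by
      calc sg x y z a = ((sg x y z a)⁻¹)⁻¹ := by group
        _ = ((x * y) ^ 3 * sg x y z a * ((x * y) ^ 3)⁻¹)⁻¹ := by rw [e]
        _ = _ := by rw [mul_inv_rev, mul_inv_rev, inv_inv, mul_assoc]
    calc (sg x y z a)⁻¹ * b * sg x y z a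
        = ((x * y) ^ 3 * sg x y z a * ((x * y) ^ 3)⁻¹) * b *
          ((x * y) ^ 3 * (sg x y z a)⁻¹ * ((x * y) ^ 3)⁻¹) := by rw [← e2, e]
      _ = (x * y) ^ 3 * sg x y z a * (((x * y) ^ 3)⁻¹ * b) *
          ((x * y) ^ 3 * (sg x y z a)⁻¹ * ((x * y) ^ 3)⁻¹) := by group
      _ = (x * y) ^ 3 * sg x y z a * (b * ((x * y) ^ 3)⁻¹) *
          ((x * y) ^ 3 * (sg x y z a)⁻¹ * ((x * y) ^ 3)⁻¹) := by rw [Db.inv_left.eq]
      _ = _ := by group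
  have h2 : (sg x y z a)⁻¹ * b * sg x y z a = (x * y * a⁻¹ * b⁻¹) *
      ((x * y) ^ 3 * z * ((x * y) ^ 3)⁻¹) * (x * y * a⁻¹ * b⁻¹)⁻¹ := by
    rw [h1, h.sb]
    calc (x * y) ^ 3 * ((x * y * a⁻¹ * b⁻¹) * z * (x * y * a⁻¹ * b⁻¹)⁻¹) * ((x * y) ^ 3)⁻¹
        = ((x * y) ^ 3 * (x * y * a⁻¹ * b⁻¹)) * z *
          ((x * y) ^ 3 * (x * y * a⁻¹ * b⁻¹))⁻¹ := by group
      _ = ((x * y * a⁻¹ * b⁻¹) * (x * y) ^ 3) * z *
          ((x * y * a⁻¹ * b⁻¹) * (x * y) ^ 3)⁻¹ := by rw [DZ.eq]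
      _ = _ := by group
  rw [h2, h.sb]
  calc (x * y * a⁻¹ * b⁻¹) * ((x * y) ^ 3 * z * ((x * y) ^ 3)⁻¹) * (x * y * a⁻¹ * b⁻¹)⁻¹ *
      ((x * y * a⁻¹ * b⁻¹) * z * (x * y * a⁻¹ * b⁻¹)⁻¹)
      = (x * y * a⁻¹ * b⁻¹) * ((x * y) ^ 3 * z * ((x * y) ^ 3)⁻¹ * z) *
        (x * y * a⁻¹ * b⁻¹)⁻¹ := by group
    _ = (x * y * a⁻¹ * b⁻¹) * (a ^ 2 * x ^ 2) * (x * y * a⁻¹ * b⁻¹)⁻¹ := by rw [h.pl]
    _ = ((x * y * a⁻¹ * b⁻¹) * a * (x * y * a⁻¹ * b⁻¹)⁻¹) ^ 2 *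
        ((x * y * a⁻¹ * b⁻¹) * x * (x * y * a⁻¹ * b⁻¹)⁻¹) ^ 2 := by
        rw [conj_pow, conj_pow]; group
    _ = b ^ 2 * y ^ 2 := by rw [QG5_Za h, QG5_Zx h]
-- END QG5

end

end Pool.Agent.EG80
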