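import Pool.Agent.EG80.Chev

set_option linter.all false

namespace Pool.Agent.EG80

attribute [local instance 100] LieRing.ofAssociativeRing

section

variable {g : ℕ} {V : Type*} [AddCommGroup V] [Module ℂ V] {α β S : ℕ → Module.End ℂ V}

/-- `v` is a joint eigenvector of the `cH i` with eigenvalues `μ i`. -/
def JE (g : ℕ) (α β : ℕ → Module.End ℂ V) (μ : ℕ → ℂ) (v : V) : Prop :=
  v ≠ 0 ∧ ∀ i, i < g → cH α β i v = μ i • v

/-- The grading element. -/
noncomputable def cZ (g : ℕ) (α β : ℕ → Module.End ℂ V) : Module.End ℂ V :=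
  ∑ i ∈ Finset.range g, ((g : ℂ) - i) • cH α β i

/-- Its eigenvalue. -/
noncomputable def zv (g : ℕ) (μ : ℕ → ℂ) : ℂ := ∑ i ∈ Finset.range g, ((g : ℂ) - i) * μ i

-- MODULE HW1
/-- PROOF. Induction on k ≤ g: there are μ and a submodule W ≠ ⊥, stable under all cH j (j < g), on which cH i acts as μ i for all i < k. k = 0: W = ⊤. Step: cH k has an eigenvector in W (Module.End.exists_eigenvalue for the restriction), with eigenvalue c: W' = W ⊓ eigenspace (cH k) c ≠ ⊥, stable under cH j (commuting: c2), μ' = Function.update μ k c. k = g: any v ≠ 0 in W. -/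
theorem exists_je [FiniteDimensional ℂ V] [Nontrivial V]
    (c : ∀ i j, i < g → j < g → ⁅cH α β i, cH α β j⁆ = 0) : ∃ μ v, JE g α β μ v := by
  have comm : ∀ i j, i < g → j < g → ∀ v : V, cH α β i (cH α β j v) = cH α β j (cH α β i v) := by
    intro i j hi hj v
    have h1 := congrArg (fun X : Module.End ℂ V => X v) (c i j hi hj)
    simp only [LieRing.of_associative_ring_bracket, LinearMap.sub_apply, Module.End.mul_apply,
      LinearMap.zero_apply] at h1
    exact sub_eq_zero.1 h1
  have key : ∀ k, k ≤ g → ∃ (μ : ℕ → ℂ) (W : Submodule ℂ V), W ≠ ⊥ ∧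
      (∀ j, j < g → ∀ w ∈ W, cH α β j w ∈ W) ∧ ∀ i, i < k → ∀ w ∈ W, cH α β i w = μ i • w := by
    intro k
    induction k with
    | zero => exact fun _ => ⟨0, ⊤, top_ne_bot, fun _ _ _ _ => trivial, fun i hi => absurd hi (by omega)⟩
    | succ k ih =>
      intro hk
      obtain ⟨μ, W, hW, hst, hμ⟩ := ih (by omega)
      haveI : Nontrivial W := Submodule.nontrivial_iff_ne_bot.2 hW
      obtain ⟨c0, hc0⟩ := Module.End.exists_eigenvalue ((cH α β k).restrict (hst k (by omega)))
      obtain ⟨w, hw⟩ := hc0.exists_hasEigenvector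
      have hw1 : cH α β k (w : V) = c0 • (w : V) := congrArg Subtype.val hw.apply_eq_smul
      refine ⟨Function.update μ k c0, W ⊓ Module.End.eigenspace (cH α β k) c0, ?_, ?_, ?_⟩
      · intro h0
        have h1 : (w : V) ∈ W ⊓ Module.End.eigenspace (cH α β k) c0 :=
          ⟨w.2, Module.End.mem_eigenspace_iff.2 hw1⟩
        rw [h0, Submodule.mem_bot] at h1
        exact hw.2 (Subtype.ext h1)
      · rintro j hj x ⟨hx1, hx2⟩
        refine ⟨hst j hj x hx1, Module.End.mem_eigenspace_iff.2 ?_⟩
        rw [comm k j (by omega) hj, Module.End.mem_eigenspace_iff.1 hx2, map_smul]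
      · rintro i hi x ⟨hx1, hx2⟩
        by_cases hik : i = k
        · subst hik
          rw [Function.update_self]
          exact Module.End.mem_eigenspace_iff.1 hx2
        · rw [Function.update_of_ne hik]
          exact hμ i (by omega) x hx1
  obtain ⟨μ, W, hW, -, hμ⟩ := key g le_rfl
  obtain ⟨v, hv, hv0⟩ := (Submodule.ne_bot_iff W).1 hW
  exact ⟨μ, v, hv0, fun i hi => hμ i hi v hv⟩
-- END HW1

-- MODULE HW2
/-- PROOF. cH i (cE k v) = ⁅cH i, cE k⁆ v + cE k (cH i v) (he). -/
theorem raise (h : CS g α β S) {μ : ℕ → ℂ} {v : V} (hv : ∀ i, i < g → cH α β i v = μ i • v)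
    {k : ℕ} (hk : k < g) (i : ℕ) (hi : i < g) :
    cH α β i (cE g α β S k v) = (μ i + wt g i k) • cE g α β S k v := by
  have h1 := congrArg (fun X : Module.End ℂ V => X v) (h.he i k hi hk)
  simp only [LieRing.of_associative_ring_bracket, LinearMap.sub_apply, Module.End.mul_apply,
    LinearMap.smul_apply] at h1
  rw [hv i hi, map_smul, sub_eq_iff_eq_add] at h1
  rw [h1, add_smul, add_comm]

/-- PROOF. The same with hf. -/
theorem lower (h : CS g α β S) {μ : ℕ → ℂ} {v : V} (hv : ∀ i, i < g → cH α β i v = μ i • v)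
    {k : ℕ} (hk : k < g) (i : ℕ) (hi : i < g) :
    cH α β i (cF g α β S k v) = (μ i - wt g i k) • cF g α β S k v := by
  have h1 := congrArg (fun X : Module.End ℂ V => X v) (h.hf i k hi hk)
  simp only [LieRing.of_associative_ring_bracket, LinearMap.sub_apply, Module.End.mul_apply,
    LinearMap.smul_apply] at h1
  rw [hv i hi, map_smul, sub_eq_iff_eq_add] at h1
  rw [h1, sub_eq_add_neg, add_smul, add_comm]

/-- PROOF. The sum of (g - i) wt g i k over i < g: k + 1 < g: (g - k) - (g - (k+1)) = 1; k + 1 = g: (g - k) * 2 = 2. -/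
theorem zv_wt {k : ℕ} (hk : k < g) :
    zv g (fun i => wt g i k) = if k + 1 < g then 1 else 2 := by
  unfold zv wt
  simp only [mul_sub, Finset.sum_sub_distrib, mul_ite, mul_one, mul_zero]
  rw [Finset.sum_ite_eq' (Finset.range g) k, Finset.sum_ite_eq' (Finset.range g) (k + 1)]
  simp only [Finset.mem_range, hk, if_true]
  by_cases h : k + 1 < g
  · simp only [h, if_true]
    push_cast
    ring
  · simp only [h, if_false]
    have : g = k + 1 := by omega
    subst this
    push_cast
    ring

/-- PROOF. cZ v = Σ (g - i) μ i v. -/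
theorem cZ_apply {μ : ℕ → ℂ} {v : V} (hv : ∀ i, i < g → cH α β i v = μ i • v) :
    cZ g α β v = zv g μ • v := by
  unfold cZ zv
  rw [LinearMap.sum_apply, Finset.sum_smul]
  refine Finset.sum_congr rfl fun i hi => ?_
  rw [LinearMap.smul_apply, hv i (Finset.mem_range.1 hi), smul_smul]
-- END HW2

-- MODULE HW3
/-- PROOF. The set X of the complex numbers zv g μ with JE g α β μ v for some v is nonempty (exists_je) and finite (cZ_apply: they are eigenvalues of cZ: Module.End.finite_hasEigenvalue, or finite_spectrum). Take μ, v with (zv g μ).re maximal. For k < g: if cE k v ≠ 0 then by raise JE holds for μ + wt g · k and cE k v, and zv g (μ + wt) = zv g μ + 1 or + 2 (zv additive, zv_wt): larger real part, contradiction. -/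
theorem exists_hw [FiniteDimensional ℂ V] [Nontrivial V] (h : CS g α β S) :
    ∃ μ v, JE g α β μ v ∧ ∀ k, k < g → cE g α β S k v = 0 := by
  obtain ⟨μ0, v0, h0⟩ := exists_je h.hh
  let X : Set ℂ := {z | ∃ μ v, JE g α β μ v ∧ z = zv g μ}
  have hfin : X.Finite := by
    refine (Module.End.finite_hasEigenvalue (cZ g α β)).subset ?_
    rintro _ ⟨μ, v, hv, rfl⟩
    exact Module.End.hasEigenvalue_of_hasEigenvector
      ⟨Module.End.mem_eigenspace_iff.2 (cZ_apply hv.2), hv.1⟩
  obtain ⟨z, ⟨μ, v, hv, rfl⟩, hmax⟩ :=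
    Set.exists_max_image X (fun z => z.re) hfin ⟨_, μ0, v0, h0, rfl⟩
  refine ⟨μ, v, hv, fun k hk => ?_⟩
  by_contra hne
  have h1 : JE g α β (fun i => μ i + wt g i k) (cE g α β S k v) :=
    ⟨hne, fun i hi => raise h hv.2 hk i hi⟩
  have h2 := hmax _ ⟨_, _, h1, rfl⟩
  have h3 : zv g (fun i => μ i + wt g i k) = zv g μ + zv g (fun i => wt g i k) := by
    unfold zv
    rw [← Finset.sum_add_distrib]
    refine Finset.sum_congr rfl fun i _ => ?_
    ring
  rw [h3, zv_wt hk, Complex.add_re] at h2
  by_cases h4 : k + 1 < g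
  · rw [if_pos h4, Complex.one_re] at h2
    linarith
  · rw [if_neg h4] at h2
    have : ((2 : ℂ)).re = 2 := by norm_num
    rw [this] at h2
    linarith
-- END HW3

-- MODULE HW4
/-- PROOF. k + 1 < g: hk = cH k - cH (k+1), triple (hk, cE k, cF k): ⁅hk, cE k⁆ = (wt k k - wt (k+1) k) cE k = 2 cE k, ⁅hk, cF k⁆ = -2 cF k, efk. If hk = 0 then (μ k - μ (k+1)) v = 0, n = 0. Else IsSl2Triple and HasPrimitiveVectorWith.exists_nat (V finite dimensional). -/
theorem hw_nat [FiniteDimensional ℂ V] (h : CS g α β S) {μ : ℕ → ℂ} {v : V} (hv : JE g α β μ v)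
    (he : ∀ k, k < g → cE g α β S k v = 0) :
    (∀ k, k + 1 < g → ∃ n : ℕ, μ k - μ (k + 1) = n) ∧ (∀ k, k + 1 = g → ∃ n : ℕ, μ k = n) := by
  have key : ∀ (H E F : Module.End ℂ V) (c : ℂ), ⁅E, F⁆ = H → ⁅H, E⁆ = (2 : ℂ) • E →
      ⁅H, F⁆ = (-2 : ℂ) • F → H v = c • v → E v = 0 → ∃ n : ℕ, c = n := by
    intro H E F c h1 h2 h3 h4 h5
    by_cases h0 : H = 0
    · refine ⟨0, ?_⟩
      rw [h0, LinearMap.zero_apply] at h4
      rcases smul_eq_zero.1 h4.symm with h6 | h6
      · rw [h6]; simp
      · exact absurd h6 hv.1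
    · have t : IsSl2Triple H E F := ⟨h0, h1, by rw [h2, two_smul, two_nsmul],
        by rw [h3, neg_smul, two_smul, two_nsmul]⟩
      have P : IsSl2Triple.HasPrimitiveVectorWith t v c := ⟨hv.1, h4, h5⟩
      exact P.exists_nat
  constructor
  · intro k hk
    refine key (cH α β k - cH α β (k + 1)) (cE g α β S k) (cF g α β S k) (μ k - μ (k + 1))
      (h.efk k hk) ?_ ?_ ?_ (he k (by omega))
    · rw [sub_lie, h.he k k (by omega) (by omega), h.he (k + 1) k hk (by omega), ← sub_smul]
      congr 1
      unfold wt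
      rw [if_pos rfl, if_pos hk, if_neg (by omega), if_neg (by omega), if_pos rfl]
      norm_num
    · rw [sub_lie, h.hf k k (by omega) (by omega), h.hf (k + 1) k hk (by omega), ← sub_smul]
      congr 1
      unfold wt
      rw [if_pos rfl, if_pos hk, if_neg (by omega), if_neg (by omega), if_pos rfl]
      norm_num
    · rw [LinearMap.sub_apply, hv.2 k (by omega), hv.2 (k + 1) hk, sub_smul]
  · intro k hk
    refine key (cH α β k) (cE g α β S k) (cF g α β S k) (μ k) (h.efg k hk) ?_ ?_
      (hv.2 k (by omega)) (he k (by omega))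
    · rw [h.he k k (by omega) (by omega)]
      congr 1
      unfold wt
      rw [if_pos rfl, if_neg (by omega), if_neg (by omega)]
      norm_num
    · rw [h.hf k k (by omega) (by omega)]
      congr 1
      unfold wt
      rw [if_pos rfl, if_neg (by omega), if_neg (by omega)]
      norm_num
-- END HW4

-- MODULE HW5
/-- PROOF. exists_hw, hw_nat: choose p k with μ k - μ (k+1) = p k (k + 1 < g), μ (g-1) = p (g-1); μ i = Σ over k in [i, g) of p k by downward induction (Finset.sum_Ico_consecutive / Finset.sum_eq_sum_Ico_succ_bot). -/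
theorem exists_part [FiniteDimensional ℂ V] [Nontrivial V] (h : CS g α β S) :
    ∃ (p : ℕ → ℕ) (v : V), v ≠ 0 ∧
      (∀ i, i < g → cH α β i v = (∑ k ∈ Finset.Ico i g, (p k : ℂ)) • v) ∧
      ∀ k, k < g → cE g α β S k v = 0 := by
  obtain ⟨μ, v, hv, he⟩ := exists_hw h
  obtain ⟨h1, h2⟩ := hw_nat h hv he
  choose! p1 hp1 using h1
  choose! p2 hp2 using h2
  refine ⟨fun k => if k + 1 < g then p1 k else p2 k, v, hv.1, fun i hi => ?_, he⟩
  rw [hv.2 i hi]
  congr 1
  have key : ∀ d i, i + d + 1 = g →
      μ i = ∑ k ∈ Finset.Ico i g, ((if k + 1 < g then p1 k else p2 k : ℕ) : ℂ) := by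
    intro d
    induction d with
    | zero =>
      intro i hi
      have : g = i + 1 := by omega
      subst this
      rw [Finset.sum_Ico_succ_top (le_refl i), Finset.Ico_self, Finset.sum_empty, zero_add,
        if_neg (by omega), hp2 i rfl]
    | succ d ih =>
      intro i hi
      rw [Finset.sum_eq_sum_Ico_succ_bot (by omega), ← ih (i + 1) (by omega), if_pos (by omega),
        ← hp1 i (by omega)]
      ring
  exact key (g - 1 - i) i (by omega)
-- END HW5

/-- The words in the lowering operators, applied to `w`. -/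
def wd (g : ℕ) (α β S : ℕ → Module.End ℂ V) (w : V) : List ℕ → V
  | [] => w
  | k :: l => cF g α β S k (wd g α β S w l)

/-- The span of these words. -/
def Dw (g : ℕ) (α β S : ℕ → Module.End ℂ V) (w : V) : Submodule ℂ V :=
  Submodule.span ℂ {x | ∃ l : List ℕ, (∀ k ∈ l, k < g) ∧ x = wd g α β S w l}

-- MODULE DA1
/-- PROOF. Induction on l with `lower`. -/
theorem wd_wt (h : CS g α β S) {μ : ℕ → ℂ} {w : V} (hw : ∀ i, i < g → cH α β i w = μ i • w)
    (l : List ℕ) (hl : ∀ k ∈ l, k < g) (i : ℕ) (hi : i < g) :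
    cH α β i (wd g α β S w l) = (μ i - (l.map (wt g i)).sum) • wd g α β S w l := by
  induction l generalizing i with
  | nil => simpa [wd] using hw i hi
  | cons k l ih =>
    have ih' : ∀ i, i < g → cH α β i (wd g α β S w l) =
        (fun i => μ i - (l.map (wt g i)).sum) i • wd g α β S w l :=
      fun i hi => ih (fun k hk => hl k (List.mem_cons_of_mem _ hk)) i hi
    have h1 := lower h ih' (hl k List.mem_cons_self) i hi
    show cH α β i (cF g α β S k (wd g α β S w l)) = _ • cF g α β S k (wd g α β S w l)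
    rw [h1]
    congr 1
    simp only [List.map_cons, List.sum_cons]
    ring

private theorem DA1_F {w : V} {k : ℕ} (hk : k < g) :
    ∀ d ∈ Dw g α β S w, cF g α β S k d ∈ Dw g α β S w := by
  intro d hd
  induction hd using Submodule.span_induction with
  | mem x hx =>
    obtain ⟨l, hl, rfl⟩ := hx
    refine Submodule.subset_span ⟨k :: l, ?_, rfl⟩
    intro j hj
    rcases List.mem_cons.1 hj with rfl | hj
    · exact hk
    · exact hl j hj
  | zero => rw [map_zero]; exact Submodule.zero_mem _
  | add x y _ _ hx hy => rw [map_add]; exact Submodule.add_mem _ hx hy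
  | smul a x _ hx => rw [map_smul]; exact Submodule.smul_mem _ a hx

/-- PROOF. Induction on l: cE k w = 0; cE k (cF j u) = cF j (cE k u) + ⁅cE k, cF j⁆ u with u = wd l: the first is in D by induction (D is stable under cF j: Submodule.span_induction, wd of j :: l), the second is 0 (ef) or cH k u - cH (k+1) u or cH k u, multiples of u (wd_wt). -/
theorem wd_E (h : CS g α β S) {μ : ℕ → ℂ} {w : V} (hw : ∀ i, i < g → cH α β i w = μ i • w)
    (he : ∀ k, k < g → cE g α β S k w = 0) (l : List ℕ) (hl : ∀ k ∈ l, k < g) (k : ℕ)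
    (hk : k < g) : cE g α β S k (wd g α β S w l) ∈ Dw g α β S w := by
  induction l with
  | nil =>
    show cE g α β S k w ∈ _
    rw [he k hk]
    exact Submodule.zero_mem _
  | cons j l ih =>
    have hj : j < g := hl j List.mem_cons_self
    have hl' : ∀ k ∈ l, k < g := fun k hk => hl k (List.mem_cons_of_mem _ hk)
    have hu : wd g α β S w l ∈ Dw g α β S w := Submodule.subset_span ⟨l, hl', rfl⟩
    have e : cE g α β S k (cF g α β S j (wd g α β S w l)) =
        cF g α β S j (cE g α β S k (wd g α β S w l)) +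
          (⁅cE g α β S k, cF g α β S j⁆ : Module.End ℂ V) (wd g α β S w l) := by
      simp only [LieRing.of_associative_ring_bracket, LinearMap.sub_apply, Module.End.mul_apply]
      abel
    show cE g α β S k (cF g α β S j (wd g α β S w l)) ∈ _
    rw [e]
    refine Submodule.add_mem _ (DA1_F hj _ (ih hl')) ?_
    have hH : ∀ i, i < g → cH α β i (wd g α β S w l) ∈ Dw g α β S w := by
      intro i hi
      rw [wd_wt h hw l hl' i hi]
      exact Submodule.smul_mem _ _ hu
    by_cases hkj : k = j
    · subst hkj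
      by_cases hk1 : k + 1 < g
      · rw [h.efk k hk1, LinearMap.sub_apply]
        exact Submodule.sub_mem _ (hH k hk) (hH (k + 1) hk1)
      · rw [h.efg k (by omega)]
        exact hH k hk
    · rw [h.ef k j hk hj hkj, LinearMap.zero_apply]
      exact Submodule.zero_mem _
-- END DA1

-- MODULE DA2
/-- PROOF. K = the Lie subalgebra of the operators which map D = Dw into D (closed under +, scalars, ⁅X,Y⁆ = X Y - Y X). cE k, cF k are in K (wd_E, span_induction). Pre.gen. -/
theorem Dw_stab (hp : Pre g α β S) (hg : 2 ≤ g) {μ : ℕ → ℂ} {w : V}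
    (hw : ∀ i, i < g → cH α β i w = μ i • w) (he : ∀ k, k < g → cE g α β S k w = 0) :
    (∀ i, i < g → ∀ d ∈ Dw g α β S w, α i d ∈ Dw g α β S w) ∧
    (∀ i, i < g → ∀ d ∈ Dw g α β S w, β i d ∈ Dw g α β S w) ∧
    (∀ i, i + 1 < g → ∀ d ∈ Dw g α β S w, S i d ∈ Dw g α β S w) := by
  let K : LieSubalgebra ℂ (Module.End ℂ V) :=
    { carrier := {X | ∀ d ∈ Dw g α β S w, X d ∈ Dw g α β S w}
      add_mem' := fun {X Y} hX hY d hd => by
        rw [LinearMap.add_apply]; exact Submodule.add_mem _ (hX d hd) (hY d hd)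
      zero_mem' := fun d _ => by rw [LinearMap.zero_apply]; exact Submodule.zero_mem _
      smul_mem' := fun c X hX d hd => by
        rw [LinearMap.smul_apply]; exact Submodule.smul_mem _ _ (hX d hd)
      lie_mem' := fun {X Y} hX hY d hd => by
        rw [LieRing.of_associative_ring_bracket, LinearMap.sub_apply, Module.End.mul_apply,
          Module.End.mul_apply]
        exact Submodule.sub_mem _ (hX _ (hY d hd)) (hY _ (hX d hd)) }
  have hE : ∀ k, k < g → cE g α β S k ∈ K := by
    intro k hk d hd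
    induction hd using Submodule.span_induction with
    | mem x hx =>
      obtain ⟨l, hl, rfl⟩ := hx
      exact wd_E (hp.cs hg) hw he l hl k hk
    | zero => rw [map_zero]; exact Submodule.zero_mem _
    | add x y _ _ hx hy => rw [map_add]; exact Submodule.add_mem _ hx hy
    | smul a x _ hx => rw [map_smul]; exact Submodule.smul_mem _ a hx
  have hF : ∀ k, k < g → cF g α β S k ∈ K := fun k hk d hd => DA1_F hk d hd
  obtain ⟨h1, h2, h3⟩ := hp.gen hg K hE hF
  exact ⟨fun i hi d hd => h1 i hi d hd, fun i hi d hd => h2 i hi d hd,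
    fun i hi d hd => h3 i hi d hd⟩
-- END DA2

-- MODULE DA3
private theorem DA3_zv (l : List ℕ) (hl : ∀ k ∈ l, k < g) :
    ∃ N : ℕ, (l ≠ [] → N ≠ 0) ∧ zv g (fun i => (l.map (wt g i)).sum) = N := by
  induction l with
  | nil =>
    refine ⟨0, fun h => absurd rfl h, ?_⟩
    unfold zv
    simp
  | cons k l ih =>
    obtain ⟨N, -, hN⟩ := ih fun k hk => hl k (List.mem_cons_of_mem _ hk)
    have e : zv g (fun i => ((k :: l).map (wt g i)).sum) =
        zv g (fun i => wt g i k) + zv g (fun i => (l.map (wt g i)).sum) := by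
      unfold zv
      rw [← Finset.sum_add_distrib]
      refine Finset.sum_congr rfl fun i _ => ?_
      simp only [List.map_cons, List.sum_cons]
      ring
    have hk : k < g := hl k List.mem_cons_self
    rw [e, hN, zv_wt hk]
    by_cases h : k + 1 < g
    · refine ⟨1 + N, fun _ => by omega, ?_⟩
      rw [if_pos h]; push_cast; ring
    · refine ⟨2 + N, fun _ => by omega, ?_⟩
      rw [if_neg h]; push_cast; ring

/-- The top weight space of `Dw` is the line of `w`.
PROOF. By wd_wt, cZ_apply and zv_wt: cZ (wd l) = (zv g μ - n) (wd l) with n = Σ over l of 1 or 2, a natural number, positive if l ≠ []. So Dw ≤ ℂ w ⊔ ⨆_(c ≠ zv g μ) eigenspace cZ c. x = c w + d: d = x - c w is in the eigenspace for zv g μ (hx, cZ_apply) and in the supremum of the others: d = 0 (Module.End.eigenspaces_iSupIndep). -/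
theorem Dw_top (h : CS g α β S) {μ : ℕ → ℂ} {w : V} (hw : ∀ i, i < g → cH α β i w = μ i • w)
    {x : V} (hx : x ∈ Dw g α β S w) (hx' : ∀ i, i < g → cH α β i x = μ i • x) :
    ∃ c : ℂ, x = c • w := by
  have hle : Dw g α β S w ≤ (ℂ ∙ w) ⊔
      ⨆ (c : ℂ) (_ : c ≠ zv g μ), Module.End.eigenspace (cZ g α β) c := by
    refine Submodule.span_le.2 ?_
    rintro _ ⟨l, hl, rfl⟩
    rcases eq_or_ne l [] with rfl | hne
    · exact Submodule.mem_sup_left (Submodule.mem_span_singleton_self w)
    · obtain ⟨N, hN0, hN⟩ := DA3_zv l hl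
      have h1 := cZ_apply (g := g) (α := α) (β := β)
        (μ := fun i => μ i - (l.map (wt g i)).sum) (v := wd g α β S w l)
        (fun i hi => wd_wt h hw l hl i hi)
      have h2 : zv g (fun i => μ i - (l.map (wt g i)).sum) = zv g μ - N := by
        rw [← hN]
        unfold zv
        rw [← Finset.sum_sub_distrib]
        refine Finset.sum_congr rfl fun i _ => ?_
        ring
      rw [h2] at h1
      refine Submodule.mem_sup_right ?_
      refine Submodule.mem_iSup_of_mem (zv g μ - N) ?_
      refine Submodule.mem_iSup_of_mem ?_ ?_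
      · intro h3
        have h4 : (N : ℂ) = 0 := by
          have := sub_eq_self.1 h3
          exact this
        exact hN0 hne (by exact_mod_cast h4)
      · exact Module.End.mem_eigenspace_iff.2 h1
  obtain ⟨a, ha, b, hb, hab⟩ := Submodule.mem_sup.1 (hle hx)
  obtain ⟨c, rfl⟩ := Submodule.mem_span_singleton.1 ha
  refine ⟨c, ?_⟩
  have hb' : b ∈ Module.End.eigenspace (cZ g α β) (zv g μ) := by
    rw [Module.End.mem_eigenspace_iff]
    have e : b = x - c • w := by rw [← hab]; abel
    rw [e, map_sub, map_smul, cZ_apply hx', cZ_apply hw, smul_sub, smul_comm]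
  have h0 : b = 0 := by
    have h1 := Module.End.eigenspaces_iSupIndep (cZ g α β) (zv g μ)
    exact Submodule.disjoint_def.1 h1 b hb' hb
  rw [← hab, h0, add_zero]
-- END DA3

end

end Pool.Agent.EG80
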