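import Mathlib

set_option linter.all false

namespace Pool.Agent.EG80

section

variable {L : Type*} [LieRing L] [LieAlgebra ℂ L]

/-- First list of relations for two handles with logarithms `a1, b1` and `a2, b2`. -/
structure LA (a1 b1 a2 b2 S P : L) : Prop where
  aa : ⁅a1, a2⁆ = 0
  aS1 : ⁅a1, S⁆ = 0
  aS2 : ⁅a2, S⁆ = 0
  bb : ⁅b1, b2⁆ = 0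
  bP1 : ⁅b1, P⁆ = 0
  bP2 : ⁅b2, P⁆ = 0
  ab12 : ⁅a1, b2⁆ = 0
  ab21 : ⁅a2, b1⁆ = 0
  r1 : ⁅a1, P⁆ = ⁅S, b2⁆
  r2 : ⁅a2, P⁆ = ⁅S, b1⁆
  r3 : ⁅S, P⁆ = ⁅a1, b1⁆ + ⁅a2, b2⁆

/-- The relations for two handles. -/
structure Core (a1 b1 a2 b2 S : L) : Prop where
  k1 : ⁅a1, ⁅a1, b1⁆⁆ = (2 : ℂ) • a1
  k2 : ⁅a2, ⁅a2, b2⁆⁆ = (2 : ℂ) • a2
  l1 : ⁅b1, ⁅b1, a1⁆⁆ = (2 : ℂ) • b1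
  l2 : ⁅b2, ⁅b2, a2⁆⁆ = (2 : ℂ) • b2
  w1 : ⁅S, ⁅a1, b1⁆⁆ = S
  w2 : ⁅S, ⁅a2, b2⁆⁆ = S
  n1 : ⁅b1, ⁅b1, S⁆⁆ = 0
  n2 : ⁅b2, ⁅b2, S⁆⁆ = 0
  s1 : ⁅S, ⁅S, b2⁆⁆ = (2 : ℂ) • a1
  s2 : ⁅S, ⁅S, b1⁆⁆ = (2 : ℂ) • a2
  p : ⁅S, ⁅b1, ⁅b2, S⁆⁆⁆ = ⁅a1, b1⁆ + ⁅a2, b2⁆

-- MODULE LI1
/-- PROOF. Expand the three brackets (lie_add, add_lie, ...): with c0 = ⁅a1,b2⁆ = 0, c4 = ⁅a2,b1⁆ = 0 they are c1 + c2 + c3 = 0, - c1 + c2 - c3 = 0, 2 c1 + 4 c2 + 8 c3 = 0 with c1 = ⁅a1,P⁆ - ⁅S,b2⁆, c2 = ⁅a1,b1⁆ - ⁅S,P⁆ + ⁅a2,b2⁆, c3 = ⁅a2,P⁆ - ⁅S,b1⁆. So c2 = 0, c1 = - c3, 6 c3 = 0. -/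
theorem LA.of (a1 b1 a2 b2 S P : L)
    (aa : ⁅a1, a2⁆ = 0) (aS1 : ⁅a1, S⁆ = 0) (aS2 : ⁅a2, S⁆ = 0)
    (bb : ⁅b1, b2⁆ = 0) (bP1 : ⁅b1, P⁆ = 0) (bP2 : ⁅b2, P⁆ = 0)
    (ab12 : ⁅a1, b2⁆ = 0) (ab21 : ⁅a2, b1⁆ = 0)
    (h1 : ⁅a1 - S + a2, b2 + P + b1⁆ = 0) (h2 : ⁅a1 + S + a2, b2 - P + b1⁆ = 0)
    (h3 : ⁅a1 - (2 : ℂ) • S + (4 : ℂ) • a2, b2 + (2 : ℂ) • P + (4 : ℂ) • b1⁆ = 0) :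
    LA a1 b1 a2 b2 S P := by
  simp only [lie_add, add_lie, lie_sub, sub_lie, lie_smul, smul_lie, ab12, ab21] at h1 h2 h3
  refine ⟨aa, aS1, aS2, bb, bP1, bP2, ab12, ab21, ?_, ?_, ?_⟩
  · linear_combination (norm := module) (1 : ℂ) • h1 - (1 / 3 : ℂ) • h2 - (1 / 6 : ℂ) • h3
  · linear_combination (norm := module) (-1 / 2 : ℂ) • h1 - (1 / 6 : ℂ) • h2 + (1 / 6 : ℂ) • h3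
  · linear_combination (norm := module) (-1 / 2 : ℂ) • h1 - (1 / 2 : ℂ) • h2
-- END LI1

-- MODULE LI2
omit [LieAlgebra ℂ L] in
private theorem LI2_sw {x y : L} (h : ⁅x, y⁆ = 0) : ⁅y, x⁆ = 0 := by
  rw [← lie_skew, h, neg_zero]

omit [LieAlgebra ℂ L] in
private theorem LI2_c {x y : L} (h : ⁅x, y⁆ = 0) (z : L) : ⁅x, ⁅y, z⁆⁆ = ⁅y, ⁅x, z⁆⁆ := by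
  rw [leibniz_lie, h, zero_lie, zero_add]

omit [LieAlgebra ℂ L] in
private theorem LI2_z {x y z : L} (h : ⁅x, y⁆ = 0) (h' : ⁅x, z⁆ = 0) : ⁅x, ⁅y, z⁆⁆ = 0 := by
  rw [LI2_c h, h', lie_zero]

/-- PROOF. ⁅S,⁅S,b1⁆⁆ = ⁅S,⁅a2,P⁆⁆ (r2) = ⁅a2,⁅S,P⁆⁆ (S commutes with a2; lie_lie / leibniz_lie) = ⁅a2,⁅a1,b1⁆⁆ + ⁅a2,⁅a2,b2⁆⁆ (r3) = ⁅a2,⁅a2,b2⁆⁆ (a2 commutes with a1, b1). Likewise the others: ⁅P,⁅P,a1⁆⁆ = -⁅P,⁅S,b2⁆⁆ = -⁅⁅P,S⁆,b2⁆ = ⁅⁅a1,b1⁆ + ⁅a2,b2⁆,b2⁆ = ⁅⁅a2,b2⁆,b2⁆ = ⁅b2,⁅b2,a2⁆⁆. -/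
theorem LA.kl {a1 b1 a2 b2 S P : L} (h : LA a1 b1 a2 b2 S P) :
    ⁅a2, ⁅a2, b2⁆⁆ = ⁅S, ⁅S, b1⁆⁆ ∧ ⁅a1, ⁅a1, b1⁆⁆ = ⁅S, ⁅S, b2⁆⁆ ∧
    ⁅b1, ⁅b1, a1⁆⁆ = ⁅P, ⁅P, a2⁆⁆ ∧ ⁅b2, ⁅b2, a2⁆⁆ = ⁅P, ⁅P, a1⁆⁆ := by
  refine ⟨?_, ?_, ?_, ?_⟩
  · rw [← h.r2, LI2_c (LI2_sw h.aS2), h.r3, lie_add, LI2_z (LI2_sw h.aa) h.ab21, zero_add]
  · rw [← h.r1, LI2_c (LI2_sw h.aS1), h.r3, lie_add, LI2_z h.aa h.ab12, add_zero]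
  · have e1 : ⁅P, a2⁆ = ⁅b1, S⁆ := by
      rw [← lie_skew, h.r2, lie_skew]
    have e2 : ⁅P, S⁆ = -(⁅a1, b1⁆ + ⁅a2, b2⁆) := by
      rw [← lie_skew, h.r3]
    rw [e1, LI2_c (LI2_sw h.bP1), e2, lie_neg, lie_add, LI2_z (LI2_sw h.ab21) h.bb, add_zero,
      ← lie_neg, lie_skew]
  · have e1 : ⁅P, a1⁆ = ⁅b2, S⁆ := by
      rw [← lie_skew, h.r1, lie_skew]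
    have e2 : ⁅P, S⁆ = -(⁅a1, b1⁆ + ⁅a2, b2⁆) := by
      rw [← lie_skew, h.r3]
    rw [e1, LI2_c (LI2_sw h.bP2), e2, lie_neg, lie_add, LI2_z (LI2_sw h.ab12) (LI2_sw h.bb),
      zero_add, ← lie_neg, lie_skew]

/-- PROOF. LA.kl: ⁅a2,⁅S,⁅S,b1⁆⁆⁆ = ⁅S,⁅S,⁅a2,b1⁆⁆⁆ = 0 as a2 commutes with S; the same for the others. -/
theorem LA.cube {a1 b1 a2 b2 S P : L} (h : LA a1 b1 a2 b2 S P) :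
    ⁅a1, ⁅a1, ⁅a1, b1⁆⁆⁆ = 0 ∧ ⁅a2, ⁅a2, ⁅a2, b2⁆⁆⁆ = 0 ∧
    ⁅b1, ⁅b1, ⁅b1, a1⁆⁆⁆ = 0 ∧ ⁅b2, ⁅b2, ⁅b2, a2⁆⁆⁆ = 0 := by
  obtain ⟨k2, k1, l1, l2⟩ := h.kl
  refine ⟨?_, ?_, ?_, ?_⟩
  · rw [k1]
    exact LI2_z h.aS1 (LI2_z h.aS1 h.ab12)
  · rw [k2]
    exact LI2_z h.aS2 (LI2_z h.aS2 h.ab21)
  · rw [l1]
    exact LI2_z h.bP1 (LI2_z h.bP1 (LI2_sw h.ab21))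
  · rw [l2]
    exact LI2_z h.bP2 (LI2_z h.bP2 (LI2_sw h.ab12))
-- END LI2

-- MODULE LI3
/-- The four expansions (LI3). -/
private theorem LI3_exp {a1 b1 a2 b2 S P : L} (h : LA a1 b1 a2 b2 S P) (φ ψ : L →ₗ⁅ℂ⁆ L)
    (pa1 : φ a1 = a1 - S + a2) (pa2 : φ a2 = a2) (pb1 : φ b1 = b1) (pb2 : φ b2 = b2 + P + b1)
    (qa1 : ψ a1 = a1 + S + a2) (qa2 : ψ a2 = a2) (qb1 : ψ b1 = b1) (qb2 : ψ b2 = b2 - P + b1) :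
    φ ⁅a1, ⁅a1, b1⁆⁆ = ⁅a1, ⁅a1, b1⁆⁆ - (2 : ℂ) • ⁅S, ⁅a1, b1⁆⁆ + ⁅S, ⁅S, b1⁆⁆ ∧
    ψ ⁅a1, ⁅a1, b1⁆⁆ = ⁅a1, ⁅a1, b1⁆⁆ + (2 : ℂ) • ⁅S, ⁅a1, b1⁆⁆ + ⁅S, ⁅S, b1⁆⁆ ∧
    φ ⁅b2, ⁅b2, a2⁆⁆ = ⁅b2, ⁅b2, a2⁆⁆ + (2 : ℂ) • ⁅P, ⁅b2, a2⁆⁆ + ⁅P, ⁅P, a2⁆⁆ ∧
    ψ ⁅b2, ⁅b2, a2⁆⁆ = ⁅b2, ⁅b2, a2⁆⁆ - (2 : ℂ) • ⁅P, ⁅b2, a2⁆⁆ + ⁅P, ⁅P, a2⁆⁆ := by
  have z1 : ⁅a2, ⁅a1, b1⁆⁆ = 0 := LI2_z (LI2_sw h.aa) h.ab21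
  have z2 : ⁅a2, ⁅S, b1⁆⁆ = 0 := LI2_z h.aS2 h.ab21
  have z3 : ⁅a1, ⁅S, b1⁆⁆ = ⁅S, ⁅a1, b1⁆⁆ := LI2_c h.aS1 _
  have y1 : ⁅b1, ⁅b2, a2⁆⁆ = 0 := LI2_z h.bb (LI2_sw h.ab21)
  have y2 : ⁅b1, ⁅P, a2⁆⁆ = 0 := LI2_z h.bP1 (LI2_sw h.ab21)
  have y3 : ⁅b2, ⁅P, a2⁆⁆ = ⁅P, ⁅b2, a2⁆⁆ := LI2_c h.bP2 _
  have y4 : ⁅b1, a2⁆ = 0 := LI2_sw h.ab21
  refine ⟨?_, ?_, ?_, ?_⟩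
  · rw [LieHom.map_lie, LieHom.map_lie, pa1, pb1]
    simp only [lie_add, add_lie, lie_sub, sub_lie, h.ab21, z1, z2, z3, lie_zero]
    module
  · rw [LieHom.map_lie, LieHom.map_lie, qa1, qb1]
    simp only [lie_add, add_lie, h.ab21, z1, z2, z3, lie_zero]
    module
  · rw [LieHom.map_lie, LieHom.map_lie, pb2, pa2]
    simp only [lie_add, add_lie, y1, y2, y3, y4, lie_zero]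
    module
  · rw [LieHom.map_lie, LieHom.map_lie, qb2, qa2]
    simp only [lie_add, add_lie, lie_sub, sub_lie, y1, y2, y3, y4, lie_zero]
    module

/-- PROOF. t2 says ⁅a2,⁅a2,b2⁆⁆ - 2 a2 = ⁅b2,⁅b2,a2⁆⁆ - 2 b2 =: θ2, t1: θ1 = κ1 - 2 a1 = λ1 - 2 b1 (κ1 = ⁅a1,⁅a1,b1⁆⁆, λ1 = ⁅b1,⁅b1,a1⁆⁆). Apply φ and ψ to both forms of θ1 and add. λ form: φ λ1 = ⁅b1,⁅b1,a1 - S + a2⁆⁆ = λ1 - ⁅b1,⁅b1,S⁆⁆, ψ λ1 = λ1 + ⁅b1,⁅b1,S⁆⁆ (a2 commutes with b1): (φ + ψ) θ1 = 2 θ1. κ form: φ κ1 = ⁅a1 - S + a2, ⁅a1 - S + a2, b1⁆⁆ = κ1 - ⁅a1,⁅S,b1⁆⁆ - ⁅S,⁅a1,b1⁆⁆ + ⁅S,⁅S,b1⁆⁆ (a2 commutes with a1, S, b1), ψ κ1 the same with S replaced by -S: (φ + ψ) κ1 = 2 κ1 + 2 ⁅S,⁅S,b1⁆⁆ = 2 κ1 + 2 κ2 (LA.kl), (φ + ψ) a1 = 2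 a1 + 2 a2: (φ + ψ) θ1 = 2 θ1 + 2 θ2. So θ2 = 0. Then λ2 = 2 b2; φ λ2 = ⁅b2 + P + b1, ⁅b2 + P + b1, a2⁆⁆ = λ2 + ⁅b2,⁅P,a2⁆⁆ + ⁅P,⁅b2,a2⁆⁆ + ⁅P,⁅P,a2⁆⁆ (b1 commutes with a2, b2, P), ψ: P replaced by -P. Sum: 2 λ2 + 2 ⁅P,⁅P,a2⁆⁆ = 2 λ2 + 2 λ1 = 2 (2 b2 + 2 b1) : λ1 = 2 b1, so θ1 = 0. -/
theorem LA.th {a1 b1 a2 b2 S P : L} (h : LA a1 b1 a2 b2 S P) (φ ψ : L →ₗ⁅ℂ⁆ L)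
    (pa1 : φ a1 = a1 - S + a2) (pa2 : φ a2 = a2) (pb1 : φ b1 = b1) (pb2 : φ b2 = b2 + P + b1)
    (qa1 : ψ a1 = a1 + S + a2) (qa2 : ψ a2 = a2) (qb1 : ψ b1 = b1) (qb2 : ψ b2 = b2 - P + b1)
    (t1 : ⁅a1, ⁅a1, b1⁆⁆ - (2 : ℂ) • a1 = ⁅b1, ⁅b1, a1⁆⁆ - (2 : ℂ) • b1)
    (t2 : ⁅a2, ⁅a2, b2⁆⁆ - (2 : ℂ) • a2 = ⁅b2, ⁅b2, a2⁆⁆ - (2 : ℂ) • b2) :
    ⁅a1, ⁅a1, b1⁆⁆ = (2 : ℂ) • a1 ∧ ⁅a2, ⁅a2, b2⁆⁆ = (2 : ℂ) • a2 ∧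
    ⁅b1, ⁅b1, a1⁆⁆ = (2 : ℂ) • b1 ∧ ⁅b2, ⁅b2, a2⁆⁆ = (2 : ℂ) • b2 := by
  obtain ⟨e1, e2, e3, e4⟩ := LI3_exp h φ ψ pa1 pa2 pb1 pb2 qa1 qa2 qb1 qb2
  obtain ⟨m2, m1, n1, n2⟩ := h.kl
  have y4 : ⁅b1, a2⁆ = 0 := LI2_sw h.ab21
  have f1 : φ ⁅b1, ⁅b1, a1⁆⁆ = ⁅b1, ⁅b1, a1⁆⁆ - ⁅b1, ⁅b1, S⁆⁆ := by
    rw [LieHom.map_lie, LieHom.map_lie, pb1, pa1]
    simp only [lie_add, lie_sub, y4, lie_zero]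
    module
  have f2 : ψ ⁅b1, ⁅b1, a1⁆⁆ = ⁅b1, ⁅b1, a1⁆⁆ + ⁅b1, ⁅b1, S⁆⁆ := by
    rw [LieHom.map_lie, LieHom.map_lie, qb1, qa1]
    simp only [lie_add, y4, lie_zero]
    module
  have g1 := congrArg φ t1
  have g2 := congrArg ψ t1
  rw [map_sub, map_sub, map_smul, map_smul, e1, f1, pa1, pb1] at g1
  rw [map_sub, map_sub, map_smul, map_smul, e2, f2, qa1, qb1] at g2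
  have k2 : ⁅a2, ⁅a2, b2⁆⁆ = (2 : ℂ) • a2 := by
    linear_combination (norm := module) m2 + (1 / 2 : ℂ) • g1 + (1 / 2 : ℂ) • g2 - t1
  have l2 : ⁅b2, ⁅b2, a2⁆⁆ = (2 : ℂ) • b2 := by
    linear_combination (norm := module) k2 - t2
  have g3 := congrArg φ l2
  have g4 := congrArg ψ l2
  rw [map_smul, e3, pb2] at g3
  rw [map_smul, e4, qb2] at g4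
  have l1 : ⁅b1, ⁅b1, a1⁆⁆ = (2 : ℂ) • b1 := by
    linear_combination (norm := module) n1 + (1 / 2 : ℂ) • g3 + (1 / 2 : ℂ) • g4 - l2
  have k1 : ⁅a1, ⁅a1, b1⁆⁆ = (2 : ℂ) • a1 := by
    linear_combination (norm := module) l1 + t1
  exact ⟨k1, k2, l1, l2⟩
-- END LI3

-- MODULE LI4
/-- PROOF. With k1: φ κ1 - ψ κ1 = -2 (⁅a1,⁅S,b1⁆⁆ + ⁅S,⁅a1,b1⁆⁆) = -4 ⁅S,⁅a1,b1⁆⁆ (a1 commutes with S, so ⁅a1,⁅S,b1⁆⁆ = ⁅S,⁅a1,b1⁆⁆; expansions as in LA.th), and φ (2 a1) - ψ (2 a1) = -4 S: w1. With l2: φ λ2 - ψ λ2 = 2 (⁅b2,⁅P,a2⁆⁆ + ⁅P,⁅b2,a2⁆⁆) = 4 ⁅P,⁅b2,a2⁆⁆, φ (2 b2) - ψ (2 b2) = 4 P: ⁅P,⁅b2,a2⁆⁆ = P. -/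
theorem LA.wt {a1 b1 a2 b2 S P : L} (h : LA a1 b1 a2 b2 S P) (φ ψ : L →ₗ⁅ℂ⁆ L)
    (pa1 : φ a1 = a1 - S + a2) (pa2 : φ a2 = a2) (pb1 : φ b1 = b1) (pb2 : φ b2 = b2 + P + b1)
    (qa1 : ψ a1 = a1 + S + a2) (qa2 : ψ a2 = a2) (qb1 : ψ b1 = b1) (qb2 : ψ b2 = b2 - P + b1)
    (k1 : ⁅a1, ⁅a1, b1⁆⁆ = (2 : ℂ) • a1) (l2 : ⁅b2, ⁅b2, a2⁆⁆ = (2 : ℂ) • b2) :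
    ⁅S, ⁅a1, b1⁆⁆ = S ∧ ⁅P, ⁅a2, b2⁆⁆ = -P := by
  obtain ⟨e1, e2, e3, e4⟩ := LI3_exp h φ ψ pa1 pa2 pb1 pb2 qa1 qa2 qb1 qb2
  have g1 := congrArg φ k1
  have g2 := congrArg ψ k1
  have g3 := congrArg φ l2
  have g4 := congrArg ψ l2
  rw [map_smul, e1, pa1] at g1
  rw [map_smul, e2, qa1] at g2
  rw [map_smul, e3, pb2] at g3
  rw [map_smul, e4, qb2] at g4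
  refine ⟨?_, ?_⟩
  · linear_combination (norm := module) (-1 / 4 : ℂ) • g1 + (1 / 4 : ℂ) • g2
  · rw [← lie_skew a2 b2, lie_neg]
    linear_combination (norm := module) (-1 / 4 : ℂ) • g3 + (1 / 4 : ℂ) • g4
-- END LI4

-- MODULE LI5
/-- PROOF. Write h1 = ⁅a1,b1⁆, h2 = ⁅a2,b2⁆; ⁅h1,h2⁆ = 0. (w2) u = ⁅h2,S⁆ + S. ⁅h2,⁅a2,P⁆⁆ = ⁅⁅h2,a2⁆,P⁆ + ⁅a2,⁅h2,P⁆⁆ = -2 ⁅a2,P⁆ + ⁅a2,P⁆ = -⁅S,b1⁆ (k2, p2, r2), and ⁅h2,⁅S,b1⁆⁆ = ⁅⁅h2,S⁆,b1⁆ (h2 commutes with b1): so ⁅u,b1⁆ = 0 by r2; ⁅a1,u⁆ = 0 (a1 commutes with h2 and S); so ⁅h1,u⁆ = 0. But ⁅h1,u⁆ = ⁅h2,⁅h1,S⁆⁆ + ⁅h1,S⁆ = -⁅h2,S⁆ - S = -u (w1). So u = 0: ⁅S,h2⁆ = S. (n1, n2) ⁅b1,⁅b1,S⁆⁆ = -⁅b1,⁅S,b1⁆⁆ = -⁅b1,⁅a2,P⁆⁆ = 0 (b1 commutes with a2 and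 P); ⁅b2,⁅b2,S⁆⁆ = -⁅b2,⁅a1,P⁆⁆ = 0. (s1, s2) LA.kl with k1, k2. (p) ⁅b2,S⁆ = -⁅a1,P⁆, ⁅b1,⁅b2,S⁆⁆ = ⁅b2,⁅b1,S⁆⁆ = -⁅b2,⁅a2,P⁆⁆ = -⁅⁅b2,a2⁆,P⁆ = ⁅h2,P⁆ = P (p2): the claim is r3. -/
theorem LA.core {a1 b1 a2 b2 S P : L} (h : LA a1 b1 a2 b2 S P)
    (k1 : ⁅a1, ⁅a1, b1⁆⁆ = (2 : ℂ) • a1) (k2 : ⁅a2, ⁅a2, b2⁆⁆ = (2 : ℂ) • a2)
    (l1 : ⁅b1, ⁅b1, a1⁆⁆ = (2 : ℂ) • b1) (l2 : ⁅b2, ⁅b2, a2⁆⁆ = (2 : ℂ) • b2)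
    (w1 : ⁅S, ⁅a1, b1⁆⁆ = S) (p2 : ⁅P, ⁅a2, b2⁆⁆ = -P) : Core a1 b1 a2 b2 S := by
  obtain ⟨m2, m1, n1, n2⟩ := h.kl
  obtain ⟨h2, hh2⟩ : ∃ x, x = ⁅a2, b2⁆ := ⟨_, rfl⟩
  obtain ⟨h1, hh1⟩ : ∃ x, x = ⁅a1, b1⁆ := ⟨_, rfl⟩
  have z1 : ⁅a1, h2⁆ = 0 := by rw [hh2]; exact LI2_z h.aa h.ab12
  have z2 : ⁅b1, h2⁆ = 0 := by rw [hh2]; exact LI2_z (LI2_sw h.ab21) h.bb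
  have z3 : ⁅h2, P⁆ = P := by
    rw [← hh2] at p2
    rw [← lie_skew, p2, neg_neg]
  have z4 : ⁅h2, a2⁆ = -((2 : ℂ) • a2) := by
    rw [← hh2] at k2
    rw [← lie_skew, k2]
  have z5 : ⁅h1, h2⁆ = 0 := by
    rw [hh1, lie_lie, z1, z2, lie_zero, lie_zero, sub_zero]
  have z6 : ⁅h1, S⁆ = -S := by
    rw [← hh1] at w1
    rw [← lie_skew, w1]
  have e1 : ⁅h2, ⁅a2, P⁆⁆ = -⁅S, b1⁆ := by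
    rw [leibniz_lie, z4, z3, neg_lie, smul_lie, h.r2]
    module
  have e2 : ⁅⁅h2, S⁆, b1⁆ = -⁅S, b1⁆ := by
    rw [h.r2, leibniz_lie, LI2_sw z2, lie_zero, add_zero] at e1
    exact e1
  have u1 : ⁅⁅h2, S⁆ + S, b1⁆ = 0 := by rw [add_lie, e2, neg_add_cancel]
  have u2 : ⁅a1, ⁅h2, S⁆ + S⁆ = 0 := by
    rw [lie_add, LI2_z z1 h.aS1, h.aS1, add_zero]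
  have u3 : ⁅h1, ⁅h2, S⁆ + S⁆ = 0 := by
    rw [hh1, lie_lie, LI2_sw u1, u2, lie_zero, lie_zero, sub_zero]
  have u4 : ⁅h1, ⁅h2, S⁆ + S⁆ = -(⁅h2, S⁆ + S) := by
    rw [lie_add, LI2_c z5, z6, lie_neg]
    module
  have u5 : ⁅h2, S⁆ + S = 0 := by
    rw [u3] at u4
    exact neg_eq_zero.1 u4.symm
  have w2 : ⁅S, h2⁆ = S := by
    rw [← lie_skew]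
    exact neg_eq_of_add_eq_zero_right u5
  have b1S : ⁅b1, S⁆ = -⁅a2, P⁆ := by rw [← lie_skew, h.r2]
  have b2S : ⁅b2, S⁆ = -⁅a1, P⁆ := by rw [← lie_skew, h.r1]
  refine ⟨k1, k2, l1, l2, w1, ?_, ?_, ?_, ?_, ?_, ?_⟩
  · rw [← hh2]
    exact w2
  · rw [b1S, lie_neg, LI2_z (LI2_sw h.ab21) h.bP1, neg_zero]
  · rw [b2S, lie_neg, LI2_z (LI2_sw h.ab12) h.bP2, neg_zero]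
  · rw [← m1, k1]
  · rw [← m2, k2]
  · have e3 : ⁅b1, ⁅b2, S⁆⁆ = P := by
      rw [LI2_c h.bb, b1S, lie_neg, leibniz_lie, h.bP2, lie_zero, add_zero, ← neg_lie, lie_skew,
        ← hh2, z3]
    rw [e3]
    exact h.r3
-- END LI5

end

end Pool.Agent.EG80
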