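import Mathlib

set_option linter.all false

namespace Pool.Agent.EG80

section

variable {R : Type*} [Ring R] [Algebra ℂ R]

/-- The truncated exponential series. -/
noncomputable def ee (k : ℕ) (a : R) : R :=
  ∑ i ∈ Finset.range k, ((i.factorial : ℂ)⁻¹) • a ^ i

/-- `a` is nilpotent and `U = exp a`. -/
def Lg (a U : R) : Prop := ∃ k, a ^ k = 0 ∧ U = ee k a

-- MODULE LG1
/-- PROOF. h = ⟨k0, h0, hU⟩; for k ≥ k0: a ^ k = 0 (pow_eq_zero_of_le), and ee k a - ee k0 a is the sum over i in [k0, k) of multiples of a ^ i = 0 (Finset.sum_range_add_sum_Ico or Finset.sum_subset). -/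
theorem Lg.ge {a U : R} (h : Lg a U) : ∃ k0, ∀ k, k0 ≤ k → a ^ k = 0 ∧ U = ee k a := by
  obtain ⟨k0, h0, hU⟩ := h
  refine ⟨k0, fun k hk => ⟨pow_eq_zero_of_le hk h0, ?_⟩⟩
  rw [hU]
  refine Finset.sum_subset (Finset.range_mono hk) fun i _ hi => ?_
  rw [Finset.mem_range, not_lt] at hi
  rw [pow_eq_zero_of_le hi h0, smul_zero]

/-- PROOF. ⟨k, ..⟩ with the product of the two exponents, a ^ k = 0. -/
theorem Lg.nil {a U : R} (h : Lg a U) : IsNilpotent a := by
  obtain ⟨k, h0, _⟩ := h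
  exact ⟨k, h0⟩

/-- PROOF. ⟨1, ..⟩: 0 ^ 1 = 0, ee 1 0 = 1. -/
theorem Lg.zero : Lg (0 : R) 1 := by
  refine ⟨1, pow_one _, ?_⟩
  rw [ee, Finset.sum_range_one, Nat.factorial_zero, Nat.cast_one, inv_one, pow_zero, one_smul]

/-- PROOF. ⟨2, ..⟩: ee 2 a = 1 + a (Finset.sum_range_succ). -/
theorem Lg.sq {a : R} (h : a * a = 0) : Lg a (1 + a) := by
  refine ⟨2, by rw [pow_two, h], ?_⟩
  rw [ee, Finset.sum_range_succ, Finset.sum_range_one, Nat.factorial_zero, Nat.factorial_one,
    Nat.cast_one, inv_one, pow_zero, one_smul, one_smul, pow_one]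

/-- PROOF. f (ee k a) = ee k (f a): map_sum, map_smul, map_pow. -/
theorem Lg.hom {R' : Type*} [Ring R'] [Algebra ℂ R'] (f : R →ₐ[ℂ] R') {a U : R} (h : Lg a U) :
    Lg (f a) (f U) := by
  obtain ⟨k, h0, hU⟩ := h
  refine ⟨k, by rw [← map_pow, h0, map_zero], ?_⟩
  rw [hU, ee, ee, map_sum]
  refine Finset.sum_congr rfl fun i _ => ?_
  rw [map_smul, map_pow]

/-- PROOF. Same k, (X * a * Y) ^ i = X * a ^ i * Y for all i (i = 0: X * Y = 1; induction with Y * X = 1), Finset.mul_sum, Finset.sum_mul. -/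
theorem Lg.conj {a U X Y : R} (h : Lg a U) (hXY : X * Y = 1) (hYX : Y * X = 1) :
    Lg (X * a * Y) (X * U * Y) := by
  obtain ⟨k, h0, hU⟩ := h
  have hp : ∀ i, (X * a * Y) ^ i = X * a ^ i * Y := by
    intro i
    induction i with
    | zero => rw [pow_zero, pow_zero, mul_one, hXY]
    | succ i ih =>
      rw [pow_succ, ih, pow_succ]
      calc X * a ^ i * Y * (X * a * Y) = X * a ^ i * (Y * X) * a * Y := by
            simp only [mul_assoc]
        _ = X * (a ^ i * a) * Y := by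
            rw [hYX, mul_one]
            simp only [mul_assoc]
  refine ⟨k, by rw [hp, h0, mul_zero, zero_mul], ?_⟩
  rw [hU, ee, ee, Finset.mul_sum, Finset.sum_mul]
  refine Finset.sum_congr rfl fun i _ => ?_
  rw [hp, mul_smul_comm, smul_mul_assoc]
-- END LG1

-- MODULE LG2
/-- PROOF. This is IsNilpotent.exp_add_of_commute of Mathlib: letI : Module ℚ R := Module.compHom R (algebraMap ℚ ℂ); then (q : ℚ) • x = ((q : ℂ)) • x by rfl, so ee k a = ∑ i ∈ range k, (i.factorial : ℚ)⁻¹ • a ^ i = IsNilpotent.exp a if a ^ k = 0 (IsNilpotent.exp_eq_sum; push_cast). a + b is nilpotent (Commute.isNilpotent_add), exponent k: U * W = exp a * exp b = exp (a + b) = ee k (a + b). -/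
theorem Lg.add {a b U W : R} (hc : Commute a b) (h1 : Lg a U) (h2 : Lg b W) :
    Lg (a + b) (U * W) := by
  let _ : Module ℚ R := Module.compHom R (algebraMap ℚ ℂ)
  have hq : ∀ (k : ℕ) (x : R), ee k x =
      ∑ i ∈ Finset.range k, ((i.factorial : ℚ)⁻¹) • x ^ i := by
    intro k x
    refine Finset.sum_congr rfl fun i _ => ?_
    have h3 : ((i.factorial : ℚ)⁻¹) • x ^ i =
        (algebraMap ℚ ℂ ((i.factorial : ℚ)⁻¹)) • x ^ i := rfl
    rw [h3, map_inv₀, map_natCast]
  have he : ∀ {x X : R}, Lg x X → X = IsNilpotent.exp x := by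
    intro x X h
    obtain ⟨k, h0, hX⟩ := h
    rw [hX, IsNilpotent.exp_eq_sum h0, hq]
  obtain ⟨k, hk⟩ := hc.isNilpotent_add h1.nil h2.nil
  refine ⟨k, hk, ?_⟩
  rw [hq, ← IsNilpotent.exp_eq_sum hk, he h1, he h2,
    IsNilpotent.exp_add_of_commute hc h1.nil h2.nil]

private theorem LG2_zero {X : R} (h : Lg (0 : R) X) : X = 1 := by
  obtain ⟨k0, hk⟩ := h.ge
  obtain ⟨_, h1⟩ := hk (k0 + 1) (by omega)
  rw [h1, ee, Finset.sum_range_succ', Finset.sum_eq_zero, zero_add, Nat.factorial_zero,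
    Nat.cast_one, inv_one, pow_zero, one_smul]
  intro i _
  rw [zero_pow (by omega), smul_zero]

/-- PROOF. U' = ee k (-a) ((-a) ^ k = 0 if a ^ k = 0); Lg.add with a and -a in both orders: Lg 0 (U * U'), and Lg 0 X gives X = 1 (Lg.ge: X = ee k 0 for a k ≥ 1, and ee k 0 = 1). -/
theorem Lg.neg {a U : R} (h : Lg a U) : ∃ U', Lg (-a) U' ∧ U * U' = 1 ∧ U' * U = 1 := by
  obtain ⟨k, h0, hU⟩ := id h
  have h1 : Lg (-a) (ee k (-a)) := ⟨k, by rw [neg_pow, h0, mul_zero], rfl⟩
  have hc : Commute a (-a) := (Commute.refl a).neg_right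
  refine ⟨_, h1, ?_, ?_⟩
  · have h2 := Lg.add hc h h1
    rw [add_neg_cancel] at h2
    exact LG2_zero h2
  · have h2 := Lg.add hc.symm h1 h
    rw [neg_add_cancel] at h2
    exact LG2_zero h2

/-- PROOF. Obtain U'' from Lg.neg; U' = U'' (left_inv_eq_right_inv). -/
theorem Lg.neg' {a U U' : R} (h : Lg a U) (h' : U' * U = 1) : Lg (-a) U' := by
  obtain ⟨U'', h1, h2, _⟩ := h.neg
  rw [left_inv_eq_right_inv h' h2]
  exact h1
-- END LG2

-- MODULE LG3
private theorem LG3_comm {C : Type*} [CommRing C] [Algebra ℂ C] (m : ℕ) :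
    ∀ y : C, y ^ (m + 1) = 0 → ∃ a, Lg a (1 + y) := by
  induction m using Nat.strong_induction_on with
  | _ m ih =>
    intro y hy
    rcases Nat.lt_or_ge m 2 with hm | hm
    · have h2 : y * y = 0 := by
        rw [← pow_two]
        exact pow_eq_zero_of_le (by omega) hy
      exact ⟨y, Lg.sq h2⟩
    · have hE : Lg y (ee (m + 1) y) := ⟨m + 1, hy, rfl⟩
      obtain ⟨E', h1, h2, h3⟩ := hE.neg
      obtain ⟨k0, hk⟩ := h1.ge
      obtain ⟨_, h4⟩ := hk (k0 + 2) (by omega)
      obtain ⟨c, hc⟩ : ∃ c : C, E' = 1 - y + y ^ 2 * c := by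
        refine ⟨∑ i ∈ Finset.range k0, (((i + 2).factorial : ℂ)⁻¹) • (-y) ^ i, ?_⟩
        rw [h4, ee, Finset.sum_range_succ', Finset.sum_range_succ', Finset.mul_sum]
        have h5 : ∀ i, (((i + 1 + 1).factorial : ℂ)⁻¹) • (-y) ^ (i + 1 + 1) =
            y ^ 2 * ((((i + 2).factorial : ℂ)⁻¹) • (-y) ^ i) := by
          intro i
          rw [mul_smul_comm]
          congr 1
          ring
        rw [Finset.sum_congr rfl fun i _ => h5 i]
        simp only [zero_add, Nat.factorial_one, Nat.factorial_zero, Nat.cast_one, inv_one,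
          one_smul, pow_one, pow_zero]
        ring
      have h5 : (1 + y) * E' = 1 + y ^ 2 * (c + y * c - 1) := by
        rw [hc]
        ring
      obtain ⟨a', ha'⟩ := ih (m / 2) (by omega) (y ^ 2 * (c + y * c - 1)) (by
        rw [mul_pow, ← pow_mul, pow_eq_zero_of_le (by omega) hy, zero_mul])
      refine ⟨a' + y, ?_⟩
      have h6 := Lg.add (Commute.all a' y) ha' hE
      rw [← h5, mul_assoc, h3, mul_one] at h6
      exact h6

/-- PROOF. Strong induction on m for: for all y with y ^ (m + 1) = 0 there is such an a. m = 0: y = 0, a = 0 (Lg.zero). m = 1: y * y = 0, a = y (Lg.sq). m ≥ 2: Lg y (ee (m+1) y); Lg.neg: Lg (-y) E', E' = ee k (-y) for a k ≥ 2 (Lg.ge), so E' = 1 - y + y ^ 2 * c with c in adjoin {y} (split off the first two terms of the sum, Finset.sum_range_succ' twice). So (1 + y) * E' = 1 + y', y' = y ^ 2 * (c + y * c - 1) =: y ^ 2 * d, d in adjoin {y}; d commutes with y (adjoin of one element is commutative: Algebra.adjoinCommRingOfComm,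 or Commute by Algebra.adjoin_induction / Algebra.commute_of_mem_adjoin_singleton_of_commute), so y' ^ (m' + 1) = y ^ (2 (m'+1)) * d ^ (m'+1) = 0 for m' = m / 2, as 2 (m'+1) ≥ m + 1, and m' < m. Induction: a' in adjoin {y'} ≤ adjoin {y}, Lg a' (1 + y'). Take a = a' + y: a' commutes with y, Lg.add: Lg (a' + y) ((1 + y') * E) with E = ee (m+1) y, E' * E = 1, so (1 + y') * E = (1 + y) * E' * E = 1 + y. -/
theorem exists_lg (y : R) (hy : IsNilpotent y) :
    ∃ a ∈ Algebra.adjoin ℂ {y}, Lg a (1 + y) := by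
  have _ : IsMulCommutative (Algebra.adjoin ℂ ({y} : Set R)) :=
    Algebra.isMulCommutative_adjoin ℂ (by
      intro a ha b hb
      rw [Set.mem_singleton_iff] at ha hb
      rw [ha, hb])
  obtain ⟨m, hm⟩ := hy
  have h1 : (⟨y, Algebra.subset_adjoin rfl⟩ : Algebra.adjoin ℂ ({y} : Set R)) ^ (m + 1) = 0 := by
    refine Subtype.ext ?_
    show y ^ (m + 1) = 0
    exact pow_eq_zero_of_le (by omega) hm
  obtain ⟨a, ha⟩ := LG3_comm m _ h1
  refine ⟨a, a.2, ?_⟩
  exact Lg.hom (Algebra.adjoin ℂ ({y} : Set R)).val ha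
-- END LG3

-- MODULE LG4
private theorem LG4_fac (k : ℕ) (a : R) :
    ee (k + 1) a = 1 + a * ∑ i ∈ Finset.range k, (((i + 1).factorial : ℂ)⁻¹) • a ^ i := by
  rw [ee, Finset.sum_range_succ', Nat.factorial_zero, Nat.cast_one, inv_one, pow_zero, one_smul,
    add_comm, Finset.mul_sum]
  congr 1
  refine Finset.sum_congr rfl fun i _ => ?_
  rw [mul_smul_comm, pow_succ']

private theorem LG4_c (k : ℕ) (a : R) (f : ℕ → ℂ) :
    Commute a (∑ i ∈ Finset.range k, f i • a ^ i) :=
  Commute.sum_right _ _ _ fun i _ => ((Commute.refl a).pow_right i).smul_right (f i)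

private theorem LG4_unip {a U : R} (h : Lg a U) : IsNilpotent (U - 1) := by
  obtain ⟨k0, hk⟩ := h.ge
  obtain ⟨h0, hU⟩ := hk (k0 + 1) (by omega)
  rw [hU, LG4_fac, add_sub_cancel_left]
  exact Commute.isNilpotent_mul_right (LG4_c _ _ _) ⟨_, h0⟩

/-- PROOF. Lg.ge: 1 = ee k a for a k ≥ 2 with a ^ k = 0: 0 = a * u with u = ∑ i in range (k-1), 1/(i+1)! a ^ i = 1 + (nilpotent commuting with a) (Finset.sum_range_succ'), so u is a unit (IsNilpotent.isUnit_one_add), a * u = 0 gives a = 0. -/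
theorem Lg.one {a : R} (h : Lg a 1) : a = 0 := by
  obtain ⟨k0, hk⟩ := h.ge
  obtain ⟨h0, hU⟩ := hk (k0 + 1 + 1) (by omega)
  rw [LG4_fac, left_eq_add] at hU
  have h1 : IsUnit (∑ i ∈ Finset.range (k0 + 1), (((i + 1).factorial : ℂ)⁻¹) • a ^ i) := by
    rw [Finset.sum_range_succ', zero_add, Nat.factorial_one, Nat.cast_one, inv_one, pow_zero,
      one_smul, add_comm]
    refine IsNilpotent.isUnit_one_add ?_
    have h2 : ∑ i ∈ Finset.range k0, (((i + 1 + 1).factorial : ℂ)⁻¹) • a ^ (i + 1) =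
        a * ∑ i ∈ Finset.range k0, (((i + 1 + 1).factorial : ℂ)⁻¹) • a ^ i := by
      rw [Finset.mul_sum]
      refine Finset.sum_congr rfl fun i _ => ?_
      rw [mul_smul_comm, pow_succ']
    rw [h2]
    exact Commute.isNilpotent_mul_right (LG4_c _ _ _) ⟨_, h0⟩
  obtain ⟨u, hu⟩ := h1
  rw [← hu] at hU
  exact (Units.mul_left_eq_zero u).1 hU

private theorem LG4_self {a U : R} (h : Lg a U) : Commute a U := by
  obtain ⟨k, _, rfl⟩ := h
  exact LG4_c k a _

private theorem LG4_eq {a b U : R} (h : Lg a U) (h' : Lg b U) (hc : Commute a b) : a = b := by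
  obtain ⟨U', h1, h2, h3⟩ := h.neg
  have h4 := Lg.add hc.neg_right h (Lg.neg' h' h3)
  rw [h2] at h4
  have h5 := Lg.one h4
  rw [← sub_eq_add_neg, sub_eq_zero] at h5
  exact h5

/-- A nilpotent logarithm commutes with everything that commutes with `U`.
PROOF. y = U - 1 is nilpotent (y = ee k a - 1 is a sum of commuting nilpotents, or Lg.unip below: ee k a - 1 = a * u, a, u commute). exists_lg: c in adjoin {y}, Lg c U. a commutes with U = ee k a, so with y, so with c (element of adjoin {y}). Lg.add for a and -c (Lg.neg' for c with U' the inverse): Lg (a - c) (U * U') = Lg (a - c) 1: a = c (Lg.one). X commutes with U, so with y and c = a. -/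
theorem Lg.comm {a U X : R} (h : Lg a U) (hX : Commute X U) : Commute X a := by
  obtain ⟨c, hc, h1⟩ := exists_lg (U - 1) (LG4_unip h)
  rw [add_sub_cancel] at h1
  have h2 : ∀ Y : R, Commute Y U → Commute Y c := fun Y hY =>
    Algebra.commute_of_mem_adjoin_singleton_of_commute hc
      (hY.sub_right (Commute.one_right Y))
  have h3 : a = c := LG4_eq h h1 (h2 a (LG4_self h))
  rw [h3]
  exact h2 X hX

/-- PROOF. b commutes with U = ee k b, so Commute b a (Lg.comm); Lg.add for a and -b as in Lg.comm: Lg (a - b) 1, Lg.one. -/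
theorem Lg.uniq {a b U : R} (h : Lg a U) (h' : Lg b U) : a = b := by
  exact LG4_eq h h' (Lg.comm h (LG4_self h')).symm

/-- PROOF. ee k a - 1 = a * u for k ≥ 1, u a polynomial in a, commuting with a: (a * u) ^ k = a ^ k * u ^ k = 0. -/
theorem Lg.unip {a U : R} (h : Lg a U) : IsNilpotent (U - 1) := by
  exact LG4_unip h

/-- PROOF. Lg.comm twice: Commute U U' gives Commute U a', and then Commute a' U gives Commute a' a. -/
theorem Lg.comm2 {a U a' U' : R} (h : Lg a U) (h' : Lg a' U') (hc : Commute U U') :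
    Commute a a' := by
  exact (Lg.comm h (Lg.comm h' hc).symm).symm
-- END LG4

-- MODULE LG5
/-- PROOF. In the algebra End ℂ R: L = LinearMap.mulLeft ℂ b, M = LinearMap.mulRight ℂ (-b); they commute (LinearMap.commute_mulLeft_right), Lg L (mulLeft ℂ U) (Lg.hom for the left multiplication Algebra.lmul ℂ R; or by hand: mulLeft ℂ a ^ i = mulLeft ℂ (a ^ i), LinearMap.pow_mulLeft) and Lg M (mulRight ℂ U') (by hand with LinearMap.pow_mulRight: ee k (mulRight ℂ (-b)) = mulRight ℂ (ee k (-b)), apply both sides to an element, Finset.mul_sum). Lg.add: Lg (L + M) (mulLeft U * mulRight U'). Lg.ge with k ≥ 3, apply to a: U * a * U' = ∑ i in range k, 1/i! (L + M) ^ i a, and (L + M) x = b * x - x * b, so (L + M) ^ i a = 0 for i ≥ 3 by the hypothesis; the first three terms are the claim (Finset.sum_range_succ' or Finset.sum_subset (range 3)). -/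
theorem Lg.ad3 {a b U U' : R} (h : Lg b U) (h' : U' * U = 1)
    (h3 : ⁅b, ⁅b, ⁅b, a⁆⁆⁆ = 0) :
    U * a * U' = a + ⁅b, a⁆ + (1 / 2 : ℂ) • ⁅b, ⁅b, a⁆⁆ := by
  have h1 : Lg (LinearMap.mulLeft ℂ b) (LinearMap.mulLeft ℂ U) :=
    Lg.hom (Algebra.lmul ℂ R) h
  have h2 : Lg (LinearMap.mulRight ℂ (-b)) (LinearMap.mulRight ℂ U') := by
    obtain ⟨k, h4, h5⟩ := Lg.neg' h h'
    refine ⟨k, by rw [LinearMap.pow_mulRight, h4, LinearMap.mulRight_zero_eq_zero], ?_⟩
    refine LinearMap.ext fun x => ?_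
    rw [LinearMap.mulRight_apply, h5, ee, ee, LinearMap.sum_apply, Finset.mul_sum]
    refine Finset.sum_congr rfl fun i _ => ?_
    rw [LinearMap.smul_apply, LinearMap.pow_mulRight, LinearMap.mulRight_apply, mul_smul_comm]
  have h6 := Lg.add (LinearMap.commute_mulLeft_right b (-b)) h1 h2
  obtain ⟨k0, hk⟩ := h6.ge
  obtain ⟨_, h7⟩ := hk (k0 + 3) (by omega)
  have hL : ∀ x, (LinearMap.mulLeft ℂ b + LinearMap.mulRight ℂ (-b)) x = ⁅b, x⁆ := by
    intro x
    rw [LinearMap.add_apply, LinearMap.mulLeft_apply, LinearMap.mulRight_apply, mul_neg,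
      ← sub_eq_add_neg, Ring.lie_def]
  have h8 := LinearMap.congr_fun h7 a
  rw [Module.End.mul_apply, LinearMap.mulLeft_apply, LinearMap.mulRight_apply, ← mul_assoc] at h8
  rw [h8, ee, LinearMap.sum_apply, Finset.sum_range_succ', Finset.sum_range_succ',
    Finset.sum_range_succ', Finset.sum_eq_zero]
  · simp only [LinearMap.smul_apply, pow_succ', pow_zero, Module.End.mul_apply,
      Module.End.one_apply, hL, zero_add]
    rw [Nat.factorial_zero, Nat.factorial_one, Nat.factorial_two, Nat.cast_one, Nat.cast_two,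
      inv_one, one_smul, one_smul, one_div]
    abel
  · intro i _
    rw [LinearMap.smul_apply, pow_succ, pow_succ, pow_succ, Module.End.mul_apply,
      Module.End.mul_apply, Module.End.mul_apply, hL, hL, hL, h3, map_zero, smul_zero]
-- END LG5

end

section

variable {V : Type*} [AddCommGroup V] [Module ℂ V]

-- MODULE LG6
/-- PROOF. U d is a sum of multiples of (a ^ i) d, in D by induction on i. -/
theorem Lg.stab {a U : Module.End ℂ V} (h : Lg a U) (D : Submodule ℂ V)
    (hD : ∀ d ∈ D, a d ∈ D) : ∀ d ∈ D, U d ∈ D := by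
  intro d hd
  obtain ⟨k, _, rfl⟩ := h
  have hp : ∀ i, (a ^ i) d ∈ D := by
    intro i
    induction i with
    | zero => rw [pow_zero]; exact hd
    | succ i ih =>
      rw [pow_succ', Module.End.mul_apply]
      exact hD _ ih
  rw [ee, LinearMap.sum_apply]
  refine Submodule.sum_mem _ fun i _ => ?_
  rw [LinearMap.smul_apply]
  exact Submodule.smul_mem _ _ (hp i)

/-- PROOF. By Lg.ge one k for both; (a.prodMap b) ^ i = (a ^ i).prodMap (b ^ i) (LinearMap.prodMap_pow or induction with LinearMap.prodMap_mul); extensionality. Or Lg.hom for the algebra homomorphism LinearMap.prodMapAlgHom, and Lg (a, b) (U, W) in the product algebra. -/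
theorem Lg.prodMap {T : Type*} [AddCommGroup T] [Module ℂ T] {a U : Module.End ℂ V}
    {b W : Module.End ℂ T} (h1 : Lg a U) (h2 : Lg b W) :
    Lg (a.prodMap b : Module.End ℂ (V × T)) (U.prodMap W) := by
  obtain ⟨k1, hk1⟩ := h1.ge
  obtain ⟨k2, hk2⟩ := h2.ge
  obtain ⟨e1, e2⟩ := hk1 (k1 + k2) (by omega)
  obtain ⟨f1, f2⟩ := hk2 (k1 + k2) (by omega)
  have hp : ∀ i, (a.prodMap b : Module.End ℂ (V × T)) ^ i = (a ^ i).prodMap (b ^ i) := by
    intro i
    induction i with
    | zero => rfl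
    | succ i ih =>
      rw [pow_succ, ih, pow_succ, pow_succ]
      rfl
  refine ⟨k1 + k2, by rw [hp, e1, f1]; rfl, ?_⟩
  rw [e2, f2]
  refine LinearMap.ext fun x => ?_
  refine Prod.ext ?_ ?_
  · simp only [LinearMap.prodMap_apply, ee, LinearMap.sum_apply, LinearMap.smul_apply, hp,
      Prod.fst_sum, Prod.smul_fst]
  · simp only [LinearMap.prodMap_apply, ee, LinearMap.sum_apply, LinearMap.smul_apply, hp,
      Prod.snd_sum, Prod.smul_snd]
-- END LG6

end

end Pool.Agent.EG80
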