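import Pool.Agent.EG80.Log
import Pool.Agent.EG80.Grp
import Pool.Agent.EG80.Lie

set_option linter.all false

namespace Pool.Agent.EG80

attribute [local instance 100] LieRing.ofAssociativeRing

open Pool.Agent.HG13

section

variable {R : Type*} [Ring R] [Algebra ℂ R]

/-- Conjugation by a unit, as a homomorphism of Lie algebras. -/
def cnj (u : Rˣ) : R →ₗ⁅ℂ⁆ R where
  toFun r := (u : R) * r * ((u⁻¹ : Rˣ) : R)
  map_add' r r' := by simp [mul_add, add_mul]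
  map_smul' c r := by simp
  map_lie' := by
    intro r r'
    simp only [LieRing.of_associative_ring_bracket]
    have h : ∀ v w : R, (u : R) * v * ((u⁻¹ : Rˣ) : R) * ((u : R) * w * ((u⁻¹ : Rˣ) : R)) =
        (u : R) * (v * w) * ((u⁻¹ : Rˣ) : R) := by
      intro v w
      simp [mul_assoc]
    rw [h, h, mul_sub, sub_mul]

theorem cnj_apply (u : Rˣ) (r : R) : cnj u r = (u : R) * r * ((u⁻¹ : Rˣ) : R) := rfl

/-- Logarithms are conjugated (`Lg.conj`). -/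
theorem Lg.cnj' {a : R} {U : Rˣ} (u : Rˣ) (h : Lg a (U : R)) :
    Lg (EG80.cnj u a) ((u * U * u⁻¹ : Rˣ) : R) := by
  rw [cnj_apply, Units.val_mul, Units.val_mul]
  exact h.conj (Units.mul_inv u) (Units.inv_mul u)

variable {x y z b a : Rˣ} {a1 b1 a2 b2 e : R}

-- MODULE PA1
private theorem PA1_fix {s a : Rˣ} {a2 : R} (h : Commute s a) (l2 : Lg a2 (a : R)) :
    cnj s a2 = a2 := by
  have h1 : Commute (s : R) a2 := Lg.comm l2 h.units_val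
  rw [cnj_apply, h1.eq, Units.mul_inv_cancel_right]

private theorem PA1_eq {s x z : Rˣ} {a1 e : R} (h : s * x * s⁻¹ = z) (l1 : Lg a1 (x : R))
    (le : Lg e (z : R)) : cnj s a1 = e := by
  have h1 := Lg.cnj' s l1
  rw [h] at h1
  exact h1.uniq le

private theorem PA1_can (s : Rˣ) (r : R) : cnj s (cnj s⁻¹ r) = r := by
  simp [cnj_apply, mul_assoc]

private theorem PA1_can' (s : Rˣ) (r : R) : cnj s⁻¹ (cnj s r) = r := by
  simp [cnj_apply, mul_assoc]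

private theorem PA1_sum {w z a x : Rˣ} {e' e a2 a1 : R} (h : w * z = a ^ 2 * x ^ 2)
    (hza : Commute z a) (hzx : Commute z x) (hax : Commute a x) (l' : Lg e' (w : R))
    (le : Lg e (z : R)) (l2 : Lg a2 (a : R)) (l1 : Lg a1 (x : R)) :
    e' + e = (2 : ℂ) • a2 + (2 : ℂ) • a1 := by
  have hw : w = a ^ 2 * x ^ 2 * z⁻¹ := eq_mul_inv_of_mul_eq h
  have hc : Commute w z := by
    rw [hw]
    exact (((hza.pow_right 2).mul_right (hzx.pow_right 2)).symm).mul_left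
      (Commute.refl z).inv_left
  have h1 : Lg (e' + e) ((w : R) * (z : R)) := Lg.add (Lg.comm2 l' le hc.units_val) l' le
  have h2 : Lg (a2 + a2) ((a : R) * (a : R)) := Lg.add (Commute.refl a2) l2 l2
  have h3 : Lg (a1 + a1) ((x : R) * (x : R)) := Lg.add (Commute.refl a1) l1 l1
  have h4 : Commute a2 a1 := Lg.comm2 l2 l1 hax.units_val
  have h5 : Lg (a2 + a2 + (a1 + a1)) ((a : R) * (a : R) * ((x : R) * (x : R))) :=
    Lg.add ((h4.add_left h4).add_right (h4.add_left h4)) h2 h3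
  have h6 : (w : R) * (z : R) = (a : R) * (a : R) * ((x : R) * (x : R)) := by
    have h7 := congrArg (fun u : Rˣ => (u : R)) h
    simpa [pow_two] using h7
  rw [h6] at h1
  rw [h1.uniq h5, two_smul, two_smul]

/-- The first second difference (`a1, b1, e, b2, a2` are the logarithms of `x, y, z, b, a`).
PROOF. s = sg x y z a. a2, b1: s commutes with a, y (Q5.sa, sy): Lg.cnj' and Lg.uniq (s a s⁻¹ = a). cnj s a1 = e: Q5.sx, Lg.cnj', Lg.uniq. Let e' = cnj s⁻¹ a1, a logarithm of E' = s⁻¹ x s (s⁻¹⁻¹ = s); E' z = a ^ 2 x ^ 2 (Q5.sx'), E' = a ^ 2 x ^ 2 z⁻¹ commutes with z; so Lg (e' + e) (E' z) (Lg.add, Lg.comm2), and Lg (2 a2 + 2 a1) (a ^ 2 x ^ 2) (Lg.add: a2 + a2 + (a1 + a1), all commute), Lg.uniq: e' + e = 2 a2 + 2 a1. Apply cnj s: cnj s e' = a1, so cnj s e = 2 a2 + 2 e - a1. -/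
theorem pair_a (h : Q5 x y z b a) (l1 : Lg a1 (x : R)) (m1 : Lg b1 (y : R)) (le : Lg e (z : R))
    (l2 : Lg a2 (a : R)) :
    cnj (sg x y z a) a2 = a2 ∧ cnj (sg x y z a) b1 = b1 ∧ cnj (sg x y z a) a1 = e ∧
    cnj (sg x y z a)⁻¹ a1 = (2 : ℂ) • a1 + (2 : ℂ) • a2 - e ∧
    cnj (sg x y z a) e = (2 : ℂ) • a2 + (2 : ℂ) • e - a1 := by
  have e1 : cnj (sg x y z a) a2 = a2 := PA1_fix h.sa l2
  have e2 : cnj (sg x y z a) b1 = b1 := PA1_fix h.sy m1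
  have e3 : cnj (sg x y z a) a1 = e := PA1_eq h.sx l1 le
  have h1 : Lg (cnj (sg x y z a)⁻¹ a1) (((sg x y z a)⁻¹ * x * sg x y z a : Rˣ) : R) := by
    have h2 := Lg.cnj' (sg x y z a)⁻¹ l1
    rw [inv_inv] at h2
    exact h2
  have h3 : cnj (sg x y z a)⁻¹ a1 + e = (2 : ℂ) • a2 + (2 : ℂ) • a1 :=
    PA1_sum h.sx' h.za h.xz.symm h.xa.symm h1 le l2 l1
  have e4 : cnj (sg x y z a)⁻¹ a1 = (2 : ℂ) • a1 + (2 : ℂ) • a2 - e := by
    linear_combination (norm := module) h3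
  refine ⟨e1, e2, e3, e4, ?_⟩
  have h4 := congrArg (cnj (sg x y z a)) e4
  rw [PA1_can, map_sub, map_add, map_smul, map_smul, e1, e3] at h4
  linear_combination (norm := module) h4
-- END PA1

-- MODULE PA2
/-- The other second difference, `G = cnj s b2` (logarithm of `G' = s b s⁻¹`).
PROOF. Q5.sb': (s⁻¹ b s) G' = b ^ 2 y ^ 2, G' commutes with b, y (Q5.sbb, sby), so with s⁻¹ b s = b ^ 2 y ^ 2 G'⁻¹: Lg.add, Lg.uniq: cnj s⁻¹ b2 + G = 2 b2 + 2 b1 (b, y commute). Apply cnj s (b1 fixed by pair_a or Q5.sy): b2 + cnj s G = 2 G + 2 b1. Commutations: Lg.comm2 with Q5.sbb, Q5.sby. -/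
theorem pair_b (h : Q5 x y z b a) (m1 : Lg b1 (y : R)) (m2 : Lg b2 (b : R)) :
    cnj (sg x y z a)⁻¹ b2 = (2 : ℂ) • b2 + (2 : ℂ) • b1 - cnj (sg x y z a) b2 ∧
    cnj (sg x y z a) (cnj (sg x y z a) b2) =
      (2 : ℂ) • cnj (sg x y z a) b2 + (2 : ℂ) • b1 - b2 ∧
    Commute (cnj (sg x y z a) b2) b1 ∧ Commute (cnj (sg x y z a) b2) b2 := by
  have e2 : cnj (sg x y z a) b1 = b1 := PA1_fix h.sy m1
  have hG := Lg.cnj' (sg x y z a) m2
  have h1 : Lg (cnj (sg x y z a)⁻¹ b2) (((sg x y z a)⁻¹ * b * sg x y z a : Rˣ) : R) := by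
    have h2 := Lg.cnj' (sg x y z a)⁻¹ m2
    rw [inv_inv] at h2
    exact h2
  have h3 : cnj (sg x y z a)⁻¹ b2 + cnj (sg x y z a) b2 = (2 : ℂ) • b2 + (2 : ℂ) • b1 :=
    PA1_sum h.sb' h.sbb h.sby (show Commute b y from h.yb.symm) h1 hG m2 m1
  have e4 : cnj (sg x y z a)⁻¹ b2 =
      (2 : ℂ) • b2 + (2 : ℂ) • b1 - cnj (sg x y z a) b2 := by
    linear_combination (norm := module) h3
  refine ⟨e4, ?_, Lg.comm2 hG m1 h.sby.units_val, Lg.comm2 hG m2 h.sbb.units_val⟩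
  have h4 := congrArg (cnj (sg x y z a)) e4
  rw [PA1_can, map_sub, map_add, map_smul, map_smul, e2] at h4
  linear_combination (norm := module) h4
-- END PA2

-- MODULE PA3
/-- PROOF. Lg.ad3 for ⁅b1,⁅b1,⁅b1,a1⁆⁆⁆ = 0 (U = y, U' = y⁻¹): y a1 y⁻¹ = a1 + ⁅b1,a1⁆ + 1/2 ⁅b1,⁅b1,a1⁆⁆; Lg.ad3 for -a1 = log x⁻¹ (Lg.neg'; U = x⁻¹, U' = x): x⁻¹ b1 x = b1 - ⁅a1,b1⁆ + 1/2 ⁅a1,⁅a1,b1⁆⁆. x y x = y x y: y x y⁻¹ = x⁻¹ y x, so y a1 y⁻¹ = x⁻¹ b1 x (both are logarithms of the same unit: Lg.conj, Lg.uniq). ⁅b1,a1⁆ = -⁅a1,b1⁆ cancels; multiply by 2. -/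
theorem braid_log {x y : Rˣ} {a1 b1 : R} (hxy : x * y * x = y * x * y) (l1 : Lg a1 (x : R))
    (m1 : Lg b1 (y : R)) (h1 : ⁅a1, ⁅a1, ⁅a1, b1⁆⁆⁆ = 0) (h2 : ⁅b1, ⁅b1, ⁅b1, a1⁆⁆⁆ = 0) :
    ⁅a1, ⁅a1, b1⁆⁆ - (2 : ℂ) • a1 = ⁅b1, ⁅b1, a1⁆⁆ - (2 : ℂ) • b1 := by
  have e1 : (y : R) * a1 * ((y⁻¹ : Rˣ) : R) = a1 + ⁅b1, a1⁆ + (1 / 2 : ℂ) • ⁅b1, ⁅b1, a1⁆⁆ :=
    Lg.ad3 m1 (Units.inv_mul y) h2
  have e2 : ((x⁻¹ : Rˣ) : R) * b1 * (x : R) =
      b1 + ⁅-a1, b1⁆ + (1 / 2 : ℂ) • ⁅-a1, ⁅-a1, b1⁆⁆ := by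
    refine Lg.ad3 (Lg.neg' l1 (Units.inv_mul x)) (Units.mul_inv x) ?_
    rw [neg_lie, neg_lie, neg_lie, lie_neg, lie_neg, lie_neg, h1]
    simp
  have e3 : (y : R) * a1 * ((y⁻¹ : Rˣ) : R) = ((x⁻¹ : Rˣ) : R) * b1 * (x : R) := by
    have g1 : Lg ((y : R) * a1 * ((y⁻¹ : Rˣ) : R)) ((y : R) * x * ((y⁻¹ : Rˣ) : R)) :=
      l1.conj (Units.mul_inv y) (Units.inv_mul y)
    have g2 : Lg (((x⁻¹ : Rˣ) : R) * b1 * (x : R)) (((x⁻¹ : Rˣ) : R) * y * (x : R)) :=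
      m1.conj (Units.inv_mul x) (Units.mul_inv x)
    have g3 : y * x * y⁻¹ = x⁻¹ * y * x := by
      rw [mul_inv_eq_iff_eq_mul, mul_assoc (x⁻¹ * y), mul_assoc x⁻¹, eq_inv_mul_iff_mul_eq,
        ← mul_assoc, ← mul_assoc]
      exact hxy
    have g4 : (y : R) * x * ((y⁻¹ : Rˣ) : R) = ((x⁻¹ : Rˣ) : R) * y * (x : R) := by
      have g5 := congrArg (fun u : Rˣ => (u : R)) g3
      simpa using g5
    rw [g4] at g1
    exact g1.uniq g2
  rw [e1, e2, neg_lie, neg_lie, lie_neg, neg_neg] at e3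
  linear_combination (norm := module) (-2 : ℂ) • e3 - (2 : ℂ) • lie_skew b1 a1
-- END PA3

-- MODULE PA4
/-- The relations of the Lie algebra for one pair of handles, `S = a1 + a2 - e`.
PROOF. s = sg x y z a, φ = cnj s, ψ = cnj s⁻¹, P = φ b2 - b2 - b1. pair_a, pair_b: φ a1 = a1 - S + a2, ψ a1 = a1 + S + a2, φ (φ a1) = a1 - 2 S + 4 a2, φ b2 = b2 + P + b1, ψ b2 = b2 - P + b1, φ (φ b2) = b2 + 2 P + 4 b1, ψ a2 = a2, ψ b1 = b1 (apply ψ to φ a2 = a2; ψ (φ r) = r). LA.of: the commutations from Lg.comm2 (x, z, a commute; b, y, G' commute; x b = b x, y a = a y) as ⁅u,v⁆ = u v - v u = 0; h1 = φ ⁅a1,b2⁆ = 0 (φ is a Lie homomorphism), h2 = ψ ⁅a1,b2⁆, h3 = φ (φ ⁅a1,b2⁆). LA.cube; braid_log for (x, y) and for (a, b) (h.ba; symmetric form); LA.th, LA.wt, LA.core. -/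
theorem pair_core (h : Q5 x y z b a) (l1 : Lg a1 (x : R)) (m1 : Lg b1 (y : R)) (le : Lg e (z : R))
    (m2 : Lg b2 (b : R)) (l2 : Lg a2 (a : R)) : Core a1 b1 a2 b2 (a1 + a2 - e) := by
  obtain ⟨p1, p2, p3, p4, p5⟩ := pair_a h l1 m1 le l2
  obtain ⟨r1, r2, r3, r4⟩ := pair_b h m1 m2
  have q2 : cnj (sg x y z a)⁻¹ a2 = a2 := by
    have h1 := PA1_can' (sg x y z a) a2
    rw [p1] at h1
    exact h1
  have q1 : cnj (sg x y z a)⁻¹ b1 = b1 := by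
    have h1 := PA1_can' (sg x y z a) b1
    rw [p2] at h1
    exact h1
  generalize cnj (sg x y z a) = φ at *
  generalize cnj (sg x y z a)⁻¹ = ψ at *
  have hz : ∀ {u v : R}, Commute u v → ⁅u, v⁆ = 0 := by
    intro u v huv
    rw [LieRing.of_associative_ring_bracket, huv.eq, sub_self]
  obtain ⟨S, hS⟩ : ∃ S, S = a1 + a2 - e := ⟨_, rfl⟩
  obtain ⟨P, hP⟩ : ∃ P, P = φ b2 - b2 - b1 := ⟨_, rfl⟩
  rw [← hS]
  have pa1 : φ a1 = a1 - S + a2 := by rw [p3, hS]; abel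
  have qa1 : ψ a1 = a1 + S + a2 := by
    rw [p4, hS]
    module
  have pa1' : φ (φ a1) = a1 - (2 : ℂ) • S + (4 : ℂ) • a2 := by
    rw [p3, p5, hS]
    module
  have pb2 : φ b2 = b2 + P + b1 := by rw [hP]; abel
  have qb2 : ψ b2 = b2 - P + b1 := by
    rw [r1, hP]
    module
  have pb2' : φ (φ b2) = b2 + (2 : ℂ) • P + (4 : ℂ) • b1 := by
    rw [r2, hP]
    module
  have c12 : ⁅a1, b2⁆ = 0 := hz (Lg.comm2 l1 m2 (show Commute x b from h.xb).units_val)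
  have caa : Commute a1 a2 := Lg.comm2 l1 l2 (show Commute x a from h.xa).units_val
  have ca1e : Commute a1 e := Lg.comm2 l1 le (show Commute x z from h.xz).units_val
  have ca2e : Commute e a2 := Lg.comm2 le l2 (show Commute z a from h.za).units_val
  have cbb : Commute b1 b2 := Lg.comm2 m1 m2 (show Commute y b from h.yb).units_val
  have hLA : LA a1 b1 a2 b2 S P := by
    refine LA.of a1 b1 a2 b2 S P (hz caa) ?_ ?_ (hz cbb) ?_ ?_ c12 ?_ ?_ ?_ ?_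
    · rw [hS]
      exact hz (((Commute.refl a1).add_right caa).sub_right ca1e)
    · rw [hS]
      exact hz ((caa.symm.add_right (Commute.refl a2)).sub_right ca2e.symm)
    · rw [hP]
      exact hz ((r3.symm.sub_right cbb).sub_right (Commute.refl b1))
    · rw [hP]
      exact hz ((r4.symm.sub_right (Commute.refl b2)).sub_right cbb.symm)
    · exact hz (Lg.comm2 l2 m1 (show Commute a y from h.ya.symm).units_val)
    · rw [← pa1, ← pb2, ← LieHom.map_lie, c12, map_zero]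
    · rw [← qa1, ← qb2, ← LieHom.map_lie, c12, map_zero]
    · rw [← pa1', ← pb2', ← LieHom.map_lie, ← LieHom.map_lie, c12, map_zero, map_zero]
  obtain ⟨t1, t2, t3, t4⟩ := hLA.cube
  obtain ⟨k1, k2, n1, n2⟩ := hLA.th φ ψ pa1 p1 p2 pb2 qa1 q2 q1 qb2
    (braid_log h.xy l1 m1 t1 t3) (braid_log (show a * b * a = b * a * b from h.ba.symm) l2 m2 t2 t4)
  obtain ⟨w1, w2⟩ := hLA.wt φ ψ pa1 p1 p2 pb2 qa1 q2 q1 qb2 k1 n2
  exact hLA.core k1 k2 n1 n2 w1 w2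
-- END PA4

end

end Pool.Agent.EG80
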