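import Pool.Agent.EG80.Fin
import Pool.Agent.EG80.Defs
import Pool.Agent.LJ.Eh

set_option linter.all false

namespace Pool.Agent.EG80

open Pool.Agent.HG13 Pool.Agent.QR80

universe u

variable {g n : ℕ}

/-- Extension of the map to all forms. -/
theorem QuoE.quo {Γ : Subgroup (MulAut (Fr g n))} {V : Type u} [AddCommGroup V] [Module ℂ V]
    {ρ : Representation ℂ (ModG Γ) V} {j : ℕ} {W : Submodule ℂ V} (h : QuoE ρ j W) :
    Quo ρ j W := by
  obtain ⟨E, π, hW, h⟩ := h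
  obtain ⟨π', hπ'⟩ := LinearMap.exists_extend π
  have e : ∀ f : E, π' f = π f := fun f => by rw [← hπ']; rfl
  refine ⟨E, π', ?_, fun φ (f : Fm g (Fin j)) (hf : f ∈ E) => ?_⟩
  · rw [← hW]
    apply le_antisymm
    · rintro _ ⟨f, hf, rfl⟩
      exact ⟨⟨f, hf⟩, (e ⟨f, hf⟩).symm⟩
    · rintro _ ⟨f, rfl⟩
      exact ⟨(f : Fm g (Fin j)), f.2, e f⟩
  · obtain ⟨f', h1, h2⟩ := h φ ⟨f, hf⟩
    have h3 : acF j φ f = (f' : Fm g (Fin j)) := h1.symm
    refine ⟨h3 ▸ f'.2, ?_⟩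
    have h4 : π' (f' : Fm g (Fin j)) = ρ (incl Γ φ) (π' f) := by
      rw [e f', h2, ← e ⟨f, hf⟩]
    exact (congrArg π' h3).trans h4

/-- The exponential range: a semisimple representation of dimension less than `4 ^ m`, where
`2 m + 2 ≤ g`, is a quotient of a subrepresentation of a direct sum of spaces of multilinear forms
on the homology. -/
theorem exponential_range (g n m : ℕ) (hg : 2 * m + 2 ≤ g) (Γ : Subgroup (MulAut (Fr g n)))
    (hΓ : Γ = Subgroup.closure (twists g n)) {V : Type u} [AddCommGroup V] [Module ℂ V]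
    [FiniteDimensional ℂ V] (ρ : Representation ℂ (ModG Γ) V) (hs : Semis ρ)
    (hd : Module.finrank ℂ V < 4 ^ m) : Geo ρ := by
  have hΓ' : twists g n ⊆ Γ := by
    rw [hΓ]
    exact Subgroup.subset_closure
  suffices h : Sums ρ by
    obtain ⟨N, j, W, h1, h2⟩ := h
    exact ⟨(high_genus' g n m hg Γ hΓ' ρ hd).2.2.1 hs, N, j, W, fun i => (h1 i).quo, h2⟩
  refine geo_of_irr Γ (4 ^ m) ?_ ρ hs hd
  intro V _ _ _ ρ hirr hd
  obtain ⟨h1, h2, h3, h4, h5⟩ := LJ.torelli g n m hg Γ hΓ ρ hirr hd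
  obtain ⟨p, D, hD⟩ := end_irr (by omega) Γ hΓ (LJ.pr_sys Γ hΓ') ρ hirr ⟨h1, h2, h3, h4, h5⟩
  obtain ⟨j, D', hD'⟩ := hD.fin
  exact ⟨j, hD'.quo⟩

end Pool.Agent.EG80
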